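import Pool.Agent.Lib.SM.Torus

/-!
# The standard map on the torus: arcs (helper90)
-/

set_option autoImplicit false

open Real MeasureTheory Set

namespace Pool.Agent.SM

/-- The arc `(s, s']`. -/
def arc (s s' : ℝ) : Set (AddCircle (2 * π)) := (fun x : ℝ => (x : AddCircle (2 * π))) '' Ioc s s'

/-- The representative in `(0, 2 π]`. -/
noncomputable def rep (x : AddCircle (2 * π)) : ℝ := (AddCircle.measurableEquivIoc (2 * π) 0 x : ℝ)

theorem measurable_rep : Measurable rep :=
  measurable_subtype_coe.comp (AddCircle.measurableEquivIoc (2 * π) 0).measurable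

theorem rep_mem (x : AddCircle (2 * π)) : 0 < rep x ∧ rep x ≤ 2 * π := by
  have h := (AddCircle.measurableEquivIoc (2 * π) 0 x).2
  exact ⟨h.1, h.2.trans_eq (zero_add _)⟩

theorem coe_rep (x : AddCircle (2 * π)) : ((rep x : ℝ) : AddCircle (2 * π)) = x :=
  AddCircle.coe_equivIoc

theorem coe_eq_iff (x y : ℝ) : ((x : AddCircle (2 * π)) = y) ↔ ∃ k : ℤ, x = y + k * (2 * π) := by
  rw [← sub_eq_zero, ← AddCircle.coe_sub, AddCircle.coe_eq_zero_iff]
  constructor
  · rintro ⟨k, hk⟩
    refine ⟨k, ?_⟩
    rw [zsmul_eq_mul] at hk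
    linarith
  · rintro ⟨k, hk⟩
    refine ⟨k, ?_⟩
    rw [zsmul_eq_mul]
    linarith

theorem mem_arc {s s' : ℝ} {x : AddCircle (2 * π)} :
    x ∈ arc s s' ↔ ∃ k : ℤ, s < rep x + k * (2 * π) ∧ rep x + k * (2 * π) ≤ s' := by
  constructor
  · rintro ⟨y, hy, hyx⟩
    have h : (y : AddCircle (2 * π)) = ((rep x : ℝ) : AddCircle (2 * π)) := by
      rw [coe_rep]
      exact hyx
    obtain ⟨k, hk⟩ := (coe_eq_iff _ _).1 h
    exact ⟨k, by rw [← hk]; exact hy.1, by rw [← hk]; exact hy.2⟩
  · rintro ⟨k, h1, h2⟩
    refine ⟨rep x + k * (2 * π), ⟨h1, h2⟩, ?_⟩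
    have h : (((rep x + k * (2 * π) : ℝ)) : AddCircle (2 * π)) = ((rep x : ℝ) : AddCircle (2 * π)) :=
      (coe_eq_iff _ _).2 ⟨k, rfl⟩
    simp only
    rw [h, coe_rep]

/-- Integer constraints. -/
theorem int_cases {w : ℝ} {k : ℤ} (h1 : -(2 * π) < w + k * (2 * π)) (h2 : w + k * (2 * π) ≤ 2 * π)
    (h3 : 0 < w) (h4 : w ≤ 2 * π) : k = 0 ∨ k = -1 := by
  have hπ := Real.two_pi_pos
  have h5 : (k : ℝ) < 1 := by
    by_contra h
    push Not at h
    nlinarith
  have h6 : (-2 : ℝ) < k := by
    by_contra h
    push Not at h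
    nlinarith
  have h7 : k < 1 := by exact_mod_cast h5
  have h8 : -2 < k := by exact_mod_cast h6
  omega

theorem mem_arc_zero {u : ℝ} (hu : u ≤ 2 * π) {x : AddCircle (2 * π)} :
    x ∈ arc 0 u ↔ rep x ≤ u := by
  have hx := rep_mem x
  have hπ := Real.two_pi_pos
  rw [mem_arc]
  constructor
  · rintro ⟨k, h1, h2⟩
    rcases int_cases (w := rep x) (k := k) (by linarith) (by linarith) hx.1 hx.2 with h | h
    · rw [h, Int.cast_zero, zero_mul, add_zero] at h2
      exact h2
    · rw [h] at h1
      push_cast at h1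
      linarith
  · intro h
    exact ⟨0, by rw [Int.cast_zero, zero_mul, add_zero]; exact hx.1,
      by rw [Int.cast_zero, zero_mul, add_zero]; exact h⟩

/-- The indicator of the arc `(0, u]`. -/
noncomputable def hh (u : ℝ) (x : AddCircle (2 * π)) : ℝ := (arc 0 u).indicator (fun _ => 1) x

theorem hh_eq {u : ℝ} (hu : u ≤ 2 * π) (x : AddCircle (2 * π)) :
    hh u x = if rep x ≤ u then 1 else 0 := by
  classical
  unfold hh
  rw [indicator_apply]
  exact if_congr (mem_arc_zero hu) rfl rfl

theorem measurable_hh {u : ℝ} (hu : u ≤ 2 * π) : Measurable (hh u) := by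
  have : hh u = fun x => if rep x ≤ u then 1 else 0 := funext (hh_eq hu)
  rw [this]
  exact Measurable.ite (measurable_rep measurableSet_Iic) measurable_const measurable_const

theorem hh_nonneg (u : ℝ) (x : AddCircle (2 * π)) : 0 ≤ hh u x := by
  unfold hh
  exact indicator_nonneg (fun _ _ => zero_le_one) x

theorem hh_le (u : ℝ) (x : AddCircle (2 * π)) : hh u x ≤ 1 := by
  unfold hh
  exact indicator_le_self' (fun _ _ => zero_le_one) x

theorem hh_mono {u v : ℝ} (h : u ≤ v) (hv : v ≤ 2 * π) (x : AddCircle (2 * π)) :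
    hh u x ≤ hh v x := by
  rw [hh_eq (h.trans hv), hh_eq hv]
  split_ifs with h1 h2 h2
  · exact le_rfl
  · exact absurd (h1.trans h) h2
  · exact zero_le_one
  · exact le_rfl

/-- The indicator of a general arc. -/
theorem arc_dec (s s' : ℝ) (hs : s ≤ s') (hs' : s' ≤ s + 2 * π) : ∃ w u : Fin 3 → ℝ,
    (∀ i, |w i| ≤ 1) ∧ (∀ i, 0 ≤ u i ∧ u i ≤ 2 * π) ∧
    (∀ x, (arc s s').indicator (fun _ => (1 : ℝ)) x = ∑ i, w i * hh (u i) x) ∧
    s' - s = ∑ i, w i * u i := by
  classical
  have hπ := Real.two_pi_pos
  set a : ℤ := toIcoDiv two_pi_pos 0 s with ha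
  set b : ℤ := toIcoDiv two_pi_pos 0 s' with hb
  set u : ℝ := toIcoMod two_pi_pos 0 s with hu
  set v : ℝ := toIcoMod two_pi_pos 0 s' with hv
  have hu1 : u ∈ Ico 0 (0 + 2 * π) := toIcoMod_mem_Ico two_pi_pos 0 s
  have hv1 : v ∈ Ico 0 (0 + 2 * π) := toIcoMod_mem_Ico two_pi_pos 0 s'
  rw [zero_add] at hu1 hv1
  have hsu : s = u + a * (2 * π) := by
    have := toIcoMod_add_toIcoDiv_zsmul two_pi_pos 0 s
    rw [zsmul_eq_mul] at this
    exact this.symm
  have hsv : s' = v + b * (2 * π) := by
    have := toIcoMod_add_toIcoDiv_zsmul two_pi_pos 0 s'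
    rw [zsmul_eq_mul] at this
    exact this.symm
  have hd : b = a ∨ b = a + 1 := by
    have h1 : ((b - a : ℤ) : ℝ) < 2 := by
      push_cast
      by_contra h
      push Not at h
      nlinarith [hu1.1, hu1.2, hv1.1, hv1.2]
    have h2 : (-1 : ℝ) < ((b - a : ℤ) : ℝ) := by
      push_cast
      by_contra h
      push Not at h
      nlinarith [hu1.1, hu1.2, hv1.1, hv1.2]
    have h3 : b - a < 2 := by exact_mod_cast h1
    have h4 : -1 < b - a := by exact_mod_cast h2
    omega
  refine ⟨![1, -1, ((b - a : ℤ) : ℝ)], ![v, u, 2 * π], ?_, ?_, ?_, ?_⟩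
  · intro i
    fin_cases i
    · simp
    · simp
    · rcases hd with h | h
      · simp [h]
      · simp [h]
  · intro i
    fin_cases i
    · exact ⟨hv1.1, hv1.2.le⟩
    · exact ⟨hu1.1, hu1.2.le⟩
    · exact ⟨hπ.le, le_rfl⟩
  · intro x
    have hx := rep_mem x
    rw [Fin.sum_univ_three]
    show _ = 1 * hh v x + -1 * hh u x + ((b - a : ℤ) : ℝ) * hh (2 * π) x
    rw [hh_eq hv1.2.le, hh_eq hu1.2.le, hh_eq le_rfl, if_pos hx.2, indicator_apply]
    rcases hd with h | h
    · -- no wrap
      have huv : u ≤ v := by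
        rw [hsu, hsv, h] at hs
        linarith
      have hiff : x ∈ arc s s' ↔ u < rep x ∧ rep x ≤ v := by
        rw [mem_arc]
        constructor
        · rintro ⟨k, h1, h2⟩
          rw [hsu] at h1
          rw [hsv, h] at h2
          have h3 : -(2 * π) < rep x + ((k - a : ℤ) : ℝ) * (2 * π) := by
            push_cast
            linarith [hu1.1]
          have h4 : rep x + ((k - a : ℤ) : ℝ) * (2 * π) ≤ 2 * π := by
            push_cast
            linarith [hv1.2]
          rcases int_cases h3 h4 hx.1 hx.2 with h5 | h5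
          · have : k = a := by omega
            rw [this] at h1 h2
            exact ⟨by linarith, by linarith⟩
          · have : k = a - 1 := by omega
            rw [this] at h1 h2
            push_cast at h1 h2
            exfalso
            linarith [hu1.1, hx.2]
        · rintro ⟨h1, h2⟩
          refine ⟨a, ?_, ?_⟩
          · rw [hsu]
            linarith
          · rw [hsv, h]
            linarith
      rw [h, sub_self, Int.cast_zero, zero_mul, add_zero]
      by_cases h1 : rep x ≤ u
      · rw [if_neg (fun h2 => not_lt.2 h1 (hiff.1 h2).1), if_pos (h1.trans huv), if_pos h1]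
        norm_num
      · by_cases h2 : rep x ≤ v
        · rw [if_pos (hiff.2 ⟨not_le.1 h1, h2⟩), if_pos h2, if_neg h1]
          norm_num
        · rw [if_neg (fun h3 => h2 (hiff.1 h3).2), if_neg h2, if_neg h1]
          norm_num
    · -- wrap
      have hvu : v ≤ u := by
        rw [hsu, hsv, h] at hs'
        push_cast at hs'
        linarith
      have hiff : x ∈ arc s s' ↔ u < rep x ∨ rep x ≤ v := by
        rw [mem_arc]
        constructor
        · rintro ⟨k, h1, h2⟩
          rw [hsu] at h1
          rw [hsv, h] at h2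
          push_cast at h2
          have h3 : -(2 * π) < rep x + ((k - a - 1 : ℤ) : ℝ) * (2 * π) := by
            push_cast
            linarith [hu1.1]
          have h4 : rep x + ((k - a - 1 : ℤ) : ℝ) * (2 * π) ≤ 2 * π := by
            push_cast
            linarith [hv1.2]
          rcases int_cases h3 h4 hx.1 hx.2 with h5 | h5
          · have : k = a + 1 := by omega
            rw [this] at h1 h2
            push_cast at h1 h2
            right
            linarith
          · have : k = a := by omega
            rw [this] at h1 h2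
            left
            linarith
        · rintro (h1 | h1)
          · refine ⟨a, ?_, ?_⟩
            · rw [hsu]
              linarith
            · rw [hsv, h]
              push_cast
              linarith [hv1.1, hx.2]
          · refine ⟨a + 1, ?_, ?_⟩
            · rw [hsu]
              push_cast
              linarith [hu1.2, hx.1]
            · rw [hsv, h]
              push_cast
              linarith
      have e : ((b - a : ℤ) : ℝ) = 1 := by
        rw [h]
        push_cast
        ring
      rw [e]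
      by_cases h1 : rep x ≤ v
      · rw [if_pos (hiff.2 (Or.inr h1)), if_pos h1, if_pos (h1.trans hvu)]
        norm_num
      · by_cases h2 : rep x ≤ u
        · rw [if_neg (fun h3 => (hiff.1 h3).elim (fun h4 => not_lt.2 h2 h4) h1), if_neg h1,
            if_pos h2]
          norm_num
        · rw [if_pos (hiff.2 (Or.inl (not_le.1 h2))), if_neg h1, if_neg h2]
          norm_num
  · rw [Fin.sum_univ_three]
    show s' - s = 1 * v + -1 * u + ((b - a : ℤ) : ℝ) * (2 * π)
    push_cast
    linarith

end Pool.Agent.SM
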