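import Pool.Agent.Lib.SM.Osc

/-!
# The standard map: where the weight is not one (helper90)
-/

set_option autoImplicit false

open Real

namespace Pool.Agent.SM

/-- Indicator of the critical strips. -/
noncomputable def ind (δ x : ℝ) : ℝ := if |cos x| ≤ δ then 1 else 0

theorem ind_nonneg (δ x : ℝ) : 0 ≤ ind δ x := by
  unfold ind
  split_ifs <;> norm_num

theorem stepA {K s t c A : ℝ} (hK : 0 < K) (hA : 1 ≤ |A|) (hst : s ≠ 0 ∨ t ≠ 0) :
    s ^ 2 / (s ^ 2 + K ^ 2 * t ^ 2) * (1 - (A * (c * s - t)) ^ 2 /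
      ((A * (c * s - t)) ^ 2 + K ^ 2 * s ^ 2)) ≤
      1 / K ^ 2 + K ^ 2 / (max (|c| - 1) 0 ^ 2 + K ^ 2) := by
  set p := A * (c * s - t) with hp
  have hK2 : 0 < K ^ 2 := by positivity
  have hr : 0 < max (|c| - 1) 0 ^ 2 + K ^ 2 := by positivity
  have hD0 : 0 ≤ p ^ 2 / (p ^ 2 + K ^ 2 * s ^ 2) := by positivity
  have hD1 : p ^ 2 / (p ^ 2 + K ^ 2 * s ^ 2) ≤ 1 := by
    apply div_le_one_of_le₀ _ (by positivity)
    have : 0 ≤ K ^ 2 * s ^ 2 := by positivity
    linarith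
  rcases lt_or_ge |s| |t| with h | h
  · have ht : 0 < t ^ 2 := by
      rw [← sq_abs]
      have := (abs_nonneg s).trans_lt h
      positivity
    have hs : s ^ 2 ≤ t ^ 2 := sq_le_sq.2 h.le
    have h1 : s ^ 2 / (s ^ 2 + K ^ 2 * t ^ 2) ≤ 1 / K ^ 2 := by
      rw [div_le_div_iff₀ (by positivity) hK2]
      nlinarith [sq_nonneg s]
    have h2 : s ^ 2 / (s ^ 2 + K ^ 2 * t ^ 2) * (1 - p ^ 2 / (p ^ 2 + K ^ 2 * s ^ 2)) ≤
        s ^ 2 / (s ^ 2 + K ^ 2 * t ^ 2) :=
      mul_le_of_le_one_right (by positivity) (by linarith)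
    have h3 : 0 ≤ K ^ 2 / (max (|c| - 1) 0 ^ 2 + K ^ 2) := by positivity
    linarith
  · have hs0 : s ≠ 0 := by
      rintro rfl
      rw [abs_zero] at h
      have : t = 0 := abs_eq_zero.1 (le_antisymm h (abs_nonneg t))
      rcases hst with h1 | h1
      · exact h1 rfl
      · exact h1 this
    have hs2 : 0 < s ^ 2 := by positivity
    have hden : 0 < p ^ 2 + K ^ 2 * s ^ 2 := by positivity
    have hp2 : max (|c| - 1) 0 ^ 2 * s ^ 2 ≤ p ^ 2 := by
      rw [← mul_pow, ← sq_abs p, ← sq_abs (max (|c| - 1) 0 * s)]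
      apply pow_le_pow_left₀ (abs_nonneg _)
      rw [abs_mul, abs_of_nonneg (le_max_right _ _), hp, abs_mul]
      have e1 : (|c| - 1) * |s| ≤ |c * s - t| := by
        have := abs_sub_abs_le_abs_sub (c * s) t
        rw [abs_mul] at this
        linarith
      have e2 : max (|c| - 1) 0 * |s| ≤ |c * s - t| := by
        rcases max_cases (|c| - 1) 0 with ⟨h1, _⟩ | ⟨h1, _⟩
        · rw [h1]
          exact e1
        · rw [h1, zero_mul]
          exact abs_nonneg _
      exact e2.trans (le_mul_of_one_le_left (abs_nonneg _) hA)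
    have h1 : s ^ 2 / (s ^ 2 + K ^ 2 * t ^ 2) ≤ 1 := by
      apply div_le_one_of_le₀ _ (by positivity)
      have : 0 ≤ K ^ 2 * t ^ 2 := by positivity
      linarith
    have h2 : 1 - p ^ 2 / (p ^ 2 + K ^ 2 * s ^ 2) = K ^ 2 * s ^ 2 / (p ^ 2 + K ^ 2 * s ^ 2) := by
      field_simp
      ring
    have h3 : K ^ 2 * s ^ 2 / (p ^ 2 + K ^ 2 * s ^ 2) ≤ K ^ 2 / (max (|c| - 1) 0 ^ 2 + K ^ 2) := by
      rw [div_le_div_iff₀ hden hr]
      nlinarith
    have h4 : s ^ 2 / (s ^ 2 + K ^ 2 * t ^ 2) * (1 - p ^ 2 / (p ^ 2 + K ^ 2 * s ^ 2)) ≤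
        1 - p ^ 2 / (p ^ 2 + K ^ 2 * s ^ 2) := mul_le_of_le_one_left (by linarith) h1
    have h5 : 0 ≤ 1 / K ^ 2 := by positivity
    linarith

theorem stepB {K l δ b c z : ℝ} (hK : 0 < K) (hl : 0 < l) (hδ : 0 < δ)
    (hlδ : 2 * (3 + b) ≤ l * δ) (hc : l * |cos z| - 2 - b ≤ |c|) :
    K ^ 2 / (max (|c| - 1) 0 ^ 2 + K ^ 2) ≤ 4 * K ^ 2 / (l * δ) ^ 2 + ind δ z := by
  have hK2 : 0 < K ^ 2 := by positivity
  have hlδ0 : 0 < l * δ := by positivity
  unfold ind
  split_ifs with hz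
  · have h1 : K ^ 2 / (max (|c| - 1) 0 ^ 2 + K ^ 2) ≤ 1 := by
      apply div_le_one_of_le₀ _ (by positivity)
      have := sq_nonneg (max (|c| - 1) 0)
      linarith
    have h2 : 0 ≤ 4 * K ^ 2 / (l * δ) ^ 2 := by positivity
    linarith
  · push Not at hz
    have h1 : l * δ ≤ l * |cos z| := mul_le_mul_of_nonneg_left hz.le hl.le
    have h2 : l * δ / 2 ≤ |c| - 1 := by linarith
    have h3 : l * δ / 2 ≤ max (|c| - 1) 0 := h2.trans (le_max_left _ _)
    have h4 : (l * δ / 2) ^ 2 ≤ max (|c| - 1) 0 ^ 2 :=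
      pow_le_pow_left₀ (by positivity) h3 2
    rw [add_zero, div_le_div_iff₀ (by positivity) (by positivity)]
    have h5 : 4 * (max (|c| - 1) 0 ^ 2 + K ^ 2) ≥ (l * δ) ^ 2 := by nlinarith
    nlinarith

variable {l y x K A B δ : ℝ}

theorem VP_le (hK : 0 < K) (m : ℕ) :
    V K l y x m * P l y x (m + 1) ≤ P l y x (m + 1) ^ 2 / N K l y x m := by
  cases m with
  | zero =>
    show (1 : ℝ) * 1 ≤ 1 ^ 2 / (1 ^ 2 + K ^ 2 * 0 ^ 2)
    norm_num
  | succ m =>
    have hN := N_pos (l := l) (y := y) (x := x) hK (m + 1)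
    have e : V K l y x (m + 1) * P l y x (m + 1 + 1) =
        V K l y x m * P l y x (m + 1) * (P l y x (m + 1 + 1) ^ 2 / N K l y x (m + 1)) := by
      show V K l y x m * v K l y x (m + 1) * P l y x (m + 1 + 1) = _
      unfold v
      ring
    rw [e]
    exact mul_le_of_le_one_left (by positivity) (VP_mem hK m).2

theorem one_sub_VP (hl : 0 < l) (hK : 0 < K) (hδ : 0 < δ) (hlδ : 6 ≤ l * δ) (m : ℕ) :
    1 - V K l y x m * P l y x (m + 1) ≤ m * (1 / K ^ 2 + 4 * K ^ 2 / (l * δ) ^ 2) +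
      ∑ i ∈ Finset.range m, ind δ (X l y x (i + 1)) := by
  induction m with
  | zero =>
    show 1 - (1 : ℝ) * 1 ≤ _
    simp
  | succ m ih =>
    have hN := N_pos (l := l) (y := y) (x := x) hK (m + 1)
    have hN0 := N_pos (l := l) (y := y) (x := x) hK m
    have e : V K l y x (m + 1) * P l y x (m + 1 + 1) =
        V K l y x m * P l y x (m + 1) * (P l y x (m + 1 + 1) ^ 2 / N K l y x (m + 1)) := by
      show V K l y x m * v K l y x (m + 1) * P l y x (m + 1 + 1) = _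
      unfold v
      ring
    set W := V K l y x m * P l y x (m + 1) with hW
    set w := P l y x (m + 1 + 1) ^ 2 / N K l y x (m + 1) with hw
    have hw1 : w ≤ 1 := by
      rw [hw, div_le_one hN]
      unfold N
      have : 0 ≤ K ^ 2 * P l y x (m + 1) ^ 2 := by positivity
      linarith
    have h1 : W * (1 - w) ≤ P l y x (m + 1) ^ 2 / N K l y x m * (1 - w) :=
      mul_le_mul_of_nonneg_right (VP_le hK m) (by linarith)
    have h2 := stepA (K := K) (s := P l y x (m + 1)) (t := P l y x m) (A := 1)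
      (c := 2 + l * cos (X l y x (m + 1))) hK (by norm_num) (nondeg m).symm
    rw [one_mul] at h2
    have h3 : P l y x (m + 1) ^ 2 / N K l y x m * (1 - w) ≤ 1 / K ^ 2 +
        K ^ 2 / (max (|2 + l * cos (X l y x (m + 1))| - 1) 0 ^ 2 + K ^ 2) := h2
    have h4 := stepB (K := K) (l := l) (δ := δ) (b := 0) (c := 2 + l * cos (X l y x (m + 1)))
      (z := X l y x (m + 1)) hK hl hδ (by linarith) (by
        have := abs_sub_abs_le_abs_sub (l * cos (X l y x (m + 1))) (-2)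
        rw [abs_mul, abs_of_pos hl, abs_neg, abs_of_pos (by norm_num : (0 : ℝ) < 2), sub_neg_eq_add,
          add_comm (l * cos (X l y x (m + 1))) 2] at this
        linarith)
    rw [e, Finset.sum_range_succ]
    have h5 : 1 - W * w = (1 - W) + W * (1 - w) := by ring
    rw [h5]
    push_cast
    linarith

/-- The weight is almost one outside the critical strips. -/
theorem one_sub_hpt (hl : 0 < l) (hK : 0 < K) (hδ : 0 < δ) (hA : 1 ≤ |A|)
    (hlδ : 2 * (3 + |B|) ≤ l * δ) (m : ℕ) :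
    1 - h A B K l y x m * pt A B l y x m ≤
      (m + 1) * (1 / K ^ 2 + 4 * K ^ 2 / (l * δ) ^ 2) +
      ∑ i ∈ Finset.range (m + 1), ind δ (X l y x (i + 1)) := by
  have hA0 : A ≠ 0 := by
    rintro rfl
    norm_num at hA
  have hB0 := abs_nonneg B
  have hN := Nt_pos (l := l) (y := y) (x := x) (B := B) hK hA0 m
  have hN0 := N_pos (l := l) (y := y) (x := x) hK m
  have ih := one_sub_VP (l := l) (y := y) (x := x) (K := K) (δ := δ) hl hK hδ (by linarith) m
  set W := V K l y x m * P l y x (m + 1) with hW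
  set w := pt A B l y x m ^ 2 / Nt A B K l y x m with hw
  have hw1 : w ≤ 1 := by
    rw [hw, div_le_one hN]
    unfold Nt
    have : 0 ≤ K ^ 2 * P l y x (m + 1) ^ 2 := by positivity
    linarith
  have h1 : W * (1 - w) ≤ P l y x (m + 1) ^ 2 / N K l y x m * (1 - w) :=
    mul_le_mul_of_nonneg_right (VP_le hK m) (by linarith)
  set c := 2 + l * cos (X l y x (m + 1)) + B / A with hc
  have h2 := stepA (K := K) (s := P l y x (m + 1)) (t := P l y x m) (A := A)
    (c := c) hK hA (nondeg m).symm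
  rw [hc, ← pt_eq hA0, ← hc] at h2
  have h3 : P l y x (m + 1) ^ 2 / N K l y x m * (1 - w) ≤ 1 / K ^ 2 +
      K ^ 2 / (max (|c| - 1) 0 ^ 2 + K ^ 2) := h2
  have h4 := stepB (K := K) (l := l) (δ := δ) (b := |B|) (c := c)
    (z := X l y x (m + 1)) hK hl hδ hlδ (by
      have e1 := abs_sub_abs_le_abs_sub (l * cos (X l y x (m + 1))) (-(2 + B / A))
      rw [abs_mul, abs_of_pos hl, abs_neg, sub_neg_eq_add] at e1
      have e2 := abs_add_le 2 (B / A)
      rw [abs_of_pos (by norm_num : (0 : ℝ) < 2)] at e2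
      have e3 : |B / A| ≤ |B| := by
        rw [abs_div]
        exact div_le_self hB0 hA
      have e4 : l * cos (X l y x (m + 1)) + (2 + B / A) = c := by
        rw [hc]
        ring
      rw [e4] at e1
      linarith)
  rw [hpt_eq, Finset.sum_range_succ]
  have h5 : 1 - W * w = (1 - W) + W * (1 - w) := by ring
  rw [← hW, ← hw, h5]
  linarith

end Pool.Agent.SM
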