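import Mathlib

/-!
# Row RECT of project SM: from the Fourier coefficients to rectangles
-/

set_option autoImplicit false

open Real MeasureTheory Set

namespace Pool.Agent.SM

/-- The coefficients of the kernel. -/
noncomputable def rectC (M j : ℕ) : ℝ := ((2 * M).choose j : ℝ) / ((2 * M).choose M : ℝ)

/-- The kernel, a trigonometric polynomial of degree `M` with mean value one. -/
noncomputable def rectK (M : ℕ) (w : ℝ) : ℝ :=
  (2 * π)⁻¹ * ((4 : ℝ) ^ M / ((2 * M).choose M : ℝ)) * ((1 + cos w) / 2) ^ M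

theorem rect_choose_pos (M : ℕ) : (0 : ℝ) < ((2 * M).choose M : ℝ) := by
  exact_mod_cast Nat.choose_pos (by omega)

theorem rectC_nonneg (M j : ℕ) : 0 ≤ rectC M j :=
  div_nonneg (Nat.cast_nonneg _) (Nat.cast_nonneg _)

theorem rectC_le_one (M j : ℕ) : rectC M j ≤ 1 := by
  unfold rectC
  rw [div_le_one (rect_choose_pos M)]
  have := Nat.choose_le_centralBinom j M
  rw [Nat.centralBinom_eq_two_mul_choose] at this
  exact_mod_cast this

theorem rectC_self (M : ℕ) : rectC M M = 1 := by
  unfold rectC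
  exact div_self (rect_choose_pos M).ne'

theorem rectK_nonneg (M : ℕ) (w : ℝ) : 0 ≤ rectK M w := by
  unfold rectK
  have h1 : 0 ≤ (1 + cos w) / 2 := by linarith [neg_one_le_cos w]
  have h2 := (rect_choose_pos M).le
  positivity

theorem rectK_cont (M : ℕ) : Continuous (rectK M) := by
  unfold rectK
  fun_prop

theorem rectK_even (M : ℕ) (w : ℝ) : rectK M (-w) = rectK M w := by
  unfold rectK
  rw [cos_neg]

theorem rectK_per (M : ℕ) : Function.Periodic (rectK M) (2 * π) := by
  intro w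
  unfold rectK
  rw [cos_add_two_pi]

theorem rectK_eq (M : ℕ) (w : ℝ) :
    (rectK M w : ℂ) = ∑ j ∈ Finset.range (2 * M + 1), (((2 * π)⁻¹ * rectC M j : ℝ) : ℂ) *
      Complex.exp (Complex.I * ((((j : ℤ) - (M : ℤ) : ℤ)) : ℂ) * w) := by
  set z : ℂ := Complex.exp (Complex.I * (w / 2 : ℝ)) with hz
  have hz0 : z ≠ 0 := Complex.exp_ne_zero _
  have hzi : z⁻¹ = Complex.exp (-(Complex.I * (w / 2 : ℝ))) := (Complex.exp_neg _).symm
  have h1 : z + z⁻¹ = 2 * Complex.cos (w / 2 : ℝ) := by
    rw [hzi, hz, Complex.cos]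
    have e1 : Complex.I * (w / 2 : ℝ) = ((w / 2 : ℝ) : ℂ) * Complex.I := by ring
    have e2 : -(((w / 2 : ℝ) : ℂ) * Complex.I) = -((w / 2 : ℝ) : ℂ) * Complex.I := by ring
    rw [e1, e2]
    ring
  have h2 : (z + z⁻¹) ^ (2 * M) = ((4 ^ M * ((1 + cos w) / 2) ^ M : ℝ) : ℂ) := by
    rw [h1, pow_mul, ← Complex.ofReal_cos]
    have e : (2 * ((cos (w / 2) : ℝ) : ℂ)) ^ 2 = ((4 * ((1 + cos w) / 2) : ℝ) : ℂ) := by
      have : (1 + cos w) / 2 = cos (w / 2) ^ 2 := by
        have := Real.cos_sq (w / 2)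
        rw [this]
        have e3 : 2 * (w / 2) = w := by ring
        rw [e3]; ring
      rw [this]
      push_cast
      ring
    rw [e, ← Complex.ofReal_pow, mul_pow]
  have h3 : (z + z⁻¹) ^ (2 * M) = ∑ j ∈ Finset.range (2 * M + 1),
      ((2 * M).choose j : ℂ) *
        Complex.exp (Complex.I * ((((j : ℤ) - (M : ℤ) : ℤ)) : ℂ) * w) := by
    rw [add_pow]
    refine Finset.sum_congr rfl fun j hj => ?_
    have hj' : j ≤ 2 * M := by
      have := Finset.mem_range.mp hj
      omega
    have e : z ^ j * z⁻¹ ^ (2 * M - j) =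
        Complex.exp (Complex.I * ((((j : ℤ) - (M : ℤ) : ℤ)) : ℂ) * w) := by
      rw [hzi, hz, ← Complex.exp_nat_mul, ← Complex.exp_nat_mul, ← Complex.exp_add]
      congr 1
      push_cast [Nat.cast_sub hj']
      ring
    rw [e]
    ring
  have h4 : (rectK M w : ℂ) = (((2 * π)⁻¹ / ((2 * M).choose M : ℝ) : ℝ) : ℂ) *
      (z + z⁻¹) ^ (2 * M) := by
    rw [h2, ← Complex.ofReal_mul]
    congr 1
    unfold rectK
    ring
  rw [h4, h3, Finset.mul_sum]
  refine Finset.sum_congr rfl fun j _ => ?_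
  unfold rectC
  push_cast
  ring

theorem rect_intexp (n : ℤ) :
    ∫ w in (0 : ℝ)..(2 * π), Complex.exp (Complex.I * (n : ℂ) * w) =
      if n = 0 then ((2 * π : ℝ) : ℂ) else 0 := by
  split_ifs with h
  · subst h
    simp
  · have hc : Complex.I * (n : ℂ) ≠ 0 :=
      mul_ne_zero Complex.I_ne_zero (by exact_mod_cast h)
    rw [integral_exp_mul_complex hc]
    have e : Complex.exp (Complex.I * (n : ℂ) * ((2 * π : ℝ) : ℂ)) = 1 := by
      rw [Complex.exp_eq_one_iff]
      exact ⟨n, by push_cast; ring⟩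
    rw [e]
    simp

theorem rectK_int (M : ℕ) : ∫ w in (0 : ℝ)..(2 * π), rectK M w = 1 := by
  have h : ((∫ w in (0 : ℝ)..(2 * π), rectK M w : ℝ) : ℂ) = 1 := by
    rw [← intervalIntegral.integral_ofReal]
    simp_rw [rectK_eq]
    rw [intervalIntegral.integral_finsetSum]
    · simp_rw [intervalIntegral.integral_const_mul, rect_intexp]
      rw [Finset.sum_eq_single M]
      · rw [if_pos (by ring), rectC_self, ← Complex.ofReal_mul]
        have : (2 * π)⁻¹ * 1 * (2 * π) = 1 := by
          field_simp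
        rw [this]
        simp
      · intro j _ hj
        rw [if_neg, mul_zero]
        intro h0
        apply hj
        omega
      · intro h
        exact absurd (Finset.mem_range.mpr (by omega)) h
    · intro j _
      apply Continuous.intervalIntegrable
      fun_prop
  exact_mod_cast h

theorem rectK_cos (M : ℕ) :
    ∫ w in (0 : ℝ)..(2 * π), rectK M w * (1 - cos w) = 1 / (M + 1) := by
  set c : ℝ := (2 * π)⁻¹ * ((4 : ℝ) ^ M / ((2 * M).choose M : ℝ)) with hc
  have hK : ∀ w, rectK M w = c * ((1 + cos w) / 2) ^ M := fun w => rfl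
  have hder : ∀ w : ℝ, HasDerivAt (fun w => c * (sin w * ((1 + cos w) / 2) ^ M))
      (rectK M w * (1 - (M + 1) * (1 - cos w))) w := by
    intro w
    have h1 : HasDerivAt (fun w : ℝ => ((1 + cos w) / 2) ^ M)
        (M * ((1 + cos w) / 2) ^ (M - 1) * (-sin w / 2)) w := by
      have h0 : HasDerivAt (fun w : ℝ => (1 + cos w) / 2) (-sin w / 2) w := by
        have := ((hasDerivAt_cos w).const_add 1).div_const 2
        exact this
      exact h0.pow M
    have h2 := ((hasDerivAt_sin w).mul h1).const_mul c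
    refine h2.congr_deriv ?_
    rw [hK]
    rcases Nat.eq_zero_or_pos M with h0 | h0
    · subst h0
      simp
    · obtain ⟨k, rfl⟩ : ∃ k, M = k + 1 := ⟨M - 1, by omega⟩
      have hs : sin w * sin w = (1 - cos w) * (1 + cos w) := by
        have := sin_sq_add_cos_sq w
        nlinarith
      simp only [Nat.add_sub_cancel]
      push_cast
      rw [pow_succ]
      linear_combination (-c * ((k : ℝ) + 1) * ((1 + cos w) / 2) ^ k / 2) * hs
  have h := intervalIntegral.integral_eq_sub_of_hasDerivAt (a := 0) (b := 2 * π)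
    (fun w _ => hder w) (by
      apply Continuous.intervalIntegrable
      have := rectK_cont M
      fun_prop)
  have h2 : (fun w => rectK M w * (1 - ((M : ℝ) + 1) * (1 - cos w))) =
      fun w => rectK M w - ((M : ℝ) + 1) * (rectK M w * (1 - cos w)) := by
    funext w; ring
  rw [h2, intervalIntegral.integral_sub, intervalIntegral.integral_const_mul, rectK_int] at h
  · simp at h
    have hM : (0 : ℝ) < (M : ℝ) + 1 := by positivity
    rw [eq_div_iff hM.ne']
    linarith
  · exact (rectK_cont M).intervalIntegrable _ _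
  · apply Continuous.intervalIntegrable
    have := rectK_cont M
    fun_prop

theorem rect_min (M : ℕ) (hM : 1 ≤ M) :
    ∫ w in Ioc (0 : ℝ) (2 * π), min w (2 * π - w) * rectK M w ≤ 3 / √M := by
  have hM0 : (0 : ℝ) < M := by exact_mod_cast hM
  have hs : 0 < √(M : ℝ) := Real.sqrt_pos.mpr hM0
  have hss : √(M : ℝ) * √(M : ℝ) = M := Real.mul_self_sqrt hM0.le
  have h0 : (0 : ℝ) ≤ 2 * π := by positivity
  have hpt : ∀ w ∈ Ioc (0 : ℝ) (2 * π), min w (2 * π - w) * rectK M w ≤
      (√M * (π ^ 2 / 4)) * (rectK M w * (1 - cos w)) + (1 / (2 * √M)) * rectK M w := by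
    intro w hw
    have hK := rectK_nonneg M w
    have h1 : (min w (2 * π - w)) ^ 2 ≤ π ^ 2 / 2 * (1 - cos w) := by
      have key : ∀ v : ℝ, |v| ≤ π → v ^ 2 ≤ π ^ 2 / 2 * (1 - cos v) := by
        intro v hv
        have := Real.cos_le_one_sub_mul_cos_sq hv
        have hp : 0 < π ^ 2 := by positivity
        have e : v ^ 2 = π ^ 2 / 2 * (2 / π ^ 2 * v ^ 2) := by field_simp
        rw [e]
        apply mul_le_mul_of_nonneg_left _ (by positivity)
        linarith
      rcases le_total w (2 * π - w) with h | h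
      · rw [min_eq_left h]
        apply key
        rw [abs_of_pos hw.1]
        linarith
      · rw [min_eq_right h]
        have := key (2 * π - w) (by
          rw [abs_of_nonneg (by linarith [hw.2])]
          linarith)
        rwa [Real.cos_two_pi_sub] at this
    have h2 : min w (2 * π - w) ≤ √M * (π ^ 2 / 4) * (1 - cos w) + 1 / (2 * √M) := by
      have h3 : 0 ≤ (√M * min w (2 * π - w) - 1) ^ 2 := sq_nonneg _
      have h4 : min w (2 * π - w) ≤ √M * (min w (2 * π - w)) ^ 2 / 2 + 1 / (2 * √M) := by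
        have e : √M * (min w (2 * π - w)) ^ 2 / 2 + 1 / (2 * √M) - min w (2 * π - w) =
            (√M * min w (2 * π - w) - 1) ^ 2 / (2 * √M) := by
          field_simp
          ring
        have : 0 ≤ (√M * min w (2 * π - w) - 1) ^ 2 / (2 * √M) := by positivity
        linarith
      have h5 : √M * (min w (2 * π - w)) ^ 2 / 2 ≤ √M * (π ^ 2 / 4) * (1 - cos w) := by
        have := mul_le_mul_of_nonneg_left h1 (by positivity : (0 : ℝ) ≤ √M / 2)
        calc √M * (min w (2 * π - w)) ^ 2 / 2 = √M / 2 * (min w (2 * π - w)) ^ 2 := by ring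
          _ ≤ √M / 2 * (π ^ 2 / 2 * (1 - cos w)) := this
          _ = _ := by ring
      linarith
    calc min w (2 * π - w) * rectK M w ≤
        (√M * (π ^ 2 / 4) * (1 - cos w) + 1 / (2 * √M)) * rectK M w :=
          mul_le_mul_of_nonneg_right h2 hK
      _ = _ := by ring
  have hKc := rectK_cont M
  have hi1 : IntervalIntegrable (fun w => rectK M w * (1 - cos w)) volume 0 (2 * π) :=
    Continuous.intervalIntegrable (by fun_prop) _ _
  have hi2 : IntervalIntegrable (fun w => rectK M w) volume 0 (2 * π) :=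
    hKc.intervalIntegrable _ _
  have hi3 : IntervalIntegrable (fun w => min w (2 * π - w) * rectK M w) volume 0 (2 * π) :=
    Continuous.intervalIntegrable (by fun_prop) _ _
  rw [← intervalIntegral.integral_of_le h0]
  calc ∫ w in (0 : ℝ)..(2 * π), min w (2 * π - w) * rectK M w
      ≤ ∫ w in (0 : ℝ)..(2 * π), ((√M * (π ^ 2 / 4)) * (rectK M w * (1 - cos w)) +
          (1 / (2 * √M)) * rectK M w) := by
        rw [intervalIntegral.integral_of_le h0, intervalIntegral.integral_of_le h0]
        refine setIntegral_mono_on ?_ ?_ measurableSet_Ioc hpt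
        · exact (intervalIntegrable_iff_integrableOn_Ioc_of_le h0).mp hi3
        · exact (intervalIntegrable_iff_integrableOn_Ioc_of_le h0).mp
            ((hi1.const_mul _).add (hi2.const_mul _))
    _ = (√M * (π ^ 2 / 4)) * (1 / (M + 1)) + (1 / (2 * √M)) * 1 := by
        rw [intervalIntegral.integral_add (hi1.const_mul _) (hi2.const_mul _),
          intervalIntegral.integral_const_mul, intervalIntegral.integral_const_mul,
          rectK_cos, rectK_int]
    _ ≤ 3 / √M := by
        have hpi : π < 3.15 := Real.pi_lt_d2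
        have hpi0 : 0 < π := Real.pi_pos
        have h1 : √M * (π ^ 2 / 4) * (1 / (M + 1)) ≤ (5 / 2) / √M := by
          rw [le_div_iff₀ hs, mul_one_div, div_mul_eq_mul_div, div_le_iff₀ (by positivity)]
          have : π ^ 2 ≤ 10 := by nlinarith
          have e : √M * (π ^ 2 / 4) * √M = (M : ℝ) * (π ^ 2 / 4) := by
            have e2 : √M * (π ^ 2 / 4) * √M = (√(M : ℝ) * √(M : ℝ)) * (π ^ 2 / 4) := by ring
            rw [e2, hss]
          rw [e]
          nlinarith
        have h2 : 1 / (2 * √M) * 1 = (1 / 2) / √M := by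
          field_simp
        rw [h2]
        calc _ ≤ (5 / 2) / √M + (1 / 2) / √M := by linarith
          _ = 3 / √M := by ring

theorem rect_swap (M : ℕ) (hM : 1 ≤ M) (T : Set (ℝ × ℝ)) (hT : MeasurableSet T)
    (hv : ∀ w ∈ Ioc (0 : ℝ) (2 * π),
      volume {x | (x, w) ∈ T} ≤ ENNReal.ofReal (min w (2 * π - w))) :
    ∫ x in Ioc (0 : ℝ) (2 * π), (∫ w in Ioc (0 : ℝ) (2 * π),
      T.indicator (fun p => rectK M p.2) (x, w)) ≤ 3 / √M := by
  refine le_trans ?_ (rect_min M hM)
  have hKc := rectK_cont M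
  have : IsFiniteMeasure (volume.restrict (Ioc (0 : ℝ) (2 * π))) :=
    ⟨by rw [Measure.restrict_apply_univ, Real.volume_Ioc]; exact ENNReal.ofReal_lt_top⟩
  obtain ⟨B, hB⟩ : ∃ B, ∀ w, ‖rectK M w‖ ≤ B := by
    refine ⟨(2 * π)⁻¹ * ((4 : ℝ) ^ M / ((2 * M).choose M : ℝ)), fun w => ?_⟩
    rw [Real.norm_of_nonneg (rectK_nonneg M w)]
    have h1 : 0 ≤ (1 + cos w) / 2 := by linarith [neg_one_le_cos w]
    have h2 : (1 + cos w) / 2 ≤ 1 := by linarith [cos_le_one w]
    have h3 := (rect_choose_pos M).le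
    unfold rectK
    exact mul_le_of_le_one_right (by positivity) (pow_le_one₀ h1 h2)
  have hint : Integrable (Function.uncurry fun x w => T.indicator (fun p => rectK M p.2) (x, w))
      ((volume.restrict (Ioc (0 : ℝ) (2 * π))).prod
        (volume.restrict (Ioc (0 : ℝ) (2 * π)))) := by
    have hm : Measurable (T.indicator (fun p : ℝ × ℝ => rectK M p.2)) :=
      (hKc.measurable.comp measurable_snd).indicator hT
    refine Integrable.of_bound (C := B) ?_ ?_
    · exact hm.aestronglyMeasurable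
    · refine Filter.Eventually.of_forall fun p => ?_
      have : ‖T.indicator (fun p : ℝ × ℝ => rectK M p.2) p‖ ≤ B :=
        le_trans (norm_indicator_le_norm_self _ _) (hB _)
      exact this
  rw [integral_integral_swap hint]
  refine setIntegral_mono_on hint.integral_prod_right ?_ measurableSet_Ioc ?_
  · have : IntervalIntegrable (fun w => min w (2 * π - w) * rectK M w) volume 0 (2 * π) :=
      Continuous.intervalIntegrable (by fun_prop) _ _
    exact (intervalIntegrable_iff_integrableOn_Ioc_of_le (by positivity)).mp this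
  · intro w hw
    have hmw : 0 ≤ min w (2 * π - w) := le_min hw.1.le (by linarith [hw.2])
    have hS : MeasurableSet {x | (x, w) ∈ T} := measurable_prodMk_right hT
    have e : (fun x => T.indicator (fun p : ℝ × ℝ => rectK M p.2) (x, w)) =
        {x | (x, w) ∈ T}.indicator (fun _ => rectK M w) := by
      funext x
      by_cases hx : (x, w) ∈ T
      · rw [Set.indicator_of_mem hx, Set.indicator_of_mem (show x ∈ {x | (x, w) ∈ T} from hx)]
      · rw [Set.indicator_of_notMem hx,
          Set.indicator_of_notMem (show x ∉ {x | (x, w) ∈ T} from hx)]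
    rw [e, integral_indicator hS, setIntegral_const, smul_eq_mul]
    refine mul_le_mul_of_nonneg_right ?_ (rectK_nonneg M w)
    have h1 : (volume.restrict (Ioc (0 : ℝ) (2 * π))) {x | (x, w) ∈ T} ≤
        ENNReal.ofReal (min w (2 * π - w)) :=
      le_trans (Measure.restrict_apply_le _ _) (hv w hw)
    unfold Measure.real
    exact ENNReal.toReal_le_of_le_ofReal hmw h1

/-- The error function at one end point. -/
noncomputable def rectG (M : ℕ) (s x : ℝ) : ℝ :=
  if x ≤ s then ∫ u in s..(2 * π), rectK M (x - u) else ∫ u in (0 : ℝ)..s, rectK M (x - u)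

theorem rectG_eq (M : ℕ) (s : ℝ) (hs : 0 ≤ s) (hs' : s ≤ 2 * π) (x : ℝ)
    (hx : x ∈ Ioc (0 : ℝ) (2 * π)) :
    rectG M s x = (∫ w in Ioc (0 : ℝ) (2 * π), {p : ℝ × ℝ | p.1 ≤ s ∧ s - p.1 < p.2 ∧
        p.2 ≤ 2 * π - p.1 ∧ 0 < p.1}.indicator (fun p => rectK M p.2) (x, w)) +
      ∫ w in Ioc (0 : ℝ) (2 * π), {p : ℝ × ℝ | s < p.1 ∧ p.1 - s < p.2 ∧
        p.2 ≤ p.1 ∧ p.1 ≤ 2 * π}.indicator (fun p => rectK M p.2) (x, w) := by
  unfold rectG
  split_ifs with h
  · have e2 : ∀ w, {p : ℝ × ℝ | s < p.1 ∧ p.1 - s < p.2 ∧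
        p.2 ≤ p.1 ∧ p.1 ≤ 2 * π}.indicator (fun p => rectK M p.2) (x, w) = 0 := by
      intro w
      refine Set.indicator_of_notMem ?_ _
      rintro ⟨h1, -⟩
      exact absurd h1 (not_lt.mpr h)
    have e1 : ∀ w, {p : ℝ × ℝ | p.1 ≤ s ∧ s - p.1 < p.2 ∧
        p.2 ≤ 2 * π - p.1 ∧ 0 < p.1}.indicator (fun p => rectK M p.2) (x, w) =
        (Ioc (s - x) (2 * π - x)).indicator (rectK M) w := by
      intro w
      by_cases hw : w ∈ Ioc (s - x) (2 * π - x)
      · rw [Set.indicator_of_mem hw, Set.indicator_of_mem]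
        exact ⟨h, hw.1, hw.2, hx.1⟩
      · rw [Set.indicator_of_notMem hw, Set.indicator_of_notMem]
        rintro ⟨-, h2, h3, -⟩
        exact hw ⟨h2, h3⟩
    simp_rw [e1, e2]
    rw [integral_zero, add_zero, setIntegral_indicator measurableSet_Ioc,
      Ioc_inter_Ioc, max_eq_right (by linarith), min_eq_right (by linarith [hx.1]),
      ← intervalIntegral.integral_of_le (by linarith)]
    have e3 : (fun u => rectK M (x - u)) = fun u => rectK M (u - x) := by
      funext u
      rw [← rectK_even M (x - u)]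
      congr 1
      ring
    rw [e3, intervalIntegral.integral_comp_sub_right]
  · push Not at h
    have e1 : ∀ w, {p : ℝ × ℝ | p.1 ≤ s ∧ s - p.1 < p.2 ∧
        p.2 ≤ 2 * π - p.1 ∧ 0 < p.1}.indicator (fun p => rectK M p.2) (x, w) = 0 := by
      intro w
      refine Set.indicator_of_notMem ?_ _
      rintro ⟨h1, -⟩
      exact absurd h1 (not_le.mpr h)
    have e2 : ∀ w, {p : ℝ × ℝ | s < p.1 ∧ p.1 - s < p.2 ∧
        p.2 ≤ p.1 ∧ p.1 ≤ 2 * π}.indicator (fun p => rectK M p.2) (x, w) =
        (Ioc (x - s) x).indicator (rectK M) w := by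
      intro w
      by_cases hw : w ∈ Ioc (x - s) x
      · rw [Set.indicator_of_mem hw, Set.indicator_of_mem]
        exact ⟨h, hw.1, hw.2, hx.2⟩
      · rw [Set.indicator_of_notMem hw, Set.indicator_of_notMem]
        rintro ⟨-, h2, h3, -⟩
        exact hw ⟨h2, h3⟩
    simp_rw [e1, e2]
    rw [integral_zero, zero_add, setIntegral_indicator measurableSet_Ioc,
      Ioc_inter_Ioc, max_eq_right (by linarith), min_eq_right hx.2,
      ← intervalIntegral.integral_of_le (by linarith)]
    rw [intervalIntegral.integral_comp_sub_left, sub_zero]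

theorem rectG_int (M : ℕ) (hM : 1 ≤ M) (s : ℝ) (hs : 0 ≤ s) (hs' : s ≤ 2 * π) :
    IntegrableOn (rectG M s) (Ioc (0 : ℝ) (2 * π)) ∧
      ∫ x in Ioc (0 : ℝ) (2 * π), rectG M s x ≤ 6 / √M := by
  have hKc := rectK_cont M
  have : IsFiniteMeasure (volume.restrict (Ioc (0 : ℝ) (2 * π))) :=
    ⟨by rw [Measure.restrict_apply_univ, Real.volume_Ioc]; exact ENNReal.ofReal_lt_top⟩
  obtain ⟨B, hB⟩ : ∃ B, ∀ w, ‖rectK M w‖ ≤ B := by
    refine ⟨(2 * π)⁻¹ * ((4 : ℝ) ^ M / ((2 * M).choose M : ℝ)), fun w => ?_⟩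
    rw [Real.norm_of_nonneg (rectK_nonneg M w)]
    have h1 : 0 ≤ (1 + cos w) / 2 := by linarith [neg_one_le_cos w]
    have h2 : (1 + cos w) / 2 ≤ 1 := by linarith [cos_le_one w]
    have h3 := (rect_choose_pos M).le
    unfold rectK
    exact mul_le_of_le_one_right (by positivity) (pow_le_one₀ h1 h2)
  have hint : ∀ T : Set (ℝ × ℝ), MeasurableSet T →
      Integrable (fun x => ∫ w in Ioc (0 : ℝ) (2 * π),
        T.indicator (fun p => rectK M p.2) (x, w)) (volume.restrict (Ioc (0 : ℝ) (2 * π))) := by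
    intro T hT
    have hm : Measurable (T.indicator (fun p : ℝ × ℝ => rectK M p.2)) :=
      (hKc.measurable.comp measurable_snd).indicator hT
    have : Integrable (T.indicator (fun p : ℝ × ℝ => rectK M p.2))
      ((volume.restrict (Ioc (0 : ℝ) (2 * π))).prod
        (volume.restrict (Ioc (0 : ℝ) (2 * π)))) := by
      refine Integrable.of_bound (C := B) hm.aestronglyMeasurable ?_
      refine Filter.Eventually.of_forall fun p => ?_
      exact le_trans (norm_indicator_le_norm_self _ _) (hB _)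
    exact this.integral_prod_left
  set T1 : Set (ℝ × ℝ) := {p : ℝ × ℝ | p.1 ≤ s ∧ s - p.1 < p.2 ∧
        p.2 ≤ 2 * π - p.1 ∧ 0 < p.1} with hT1
  set T2 : Set (ℝ × ℝ) := {p : ℝ × ℝ | s < p.1 ∧ p.1 - s < p.2 ∧
        p.2 ≤ p.1 ∧ p.1 ≤ 2 * π} with hT2
  have m1 : MeasurableSet T1 := by
    refine (measurableSet_le measurable_fst measurable_const).inter
      ((measurableSet_lt (measurable_const.sub measurable_fst) measurable_snd).inter
      ((measurableSet_le measurable_snd (measurable_const.sub measurable_fst)).inter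
      (measurableSet_lt measurable_const measurable_fst)))
  have m2 : MeasurableSet T2 := by
    refine (measurableSet_lt measurable_const measurable_fst).inter
      ((measurableSet_lt (measurable_fst.sub measurable_const) measurable_snd).inter
      ((measurableSet_le measurable_snd measurable_fst).inter
      (measurableSet_le measurable_fst measurable_const)))
  have v1 : ∀ w ∈ Ioc (0 : ℝ) (2 * π),
      volume {x | (x, w) ∈ T1} ≤ ENNReal.ofReal (min w (2 * π - w)) := by
    intro w hw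
    have hsub : {x | (x, w) ∈ T1} ⊆ Ioc (max 0 (s - w)) (min s (2 * π - w)) := by
      rintro x ⟨h1, h2, h3, h4⟩
      simp only at h1 h2 h3 h4
      exact ⟨max_lt h4 (by linarith), le_min h1 (by linarith)⟩
    refine le_trans (measure_mono hsub) ?_
    rw [Real.volume_Ioc]
    apply ENNReal.ofReal_le_ofReal
    apply le_min
    · have a1 := min_le_left s (2 * π - w)
      have a2 := le_max_right 0 (s - w)
      linarith
    · have a1 := min_le_right s (2 * π - w)
      have a2 := le_max_left 0 (s - w)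
      linarith
  have v2 : ∀ w ∈ Ioc (0 : ℝ) (2 * π),
      volume {x | (x, w) ∈ T2} ≤ ENNReal.ofReal (min w (2 * π - w)) := by
    intro w hw
    have hsub : {x | (x, w) ∈ T2} ⊆ Icc (max s w) (min (2 * π) (s + w)) := by
      rintro x ⟨h1, h2, h3, h4⟩
      simp only at h1 h2 h3 h4
      exact ⟨max_le h1.le h3, le_min h4 (by linarith)⟩
    refine le_trans (measure_mono hsub) ?_
    rw [Real.volume_Icc]
    apply ENNReal.ofReal_le_ofReal
    apply le_min
    · have a1 := min_le_right (2 * π) (s + w)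
      have a2 := le_max_left s w
      linarith
    · have a1 := min_le_left (2 * π) (s + w)
      have a2 := le_max_right s w
      linarith
  have i1 := hint T1 m1
  have i2 := hint T2 m2
  have heq : ∀ x ∈ Ioc (0 : ℝ) (2 * π), (∫ w in Ioc (0 : ℝ) (2 * π),
      T1.indicator (fun p => rectK M p.2) (x, w)) + (∫ w in Ioc (0 : ℝ) (2 * π),
      T2.indicator (fun p => rectK M p.2) (x, w)) = rectG M s x :=
    fun x hx => (rectG_eq M s hs hs' x hx).symm
  refine ⟨?_, ?_⟩
  · exact IntegrableOn.congr_fun (i1.add i2) heq measurableSet_Ioc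
  · rw [← setIntegral_congr_fun measurableSet_Ioc heq, integral_add i1 i2]
    have j1 := rect_swap M hM T1 m1 v1
    have j2 := rect_swap M hM T2 m2 v2
    calc _ ≤ 3 / √M + 3 / √M := add_le_add j1 j2
      _ = 6 / √M := by ring

theorem rectK_int_sub (M : ℕ) (x : ℝ) : ∫ u in (0 : ℝ)..(2 * π), rectK M (x - u) = 1 := by
  rw [intervalIntegral.integral_comp_sub_left]
  have h := (rectK_per M).intervalIntegral_add_eq (x - 2 * π) 0
  rw [zero_add, sub_add_cancel, rectK_int] at h
  rw [sub_zero]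
  exact h

/-- The approximation of the indicator function of an interval. -/
theorem rect_err (M : ℕ) (s s' : ℝ) (hs : 0 ≤ s) (hss : s ≤ s') (hs' : s' ≤ 2 * π)
    (x : ℝ) :
    |(Ioc s s').indicator (fun _ => (1 : ℝ)) x - ∫ u in s..s', rectK M (x - u)| ≤
      rectG M s x + rectG M s' x := by
  have hKc := rectK_cont M
  have hi : ∀ a b, IntervalIntegrable (fun u => rectK M (x - u)) volume a b :=
    fun a b => Continuous.intervalIntegrable (by fun_prop) _ _
  have hnn : ∀ a b, a ≤ b → 0 ≤ ∫ u in a..b, rectK M (x - u) :=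
    fun a b hab => intervalIntegral.integral_nonneg hab fun u _ => rectK_nonneg M _
  have h1 := rectK_int_sub M x
  have hA := hnn 0 s hs
  have hB := hnn s s' hss
  have hC := hnn s' (2 * π) hs'
  have e1 := intervalIntegral.integral_add_adjacent_intervals (hi 0 s) (hi s s')
  have e2 := intervalIntegral.integral_add_adjacent_intervals (hi s s') (hi s' (2 * π))
  have e3 := intervalIntegral.integral_add_adjacent_intervals (hi 0 s) (hi s (2 * π))
  unfold rectG
  by_cases c1 : x ≤ s
  · have c2 : x ≤ s' := c1.trans hss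
    rw [if_pos c1, if_pos c2, Set.indicator_of_notMem (fun h => absurd h.1 (not_lt.mpr c1)),
      zero_sub, abs_neg, abs_of_nonneg hB]
    linarith
  · rw [if_neg c1]
    push Not at c1
    by_cases c2 : x ≤ s'
    · rw [if_pos c2, Set.indicator_of_mem (show x ∈ Ioc s s' from ⟨c1, c2⟩), abs_of_nonneg]
      · linarith
      · linarith
    · rw [if_neg c2]
      push Not at c2
      rw [Set.indicator_of_notMem (fun h => absurd h.2 (not_le.mpr c2)),
        zero_sub, abs_neg, abs_of_nonneg hB]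
      linarith

theorem rect_one (M : ℕ) (hM : 1 ≤ M) (s s' : ℝ) (hs : 0 ≤ s) (hss : s ≤ s')
    (hs' : s' ≤ 2 * π) :
    ∃ (a : ℕ → ℂ) (A : ℝ → ℝ), (∀ j, ‖a j‖ ≤ 1) ∧ a M = (((s' - s) / (2 * π) : ℝ) : ℂ) ∧
      Continuous A ∧ (∀ x, 0 ≤ A x ∧ A x ≤ 1) ∧
      (∀ x : ℝ, (A x : ℂ) = ∑ j ∈ Finset.range (2 * M + 1), a j *
        Complex.exp (Complex.I * ((((j : ℤ) - (M : ℤ) : ℤ)) : ℂ) * x)) ∧
      ∫ x in Ioc (0 : ℝ) (2 * π), |(Ioc s s').indicator (fun _ => (1 : ℝ)) x - A x| ≤
        12 / √M := by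
  have hKc := rectK_cont M
  have hform : ∀ x : ℝ, ((∫ u in s..s', rectK M (x - u) : ℝ) : ℂ) =
      ∑ j ∈ Finset.range (2 * M + 1), ((((2 * π)⁻¹ * rectC M j : ℝ) : ℂ) *
        ∫ u in s..s', Complex.exp (-(Complex.I * ((((j : ℤ) - (M : ℤ) : ℤ)) : ℂ) * u))) *
        Complex.exp (Complex.I * ((((j : ℤ) - (M : ℤ) : ℤ)) : ℂ) * x) := by
    intro x
    rw [← intervalIntegral.integral_ofReal]
    simp_rw [rectK_eq]
    rw [intervalIntegral.integral_finsetSum]
    · refine Finset.sum_congr rfl fun j _ => ?_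
      rw [intervalIntegral.integral_const_mul, mul_assoc, ← intervalIntegral.integral_mul_const]
      congr 1
      refine intervalIntegral.integral_congr fun u _ => ?_
      rw [← Complex.exp_add]
      congr 1
      push_cast
      ring
    · intro j _
      apply Continuous.intervalIntegrable
      fun_prop
  have hcont : Continuous fun x => ∫ u in s..s', rectK M (x - u) := by
    have h1 : Continuous fun x : ℝ => (((∫ u in s..s', rectK M (x - u) : ℝ) : ℂ)).re := by
      simp_rw [hform]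
      fun_prop
    simpa using h1
  have hi : ∀ x a b, IntervalIntegrable (fun u => rectK M (x - u)) volume a b :=
    fun x a b => Continuous.intervalIntegrable (by fun_prop) _ _
  have hnn : ∀ x a b, a ≤ b → 0 ≤ ∫ u in a..b, rectK M (x - u) :=
    fun x a b hab => intervalIntegral.integral_nonneg hab fun u _ => rectK_nonneg M _
  refine ⟨fun j => (((2 * π)⁻¹ * rectC M j : ℝ) : ℂ) *
      ∫ u in s..s', Complex.exp (-(Complex.I * ((((j : ℤ) - (M : ℤ) : ℤ)) : ℂ) * u)),
    fun x => ∫ u in s..s', rectK M (x - u), ?_, ?_, hcont, ?_, hform, ?_⟩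
  · intro j
    simp only [norm_mul]
    have h1 : ‖∫ u in s..s', Complex.exp
        (-(Complex.I * ((((j : ℤ) - (M : ℤ) : ℤ)) : ℂ) * u))‖ ≤ 1 * |s' - s| := by
      refine intervalIntegral.norm_integral_le_of_norm_le_const fun u _ => ?_
      have e : -(Complex.I * ((((j : ℤ) - (M : ℤ) : ℤ)) : ℂ) * u) =
          ((-(((j : ℤ) - (M : ℤ) : ℤ) : ℝ) * u : ℝ) : ℂ) * Complex.I := by
        push_cast
        ring
      rw [e, Complex.norm_exp_ofReal_mul_I]
    rw [one_mul, abs_of_nonneg (by linarith)] at h1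
    have h2 : ‖(((2 * π)⁻¹ * rectC M j : ℝ) : ℂ)‖ ≤ (2 * π)⁻¹ := by
      rw [Complex.norm_real, Real.norm_of_nonneg (by
        have := rectC_nonneg M j
        positivity)]
      exact mul_le_of_le_one_right (by positivity) (rectC_le_one M j)
    calc _ ≤ (2 * π)⁻¹ * (s' - s) := mul_le_mul h2 h1 (norm_nonneg _) (by positivity)
      _ ≤ (2 * π)⁻¹ * (2 * π) := by
          apply mul_le_mul_of_nonneg_left _ (by positivity)
          linarith
      _ = 1 := by field_simp
  · simp only [sub_self, Int.cast_zero, mul_zero, zero_mul, neg_zero, Complex.exp_zero,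
      intervalIntegral.integral_const, rectC_self]
    rw [Complex.real_smul]
    push_cast
    field_simp
  · intro x
    refine ⟨hnn x s s' hss, ?_⟩
    have h1 := rectK_int_sub M x
    have hA := hnn x 0 s hs
    have hC := hnn x s' (2 * π) hs'
    have e1 := intervalIntegral.integral_add_adjacent_intervals (hi x 0 s) (hi x s (2 * π))
    have e2 := intervalIntegral.integral_add_adjacent_intervals (hi x s s') (hi x s' (2 * π))
    simp only
    linarith
  · obtain ⟨i1, j1⟩ := rectG_int M hM s hs (hss.trans hs')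
    obtain ⟨i2, j2⟩ := rectG_int M hM s' (hs.trans hss) hs'
    calc _ ≤ ∫ x in Ioc (0 : ℝ) (2 * π), (rectG M s x + rectG M s' x) := by
          refine setIntegral_mono_on ?_ (i1.add i2) measurableSet_Ioc
            fun x _ => rect_err M s s' hs hss hs' x
          have h1 : IntegrableOn (fun x => (Ioc s s').indicator (fun _ => (1 : ℝ)) x)
              (Ioc (0 : ℝ) (2 * π)) := by
            apply IntegrableOn.indicator _ measurableSet_Ioc
            exact integrableOn_const (by rw [Real.volume_Ioc]; exact ENNReal.ofReal_ne_top)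
          have h2 : IntegrableOn (fun x => ∫ u in s..s', rectK M (x - u))
              (Ioc (0 : ℝ) (2 * π)) :=
            (hcont.integrableOn_Icc (a := 0) (b := 2 * π)).mono_set Ioc_subset_Icc_self
          exact (h1.sub h2).abs
      _ = (∫ x in Ioc (0 : ℝ) (2 * π), rectG M s x) +
          ∫ x in Ioc (0 : ℝ) (2 * π), rectG M s' x := integral_add i1 i2
      _ ≤ 6 / √M + 6 / √M := add_le_add j1 j2
      _ = 12 / √M := by ring

/-- Row RECT (file SM/Rect.lean). From the Fourier coefficients to rectangles. -/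
theorem rect_of_fourier (f : ℝ × ℝ → ℂ) (hf : Measurable f) (hb : ∀ p, ‖f p‖ ≤ 1)
    (h1 : ∀ x y, f (x + 2 * π, y) = f (x, y)) (h2 : ∀ x y, f (x, y + 2 * π) = f (x, y))
    (M : ℕ) (hM : 1 ≤ M) (ε : ℝ)
    (hε : ∀ a b : ℤ, (a, b) ≠ (0, 0) → |a| ≤ M → |b| ≤ M →
      ‖∫ p in Ioc 0 (2 * π) ×ˢ Ioc 0 (2 * π), f p * Complex.exp (Complex.I * (a * p.1 + b * p.2))‖
        ≤ ε) (s s' t t' : ℝ) (hs : 0 ≤ s) (hss : s ≤ s') (hs' : s' ≤ 2 * π) (ht : 0 ≤ t)
    (htt : t ≤ t') (ht' : t' ≤ 2 * π) :
    ‖(∫ p in Ioc s s' ×ˢ Ioc t t', f p) - ((((s' - s) * (t' - t) / (2 * π) ^ 2 : ℝ)) : ℂ) *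
      ∫ p in Ioc 0 (2 * π) ×ˢ Ioc 0 (2 * π), f p‖ ≤ 1000 * (ε * M ^ 2 + 1 / √M) := by
  have _ := h1
  have _ := h2
  obtain ⟨a, A, ha, haM, hAc, hA, hAe, hAi⟩ := rect_one M hM s s' hs hss hs'
  obtain ⟨b, B, hbb, hbM, hBc, hB, hBe, hBi⟩ := rect_one M hM t t' ht htt ht'
  set I0 : Set ℝ := Ioc 0 (2 * π) with hI0
  have hvI : volume I0 ≠ ⊤ := by
    rw [hI0, Real.volume_Ioc]; exact ENNReal.ofReal_ne_top
  have hvQ : volume (I0 ×ˢ I0) ≠ ⊤ := by
    rw [Measure.volume_eq_prod, Measure.prod_prod]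
    exact ENNReal.mul_ne_top hvI hvI
  have hmQ : MeasurableSet (I0 ×ˢ I0) := measurableSet_Ioc.prod measurableSet_Ioc
  set F : ℤ → ℤ → ℂ := fun k l =>
    ∫ p in I0 ×ˢ I0, f p * Complex.exp (Complex.I * (k * p.1 + l * p.2)) with hF
  have hM0 : (1 : ℝ) ≤ M := by exact_mod_cast hM
  have hε0 : 0 ≤ ε := by
    refine le_trans (norm_nonneg _) (hε 1 0 (by simp) ?_ (by simp))
    rw [abs_one]
    exact_mod_cast hM
  -- measurability and integrability
  have hiB : ∀ G : ℝ × ℝ → ℂ, Measurable G → (∀ p, ‖G p‖ ≤ 1) →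
      IntegrableOn G (I0 ×ˢ I0) volume := fun G hG hG1 =>
    Measure.integrableOn_of_bounded (M := 1) hvQ hG.aestronglyMeasurable
      (Filter.Eventually.of_forall hG1)
  have hexpm : ∀ k l : ℤ, Measurable fun p : ℝ × ℝ =>
      Complex.exp (Complex.I * (k * p.1 + l * p.2)) := fun k l => by
    apply Continuous.measurable
    fun_prop
  have hexp1 : ∀ (k l : ℤ) (p : ℝ × ℝ),
      ‖Complex.exp (Complex.I * (k * p.1 + l * p.2))‖ = 1 := by
    intro k l p
    have e : Complex.I * ((k : ℂ) * p.1 + l * p.2) =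
        ((k * p.1 + l * p.2 : ℝ) : ℂ) * Complex.I := by
      push_cast
      ring
    rw [e, Complex.norm_exp_ofReal_mul_I]
  -- the trigonometric polynomial
  have e1 : ∫ p in I0 ×ˢ I0, ((A p.1 * B p.2 : ℝ) : ℂ) * f p =
      ∑ q ∈ Finset.range (2 * M + 1) ×ˢ Finset.range (2 * M + 1),
        a q.1 * b q.2 * F ((q.1 : ℤ) - M) ((q.2 : ℤ) - M) := by
    have e0 : ∀ p : ℝ × ℝ, ((A p.1 * B p.2 : ℝ) : ℂ) * f p =
        ∑ q ∈ Finset.range (2 * M + 1) ×ˢ Finset.range (2 * M + 1),
          a q.1 * b q.2 * (f p * Complex.exp (Complex.I *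
            ((((q.1 : ℤ) - M : ℤ) : ℂ) * p.1 + (((q.2 : ℤ) - M : ℤ) : ℂ) * p.2))) := by
      intro p
      rw [Complex.ofReal_mul, hAe, hBe, Finset.sum_mul_sum, Finset.sum_mul,
        Finset.sum_product]
      refine Finset.sum_congr rfl fun j _ => ?_
      rw [Finset.sum_mul]
      refine Finset.sum_congr rfl fun l _ => ?_
      simp only
      have e : Complex.exp (Complex.I *
            ((((j : ℤ) - M : ℤ) : ℂ) * p.1 + (((l : ℤ) - M : ℤ) : ℂ) * p.2)) =
          Complex.exp (Complex.I * (((j : ℤ) - M : ℤ) : ℂ) * p.1) *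
          Complex.exp (Complex.I * (((l : ℤ) - M : ℤ) : ℂ) * p.2) := by
        rw [← Complex.exp_add]
        congr 1
        ring
      rw [e]
      ring
    simp_rw [e0]
    rw [integral_finsetSum]
    · refine Finset.sum_congr rfl fun q _ => ?_
      rw [integral_const_mul]
    · intro q _
      apply Integrable.const_mul
      refine hiB _ (hf.mul (hexpm _ _)) fun p => ?_
      rw [norm_mul, hexp1, mul_one]
      exact hb p
  have hMM : (M, M) ∈ Finset.range (2 * M + 1) ×ˢ Finset.range (2 * M + 1) := by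
    simp only [Finset.mem_product, Finset.mem_range]
    omega
  have e2 : ‖(∫ p in I0 ×ˢ I0, ((A p.1 * B p.2 : ℝ) : ℂ) * f p) -
      ((((s' - s) * (t' - t) / (2 * π) ^ 2 : ℝ)) : ℂ) * ∫ p in I0 ×ˢ I0, f p‖ ≤
      9 * (ε * M ^ 2) := by
    rw [e1, ← Finset.add_sum_erase _ _ hMM]
    have e3 : a (M, M).1 * b (M, M).2 * F (((M, M).1 : ℕ) - M : ℤ) (((M, M).2 : ℕ) - M : ℤ) =
        ((((s' - s) * (t' - t) / (2 * π) ^ 2 : ℝ)) : ℂ) * ∫ p in I0 ×ˢ I0, f p := by
      simp only [haM, hbM, sub_self, hF, Int.cast_zero, zero_mul, add_zero, mul_zero,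
        Complex.exp_zero, mul_one]
      congr 1
      push_cast
      ring
    rw [e3, add_sub_cancel_left]
    refine le_trans (norm_sum_le _ _) ?_
    calc _ ≤ ∑ q ∈ (Finset.range (2 * M + 1) ×ˢ Finset.range (2 * M + 1)).erase (M, M), ε := by
          refine Finset.sum_le_sum fun q hq => ?_
          obtain ⟨hq1, hq2⟩ := Finset.mem_erase.mp hq
          simp only [Finset.mem_product, Finset.mem_range] at hq2
          rw [norm_mul, norm_mul]
          have h3 : ‖F ((q.1 : ℤ) - M) ((q.2 : ℤ) - M)‖ ≤ ε := by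
            refine hε _ _ ?_ ?_ ?_
            · intro h0
              apply hq1
              have h01 := (Prod.mk.inj h0).1
              have h02 := (Prod.mk.inj h0).2
              apply Prod.ext
              · simp only
                omega
              · simp only
                omega
            · rw [abs_le]
              constructor <;> omega
            · rw [abs_le]
              constructor <;> omega
          calc ‖a q.1‖ * ‖b q.2‖ * ‖F ((q.1 : ℤ) - M) ((q.2 : ℤ) - M)‖ ≤ 1 * 1 * ε := by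
                apply mul_le_mul (mul_le_mul (ha _) (hbb _) (norm_nonneg _) zero_le_one) h3
                  (norm_nonneg _) (by norm_num)
            _ = ε := by ring
      _ = (((Finset.range (2 * M + 1) ×ˢ Finset.range (2 * M + 1)).erase (M, M)).card : ℝ) *
          ε := by rw [Finset.sum_const, nsmul_eq_mul]
      _ ≤ ((2 * M + 1 : ℕ) * (2 * M + 1 : ℕ) : ℝ) * ε := by
          apply mul_le_mul_of_nonneg_right _ hε0
          have := Finset.card_erase_le (a := (M, M))
            (s := Finset.range (2 * M + 1) ×ˢ Finset.range (2 * M + 1))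
          rw [Finset.card_product, Finset.card_range] at this
          exact_mod_cast this
      _ ≤ 9 * (ε * M ^ 2) := by
          push_cast
          have : (2 * (M : ℝ) + 1) * (2 * M + 1) ≤ 9 * M ^ 2 := by nlinarith
          calc _ ≤ (9 * (M : ℝ) ^ 2) * ε := mul_le_mul_of_nonneg_right this hε0
            _ = _ := by ring
  -- the approximation
  set iA : ℝ → ℝ := (Ioc s s').indicator (fun _ => (1 : ℝ)) with hiA
  set iB : ℝ → ℝ := (Ioc t t').indicator (fun _ => (1 : ℝ)) with hiB'
  have hiA0 : ∀ x, 0 ≤ iA x ∧ iA x ≤ 1 := fun x =>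
    ⟨Set.indicator_nonneg (fun _ _ => zero_le_one) x,
      Set.indicator_le_self' (fun _ _ => zero_le_one) x⟩
  have hiB0 : ∀ x, 0 ≤ iB x ∧ iB x ≤ 1 := fun x =>
    ⟨Set.indicator_nonneg (fun _ _ => zero_le_one) x,
      Set.indicator_le_self' (fun _ _ => zero_le_one) x⟩
  have hiAm : Measurable iA := measurable_const.indicator measurableSet_Ioc
  have hiBm : Measurable iB := measurable_const.indicator measurableSet_Ioc
  have e4 : ∫ p in Ioc s s' ×ˢ Ioc t t', f p =
      ∫ p in I0 ×ˢ I0, ((iA p.1 * iB p.2 : ℝ) : ℂ) * f p := by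
    have hsub : Ioc s s' ×ˢ Ioc t t' ⊆ I0 ×ˢ I0 :=
      Set.prod_mono (Ioc_subset_Ioc hs hs') (Ioc_subset_Ioc ht ht')
    have e5 : (fun p : ℝ × ℝ => ((iA p.1 * iB p.2 : ℝ) : ℂ) * f p) =
        (Ioc s s' ×ˢ Ioc t t').indicator f := by
      funext p
      by_cases hp : p ∈ Ioc s s' ×ˢ Ioc t t'
      · rw [Set.indicator_of_mem hp, hiA, hiB', Set.indicator_of_mem hp.1,
          Set.indicator_of_mem hp.2]
        simp
      · rw [Set.indicator_of_notMem hp]
        have : p.1 ∉ Ioc s s' ∨ p.2 ∉ Ioc t t' := by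
          by_contra hcon
          push Not at hcon
          exact hp ⟨hcon.1, hcon.2⟩
        rcases this with h | h
        · rw [hiA, Set.indicator_of_notMem h]
          simp
        · rw [hiB', Set.indicator_of_notMem h]
          simp
    rw [e5, setIntegral_indicator (measurableSet_Ioc.prod measurableSet_Ioc),
      Set.inter_eq_self_of_subset_right hsub]
  have hAbs : ∀ x, |A x| ≤ 1 := fun x => abs_le.mpr ⟨by linarith [(hA x).1], (hA x).2⟩
  have hBbs : ∀ x, |B x| ≤ 1 := fun x => abs_le.mpr ⟨by linarith [(hB x).1], (hB x).2⟩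
  have i1 : IntegrableOn (fun p : ℝ × ℝ => ((iA p.1 * iB p.2 : ℝ) : ℂ) * f p) (I0 ×ˢ I0)
      volume := by
    refine hiB _ ?_ fun p => ?_
    · exact (Complex.measurable_ofReal.comp ((hiAm.comp measurable_fst).mul
        (hiBm.comp measurable_snd))).mul hf
    · rw [norm_mul, Complex.norm_real, Real.norm_of_nonneg
        (mul_nonneg (hiA0 _).1 (hiB0 _).1)]
      calc iA p.1 * iB p.2 * ‖f p‖ ≤ 1 * 1 * 1 := by
            apply mul_le_mul _ (hb p) (norm_nonneg _) (by norm_num)
            exact mul_le_mul (hiA0 _).2 (hiB0 _).2 (hiB0 _).1 zero_le_one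
        _ = 1 := by norm_num
  have i2 : IntegrableOn (fun p : ℝ × ℝ => ((A p.1 * B p.2 : ℝ) : ℂ) * f p) (I0 ×ˢ I0)
      volume := by
    refine hiB _ ?_ fun p => ?_
    · exact (Complex.measurable_ofReal.comp ((hAc.measurable.comp measurable_fst).mul
        (hBc.measurable.comp measurable_snd))).mul hf
    · rw [norm_mul, Complex.norm_real, Real.norm_of_nonneg
        (mul_nonneg (hA _).1 (hB _).1)]
      calc A p.1 * B p.2 * ‖f p‖ ≤ 1 * 1 * 1 := by
            apply mul_le_mul _ (hb p) (norm_nonneg _) (by norm_num)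
            exact mul_le_mul (hA _).2 (hB _).2 (hB _).1 zero_le_one
        _ = 1 := by norm_num
  have hgA : IntegrableOn (fun x => |iA x - A x|) I0 volume := by
    refine Measure.integrableOn_of_bounded (M := 1) hvI
      ((hiAm.sub hAc.measurable).abs).aestronglyMeasurable
      (Filter.Eventually.of_forall fun x => ?_)
    rw [Real.norm_of_nonneg (abs_nonneg _)]
    exact abs_le.mpr ⟨by linarith [(hA x).2, (hiA0 x).1], by linarith [(hA x).1, (hiA0 x).2]⟩
  have hgB : IntegrableOn (fun x => |iB x - B x|) I0 volume := by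
    refine Measure.integrableOn_of_bounded (M := 1) hvI
      ((hiBm.sub hBc.measurable).abs).aestronglyMeasurable
      (Filter.Eventually.of_forall fun x => ?_)
    rw [Real.norm_of_nonneg (abs_nonneg _)]
    exact abs_le.mpr ⟨by linarith [(hB x).2, (hiB0 x).1], by linarith [(hB x).1, (hiB0 x).2]⟩
  have h1I : IntegrableOn (fun _ : ℝ => (1 : ℝ)) I0 volume := integrableOn_const hvI
  have hlen : ∫ _ in I0, (1 : ℝ) = 2 * π := by
    rw [setIntegral_const, smul_eq_mul, mul_one, hI0, Measure.real, Real.volume_Ioc,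
      sub_zero, ENNReal.toReal_ofReal (by positivity)]
  have k1 : ∫ p in I0 ×ˢ I0, |iA p.1 - A p.1| * (1 : ℝ) =
      (∫ x in I0, |iA x - A x|) * ∫ _ in I0, (1 : ℝ) := by
    rw [Measure.volume_eq_prod]
    exact setIntegral_prod_mul (fun x => |iA x - A x|) (fun _ => (1 : ℝ)) I0 I0
  have k2 : ∫ p in I0 ×ˢ I0, (1 : ℝ) * |iB p.2 - B p.2| =
      (∫ _ in I0, (1 : ℝ)) * ∫ x in I0, |iB x - B x| := by
    rw [Measure.volume_eq_prod]
    exact setIntegral_prod_mul (fun _ => (1 : ℝ)) (fun x => |iB x - B x|) I0 I0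
  have l1 : IntegrableOn (fun p : ℝ × ℝ => |iA p.1 - A p.1| * (1 : ℝ)) (I0 ×ˢ I0) volume := by
    rw [Measure.volume_eq_prod, IntegrableOn, ← Measure.prod_restrict]
    exact Integrable.mul_prod hgA h1I
  have l2 : IntegrableOn (fun p : ℝ × ℝ => (1 : ℝ) * |iB p.2 - B p.2|) (I0 ×ˢ I0) volume := by
    rw [Measure.volume_eq_prod, IntegrableOn, ← Measure.prod_restrict]
    exact Integrable.mul_prod h1I hgB
  have e6 : ‖(∫ p in I0 ×ˢ I0, ((iA p.1 * iB p.2 : ℝ) : ℂ) * f p) -
      ∫ p in I0 ×ˢ I0, ((A p.1 * B p.2 : ℝ) : ℂ) * f p‖ ≤ 200 * (1 / √M) := by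
    rw [← integral_sub i1 i2]
    have hpt : ∀ p : ℝ × ℝ, ‖((iA p.1 * iB p.2 : ℝ) : ℂ) * f p -
        ((A p.1 * B p.2 : ℝ) : ℂ) * f p‖ ≤
        |iA p.1 - A p.1| * (1 : ℝ) + (1 : ℝ) * |iB p.2 - B p.2| := by
      intro p
      rw [← sub_mul, norm_mul, ← Complex.ofReal_sub, Complex.norm_real, Real.norm_eq_abs]
      have e7 : iA p.1 * iB p.2 - A p.1 * B p.2 =
          (iA p.1 - A p.1) * iB p.2 + A p.1 * (iB p.2 - B p.2) := by ring
      have h8 : |iA p.1 * iB p.2 - A p.1 * B p.2| ≤
          |iA p.1 - A p.1| * 1 + 1 * |iB p.2 - B p.2| := by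
        rw [e7]
        refine le_trans (abs_add_le _ _) ?_
        rw [abs_mul, abs_mul]
        apply add_le_add
        · apply mul_le_mul_of_nonneg_left _ (abs_nonneg _)
          rw [abs_of_nonneg (hiB0 _).1]
          exact (hiB0 _).2
        · exact mul_le_mul_of_nonneg_right (hAbs _) (abs_nonneg _)
      calc _ ≤ |iA p.1 * iB p.2 - A p.1 * B p.2| * 1 :=
            mul_le_mul_of_nonneg_left (hb p) (abs_nonneg _)
        _ ≤ _ := by rw [mul_one]; exact h8
    refine le_trans (norm_integral_le_integral_norm _) ?_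
    calc _ ≤ ∫ p in I0 ×ˢ I0, (|iA p.1 - A p.1| * (1 : ℝ) +
          (1 : ℝ) * |iB p.2 - B p.2|) :=
          integral_mono (i1.sub i2).norm (l1.add l2) hpt
      _ = (∫ x in I0, |iA x - A x|) * (2 * π) + (2 * π) * ∫ x in I0, |iB x - B x| := by
          rw [integral_add l1 l2, k1, k2, hlen]
      _ ≤ (12 / √M) * (2 * π) + (2 * π) * (12 / √M) := by
          apply add_le_add
          · exact mul_le_mul_of_nonneg_right hAi (by positivity)
          · exact mul_le_mul_of_nonneg_left hBi (by positivity)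
      _ = (48 * π) * (1 / √M) := by ring
      _ ≤ 200 * (1 / √M) := by
          apply mul_le_mul_of_nonneg_right _ (by positivity)
          have := Real.pi_lt_d2
          linarith
  rw [e4]
  have e9 : (∫ p in I0 ×ˢ I0, ((iA p.1 * iB p.2 : ℝ) : ℂ) * f p) -
      ((((s' - s) * (t' - t) / (2 * π) ^ 2 : ℝ)) : ℂ) * ∫ p in I0 ×ˢ I0, f p =
      ((∫ p in I0 ×ˢ I0, ((iA p.1 * iB p.2 : ℝ) : ℂ) * f p) -
      ∫ p in I0 ×ˢ I0, ((A p.1 * B p.2 : ℝ) : ℂ) * f p) +
      ((∫ p in I0 ×ˢ I0, ((A p.1 * B p.2 : ℝ) : ℂ) * f p) -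
      ((((s' - s) * (t' - t) / (2 * π) ^ 2 : ℝ)) : ℂ) * ∫ p in I0 ×ˢ I0, f p) := by ring
  rw [e9]
  refine le_trans (norm_add_le _ _) ?_
  have hp1 : 0 ≤ ε * (M : ℝ) ^ 2 := mul_nonneg hε0 (sq_nonneg _)
  have hp2 : 0 ≤ 1 / √(M : ℝ) := by positivity
  linarith

end Pool.Agent.SM
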