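import Pool.Agent.Lib.SM.MChar
import Pool.Agent.Lib.SM.Rect

/-!
# The standard map: boxes of several times, one block (helper90)
-/

set_option autoImplicit false

open Real MeasureTheory Set

namespace Pool.Agent.SM

/-- The indicator of `(0, u]` modulo `2 π`. -/
noncomputable def psi (u x : ℝ) : ℝ := if toIocMod two_pi_pos 0 x ≤ u then 1 else 0

theorem measurable_mod' : Measurable fun x : ℝ => toIocMod two_pi_pos 0 x := by
  have e : (fun x : ℝ => toIocMod two_pi_pos 0 x) =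
      fun x => x + (⌊(0 + 2 * π - x) / (2 * π)⌋ : ℝ) * (2 * π) := by
    funext x
    rw [toIocMod, toIocDiv_eq_neg_floor, zsmul_eq_mul]
    push_cast
    ring
  rw [e]
  have h1 : Measurable fun x : ℝ => ⌊(0 + 2 * π - x) / (2 * π)⌋ :=
    Int.measurable_floor.comp (by fun_prop)
  have h2 : Measurable fun x : ℝ => ((⌊(0 + 2 * π - x) / (2 * π)⌋ : ℤ) : ℝ) :=
    (measurable_from_top (f := fun n : ℤ => (n : ℝ))).comp h1
  exact measurable_id.add (h2.mul_const _)

theorem measurable_psi (u : ℝ) : Measurable (psi u) := by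
  unfold psi
  exact Measurable.ite (measurable_mod' measurableSet_Iic) measurable_const measurable_const

theorem psi_mem (u x : ℝ) : 0 ≤ psi u x ∧ psi u x ≤ 1 := by
  unfold psi
  split_ifs <;> norm_num

theorem psi_per (u x : ℝ) : psi u (x + 2 * π) = psi u x := by
  unfold psi
  rw [toIocMod_add_right]

theorem psi_eq {u x : ℝ} (hx : x ∈ Ioc 0 (2 * π)) :
    psi u x = (Ioc 0 u).indicator (fun _ => (1 : ℝ)) x := by
  classical
  unfold psi
  have h : toIocMod two_pi_pos 0 x = x := (toIocMod_eq_self two_pi_pos).2 (by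
    rw [zero_add]
    exact hx)
  rw [h, indicator_apply]
  exact if_congr ⟨fun h => ⟨hx.1, h⟩, fun h => h.2⟩ rfl rfl

/-- Products of numbers between zero and one. -/
theorem prod_diff {ι : Type*} (s : Finset ι) (x y : ι → ℝ) (hx : ∀ i, 0 ≤ x i ∧ x i ≤ 1)
    (hy : ∀ i, 0 ≤ y i ∧ y i ≤ 1) :
    |∏ i ∈ s, x i - ∏ i ∈ s, y i| ≤ ∑ i ∈ s, |x i - y i| := by
  classical
  induction s using Finset.induction_on with
  | empty => simp
  | insert a s ha ih =>
    rw [Finset.prod_insert ha, Finset.prod_insert ha, Finset.sum_insert ha]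
    have e : x a * ∏ i ∈ s, x i - y a * ∏ i ∈ s, y i =
        (x a - y a) * ∏ i ∈ s, x i + y a * (∏ i ∈ s, x i - ∏ i ∈ s, y i) := by ring
    rw [e]
    refine (abs_add_le _ _).trans ?_
    rw [abs_mul, abs_mul, abs_of_nonneg (hy a).1,
      abs_of_nonneg (Finset.prod_nonneg fun i _ => (hx i).1)]
    have h1 : |x a - y a| * ∏ i ∈ s, x i ≤ |x a - y a| :=
      mul_le_of_le_one_right (abs_nonneg _) (Finset.prod_le_one (fun i _ => (hx i).1)
        fun i _ => (hx i).2)
    have h2 : y a * |∏ i ∈ s, x i - ∏ i ∈ s, y i| ≤ |∏ i ∈ s, x i - ∏ i ∈ s, y i| :=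
      mul_le_of_le_one_left (abs_nonneg _) (hy a).2
    linarith

/-- A function of one coordinate. -/
theorem int_coord (l : ℝ) (g : ℝ → ℝ) (hg : Measurable g) (hb : ∀ x, 0 ≤ g x ∧ g x ≤ 1)
    (hper : ∀ x, g (x + 2 * π) = g x) (k : ℕ) :
    ∫ p in Qd, g (X l p.2 p.1 k) = 2 * π * ∫ x in Ioc 0 (2 * π), g x := by
  have hprod : ∫ p in Qd, g p.1 = 2 * π * ∫ x in Ioc 0 (2 * π), g x := by
    unfold Qd
    rw [Measure.volume_eq_prod]
    have := setIntegral_prod_mul (μ := (volume : Measure ℝ)) (ν := (volume : Measure ℝ))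
      (fun x => g x) (fun _ : ℝ => (1 : ℝ)) (Ioc 0 (2 * π)) (Ioc 0 (2 * π))
    simp only [mul_one] at this
    rw [this, mul_comm]
    congr 1
    rw [setIntegral_const, smul_eq_mul, mul_one]
    exact vol_Ioc
  have hprod' : ∫ p in Qd, g p.2 = 2 * π * ∫ x in Ioc 0 (2 * π), g x := by
    unfold Qd
    rw [Measure.volume_eq_prod]
    have := setIntegral_prod_mul (μ := (volume : Measure ℝ)) (ν := (volume : Measure ℝ))
      (fun _ : ℝ => (1 : ℝ)) (fun x => g x) (Ioc 0 (2 * π)) (Ioc 0 (2 * π))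
    simp only [one_mul] at this
    rw [this]
    congr 1
    rw [setIntegral_const, smul_eq_mul, mul_one]
    exact vol_Ioc
  cases k with
  | zero => exact hprod'
  | succ i =>
    have h1 : ((∫ p in Qd, g (X l p.2 p.1 (i + 1)) : ℝ) : ℂ) =
        ((∫ p in Qd, g p.1 : ℝ) : ℂ) := by
      rw [← integral_complex_ofReal, ← integral_complex_ofReal]
      refine int_orbit l (fun x => (g x : ℂ)) (Complex.measurable_ofReal.comp hg) ?_ ?_ i
      · intro x
        rw [Complex.norm_real, Real.norm_eq_abs, abs_of_nonneg (hb x).1]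
        exact (hb x).2
      · intro x
        rw [hper]
    rw [← hprod]
    exact_mod_cast h1

/-- Twisted sums are additive. -/
theorem A_sum {ι : Type*} (s : Finset ι) (l : ℝ) (ζ : ℂ) (a : ι → ℂ) (f : ι → ℝ × ℝ → ℂ) (N : ℕ)
    (p : ℝ × ℝ) : A l ζ (fun p => ∑ i ∈ s, a i * f i p) N p = ∑ i ∈ s, a i * A l ζ (f i) N p := by
  unfold A
  simp only [Finset.mul_sum]
  rw [Finset.sum_comm]
  refine Finset.sum_congr rfl fun i _ => Finset.sum_congr rfl fun j _ => ?_
  ring

theorem A_add' (l : ℝ) (ζ : ℂ) (f g : ℝ × ℝ → ℂ) (N : ℕ) (p : ℝ × ℝ) :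
    A l ζ (fun p => f p + g p) N p = A l ζ f N p + A l ζ g N p := by
  unfold A
  rw [← Finset.sum_add_distrib]
  refine Finset.sum_congr rfl fun j _ => ?_
  ring

/-- The trivial bound. -/
theorem int_A_le {l : ℝ} {ζ : ℂ} (hζ : ‖ζ‖ = 1) {f : ℝ × ℝ → ℂ} (hm : Measurable f) (B : ℝ)
    (hb : ∀ p, ‖f p‖ ≤ B) (h : Per f) (N : ℕ) :
    ∫ p in Qd, ‖A l ζ f N p‖ ≤ N * ∫ p in Qd, ‖f p‖ := by
  have hi : ∀ j, IntegrableOn (fun p => ‖f ((T l)^[j] p)‖) Qd := fun j =>
    (intOn_Qd _ (hm.comp (measurable_Ti l j)).aestronglyMeasurable B fun p => hb _).norm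
  calc ∫ p in Qd, ‖A l ζ f N p‖ ≤ ∫ p in Qd, ∑ j ∈ Finset.range N, ‖f ((T l)^[j] p)‖ := by
        refine integral_mono (intOn_Qd _ (measurable_A hm N).aestronglyMeasurable (N * B)
          fun p => norm_A_le hζ hb N p).norm (integrable_finsetSum _ fun j _ => hi j) fun p => ?_
        show ‖A l ζ f N p‖ ≤ _
        unfold A
        refine (norm_sum_le _ _).trans (le_of_eq ?_)
        refine Finset.sum_congr rfl fun j _ => ?_
        rw [norm_mul, norm_pow, hζ, one_pow, one_mul]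
    _ = ∑ j ∈ Finset.range N, ∫ p in Qd, ‖f ((T l)^[j] p)‖ := integral_finsetSum _ fun j _ => hi j
    _ = ∑ _j ∈ Finset.range N, ∫ p in Qd, ‖f p‖ :=
        Finset.sum_congr rfl fun j _ => int_norm_Ti l hm B hb h j
    _ = N * ∫ p in Qd, ‖f p‖ := by rw [Finset.sum_const, Finset.card_range, nsmul_eq_mul]

/-- One block, a box of several times. -/
theorem box_l1 (d : ℕ) {t : ℝ} (ht : 12 ≤ t) (M : ℕ) (hM : 1 ≤ M) (N : ℕ) (hN : 1 ≤ N)
    (hNt : (N : ℝ) + d ≤ t) {ζ : ℂ} (hζ : ‖ζ‖ = 1) (u : Fin d → ℝ)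
    (hu : ∀ i, 0 ≤ u i ∧ u i ≤ 2 * π) :
    ∫ p in Qd, ‖(1 / (N : ℂ)) * A (t ^ 7) ζ (fun p =>
      ((∏ i : Fin d, psi (u i) (X (t ^ 7) p.2 p.1 i) : ℝ) : ℂ) -
      ((∏ i, (u i / (2 * π)) : ℝ) : ℂ)) N p‖ ≤
      (2 * π) ^ 2 * (12 * d / √M + (2 * M + 1) ^ d * √(3 / N + (10 * M + 6) / t)) := by
  classical
  have hπ := Real.two_pi_pos
  have hN0 : (0 : ℝ) < N := by exact_mod_cast hN
  have hM0 : (0 : ℝ) < M := by exact_mod_cast hM
  have ht0 : 0 < t := by linarith
  have hrect := fun i => rect_one M hM 0 (u i) le_rfl (hu i).1 (hu i).2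
  choose a B ha haM hBc hB hBe hBi using hrect
  set l := t ^ 7 with hl
  set κ : ℝ := ∏ i, (u i / (2 * π)) with hκ
  set Φ : ℝ × ℝ → ℝ := fun p => ∏ i : Fin d, psi (u i) (X l p.2 p.1 i) with hΦ
  set Ψ : ℝ × ℝ → ℝ := fun p => ∏ i : Fin d, B i (X l p.2 p.1 i) with hΨ
  have hBper : ∀ i x, B i (x + 2 * π) = B i x := by
    intro i x
    have : ((B i (x + 2 * π) : ℝ) : ℂ) = ((B i x : ℝ) : ℂ) := by
      rw [hBe, hBe]
      refine Finset.sum_congr rfl fun j _ => ?_
      congr 1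
      have e1 : Complex.I * ((((j : ℤ) - (M : ℤ) : ℤ)) : ℂ) * ((x + 2 * π : ℝ) : ℂ) =
          Complex.I * ((((j : ℤ) - (M : ℤ) : ℤ)) : ℂ) * (x : ℂ) +
          (((j : ℤ) - (M : ℤ) : ℤ) : ℂ) * (2 * π * Complex.I) := by
        push_cast
        ring
      rw [e1, Complex.exp_add, Complex.exp_int_mul_two_pi_mul_I, mul_one]
    exact_mod_cast this
  have hBperZ : ∀ i x (n : ℤ), B i (x + n * (2 * π)) = B i x := by
    intro i x n
    have h : Function.Periodic (B i) (2 * π) := hBper i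
    exact h.int_mul n x
  have hψperZ : ∀ u x (n : ℤ), psi u (x + n * (2 * π)) = psi u x := by
    intro u x n
    have h : Function.Periodic (psi u) (2 * π) := psi_per u
    exact h.int_mul n x
  have hX1 : ∀ (x y : ℝ) (k : ℕ), ∃ n : ℤ, X l y (x + 2 * π) k = X l y x k + n * (2 * π) := by
    intro x y k
    refine ⟨k, ?_⟩
    rw [(X_add k).1]
    push_cast
    ring
  have hX2 : ∀ (x y : ℝ) (k : ℕ), ∃ n : ℤ, X l (y + 2 * π) x k = X l y x k + n * (2 * π) :=
    fun x y k => (X_add_left l y x k).1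
  have hperg : ∀ g : Fin d → ℝ → ℝ, (∀ i x (n : ℤ), g i (x + n * (2 * π)) = g i x) →
      (∀ x y, ∏ i : Fin d, g i (X l y (x + 2 * π) i) = ∏ i : Fin d, g i (X l y x i)) ∧
      ∀ x y, ∏ i : Fin d, g i (X l (y + 2 * π) x i) = ∏ i : Fin d, g i (X l y x i) := by
    intro g hg
    constructor
    · intro x y
      refine Finset.prod_congr rfl fun i _ => ?_
      obtain ⟨n, hn⟩ := hX1 x y i
      rw [hn, hg]
    · intro x y
      refine Finset.prod_congr rfl fun i _ => ?_
      obtain ⟨n, hn⟩ := hX2 x y i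
      rw [hn, hg]
  have hΦper := hperg (fun i => psi (u i)) (fun i => hψperZ (u i))
  have hΨper := hperg B hBperZ
  have hΦm : Measurable Φ := by
    rw [hΦ]
    exact Finset.measurable_fun_prod _ fun i _ => (measurable_psi (u i)).comp
      (continuous_X' l i).measurable
  have hΨm : Measurable Ψ := by
    rw [hΨ]
    exact Finset.measurable_fun_prod _ fun i _ => (hBc i).measurable.comp
      (continuous_X' l i).measurable
  have hΦ01 : ∀ p, 0 ≤ Φ p ∧ Φ p ≤ 1 := fun p =>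
    ⟨Finset.prod_nonneg fun i _ => (psi_mem _ _).1,
      Finset.prod_le_one (fun i _ => (psi_mem _ _).1) fun i _ => (psi_mem _ _).2⟩
  have hΨ01 : ∀ p, 0 ≤ Ψ p ∧ Ψ p ≤ 1 := fun p =>
    ⟨Finset.prod_nonneg fun i _ => (hB i _).1,
      Finset.prod_le_one (fun i _ => (hB i _).1) fun i _ => (hB i _).2⟩
  -- first difference
  have hD : ∫ p in Qd, ‖((Φ p - Ψ p : ℝ) : ℂ)‖ ≤ (2 * π) ^ 2 * (12 * d / √M) := by
    set g : Fin d → ℝ → ℝ := fun i x => |psi (u i) x - B i x| with hg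
    have hgm : ∀ i, Measurable (g i) := fun i =>
      ((measurable_psi (u i)).sub (hBc i).measurable).abs
    have hg01 : ∀ i x, 0 ≤ g i x ∧ g i x ≤ 1 := by
      intro i x
      refine ⟨abs_nonneg _, ?_⟩
      rw [hg]
      simp only
      rw [abs_le]
      have h1 := psi_mem (u i) x
      have h2 := hB i x
      constructor <;> linarith [h1.1, h1.2, h2.1, h2.2]
    have hgi : ∀ i, IntegrableOn (fun p : ℝ × ℝ => g i (X l p.2 p.1 i)) Qd := by
      intro i
      refine intOn_Qd _ ((hgm i).comp (continuous_X' l i).measurable).aestronglyMeasurable 1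
        fun p => ?_
      rw [Real.norm_eq_abs, abs_of_nonneg (hg01 i _).1]
      exact (hg01 i _).2
    calc ∫ p in Qd, ‖((Φ p - Ψ p : ℝ) : ℂ)‖ ≤ ∫ p in Qd, ∑ i : Fin d, g i (X l p.2 p.1 i) := by
          refine integral_mono (intOn_Qd _ (Complex.measurable_ofReal.comp
            (hΦm.sub hΨm)).aestronglyMeasurable 1 fun p => ?_).norm
            (integrable_finsetSum _ fun i _ => hgi i) fun p => ?_
          · show ‖((Φ p - Ψ p : ℝ) : ℂ)‖ ≤ 1
            rw [Complex.norm_real, Real.norm_eq_abs, abs_le]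
            constructor <;> linarith [(hΦ01 p).1, (hΦ01 p).2, (hΨ01 p).1, (hΨ01 p).2]
          · show ‖((Φ p - Ψ p : ℝ) : ℂ)‖ ≤ _
            rw [Complex.norm_real, Real.norm_eq_abs]
            exact prod_diff Finset.univ (fun i : Fin d => psi (u i) (X l p.2 p.1 i))
              (fun i : Fin d => B i (X l p.2 p.1 i)) (fun i => psi_mem _ _) (fun i => hB i _)
      _ = ∑ i : Fin d, ∫ p in Qd, g i (X l p.2 p.1 i) := integral_finsetSum _ fun i _ => hgi i
      _ ≤ ∑ _i : Fin d, 2 * π * (12 / √M) := by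
          refine Finset.sum_le_sum fun i _ => ?_
          rw [int_coord l (g i) (hgm i) (hg01 i) (fun x => by
            rw [hg]
            simp only
            rw [psi_per, hBper]) i]
          apply mul_le_mul_of_nonneg_left _ hπ.le
          refine le_trans (le_of_eq ?_) (hBi i)
          refine setIntegral_congr_fun measurableSet_Ioc fun x hx => ?_
          rw [hg]
          simp only
          rw [psi_eq hx]
      _ = d * (2 * π * (12 / √M)) := by
          rw [Finset.sum_const, Finset.card_univ, Fintype.card_fin, nsmul_eq_mul]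
      _ ≤ (2 * π) ^ 2 * (12 * d / √M) := by
          have h1 : 1 ≤ 2 * π := by linarith [Real.pi_gt_three]
          have h2 : d * (2 * π * (12 / √M)) = 2 * π * (12 * d / √M) := by ring
          rw [h2]
          apply mul_le_mul_of_nonneg_right _ (by positivity)
          nlinarith
  -- the trigonometric polynomial
  set S : Finset (Fin d → ℕ) := Fintype.piFinset fun _ => Finset.range (2 * M + 1) with hS
  set J0 : Fin d → ℕ := fun _ => M with hJ0
  have hJ0S : J0 ∈ S := by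
    rw [hS, Fintype.mem_piFinset]
    intro i
    rw [Finset.mem_range]
    simp only [hJ0]
    omega
  have hΨe : ∀ p, ((Ψ p : ℝ) : ℂ) = ∑ J ∈ S, (∏ i, a i (J i)) *
      U (fun i => ((J i : ℤ) - (M : ℤ))) l 0 p := by
    intro p
    rw [hΨ]
    simp only
    rw [Complex.ofReal_prod]
    simp only [hBe]
    rw [Finset.prod_univ_sum]
    refine Finset.sum_congr rfl fun J _ => ?_
    rw [Finset.prod_mul_distrib]
    congr 1
    unfold U
    rw [← Complex.exp_sum]
    congr 1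
    push_cast
    rw [Finset.mul_sum]
    refine Finset.sum_congr rfl fun i _ => ?_
    rw [Nat.zero_add]
    ring
  have hκe : ((κ : ℝ) : ℂ) = (∏ i, a i (J0 i)) := by
    rw [hκ, Complex.ofReal_prod]
    refine Finset.prod_congr rfl fun i _ => ?_
    simp only [hJ0]
    rw [haM, sub_zero]
  have hU0 : ∀ p, U (fun i : Fin d => ((J0 i : ℤ) - (M : ℤ))) l 0 p = 1 := by
    intro p
    unfold U
    simp [hJ0]
  have hΨκ : ∀ p, ((Ψ p : ℝ) : ℂ) - ((κ : ℝ) : ℂ) = ∑ J ∈ S.erase J0, (∏ i, a i (J i)) *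
      U (fun i => ((J i : ℤ) - (M : ℤ))) l 0 p := by
    intro p
    rw [hΨe, hκe, ← Finset.add_sum_erase _ _ hJ0S, hU0, mul_one, add_sub_cancel_left]
  set q := √(3 / N + (10 * M + 6) / t) with hq
  have hq0 : 0 ≤ q := Real.sqrt_nonneg _
  have hTrig : ∫ p in Qd, ‖A l ζ (fun p => ∑ J ∈ S.erase J0, (∏ i, a i (J i)) *
      U (fun i => ((J i : ℤ) - (M : ℤ))) l 0 p) N p‖ ≤
      (2 * M + 1) ^ d * ((2 * π) ^ 2 * N * q) := by
    have hJi : ∀ J : Fin d → ℕ, IntegrableOn (fun p =>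
        ‖A l ζ (U (fun i => ((J i : ℤ) - (M : ℤ))) l 0) N p‖) Qd := fun J =>
      (intOn_Qd _ (measurable_A (continuous_U _ l 0).measurable N).aestronglyMeasurable (N * 1)
        fun p => norm_A_le hζ (fun p => (norm_U _ l 0 p).le) N p).norm
    have hco : ∀ J : Fin d → ℕ, ‖∏ i, a i (J i)‖ ≤ 1 := by
      intro J
      rw [norm_prod]
      exact Finset.prod_le_one (fun i _ => norm_nonneg _) fun i _ => ha i _
    calc _ ≤ ∫ p in Qd, ∑ J ∈ S.erase J0,
          ‖A l ζ (U (fun i => ((J i : ℤ) - (M : ℤ))) l 0) N p‖ := by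
          refine integral_mono_of_nonneg (Filter.Eventually.of_forall fun p => norm_nonneg _)
            (integrable_finsetSum _ fun J _ => hJi J) (Filter.Eventually.of_forall fun p => ?_)
          show ‖A l ζ (fun p => ∑ J ∈ S.erase J0, (∏ i, a i (J i)) *
            U (fun i => ((J i : ℤ) - (M : ℤ))) l 0 p) N p‖ ≤ _
          rw [A_sum]
          refine (norm_sum_le _ _).trans (Finset.sum_le_sum fun J _ => ?_)
          rw [norm_mul]
          exact mul_le_of_le_one_left (norm_nonneg _) (hco J)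
      _ = ∑ J ∈ S.erase J0, ∫ p in Qd, ‖A l ζ (U (fun i => ((J i : ℤ) - (M : ℤ))) l 0) N p‖ :=
          integral_finsetSum _ fun J _ => hJi J
      _ ≤ ∑ _J ∈ S.erase J0, (2 * π) ^ 2 * N * q := by
          refine Finset.sum_le_sum fun J hJ => ?_
          obtain ⟨hJ1, hJ2⟩ := Finset.mem_erase.1 hJ
          rw [hS, Fintype.mem_piFinset] at hJ2
          refine block_gen _ ?_ ht (R := (M : ℝ)) ?_ hζ N hN hNt
          · intro h0
            apply hJ1
            funext i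
            have := congrFun h0 i
            simp only [Pi.zero_apply] at this
            simp only [hJ0]
            omega
          · intro i
            have := Finset.mem_range.1 (hJ2 i)
            rw [← Int.cast_abs]
            have h2 : |((J i : ℤ) - (M : ℤ))| ≤ (M : ℤ) := by
              rw [abs_le]
              constructor <;> omega
            exact_mod_cast h2
      _ = ((S.erase J0).card : ℝ) * ((2 * π) ^ 2 * N * q) := by
          rw [Finset.sum_const, nsmul_eq_mul]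
      _ ≤ (2 * M + 1) ^ d * ((2 * π) ^ 2 * N * q) := by
          apply mul_le_mul_of_nonneg_right _ (by positivity)
          have h1 : (S.erase J0).card ≤ S.card := Finset.card_erase_le
          have h2 : S.card = (2 * M + 1) ^ d := by
            rw [hS, Fintype.card_piFinset]
            simp
          rw [h2] at h1
          exact_mod_cast h1
  -- conclusion
  have hsplit : ∀ p, A l ζ (fun p => ((Φ p : ℝ) : ℂ) - ((κ : ℝ) : ℂ)) N p =
      A l ζ (fun p => ((Φ p - Ψ p : ℝ) : ℂ)) N p +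
      A l ζ (fun p => ∑ J ∈ S.erase J0, (∏ i, a i (J i)) *
      U (fun i => ((J i : ℤ) - (M : ℤ))) l 0 p) N p := by
    intro p
    rw [← A_add']
    congr 1
    funext p
    rw [← hΨκ]
    push_cast
    ring
  have hDm : Measurable fun p => ((Φ p - Ψ p : ℝ) : ℂ) :=
    Complex.measurable_ofReal.comp (hΦm.sub hΨm)
  have hDb : ∀ p, ‖((Φ p - Ψ p : ℝ) : ℂ)‖ ≤ 1 := by
    intro p
    rw [Complex.norm_real, Real.norm_eq_abs, abs_le]
    constructor <;> linarith [(hΦ01 p).1, (hΦ01 p).2, (hΨ01 p).1, (hΨ01 p).2]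
  have hDper : Per fun p => ((Φ p - Ψ p : ℝ) : ℂ) := by
    constructor
    · intro x y
      show ((Φ (x + 2 * π, y) - Ψ (x + 2 * π, y) : ℝ) : ℂ) = ((Φ (x, y) - Ψ (x, y) : ℝ) : ℂ)
      rw [show Φ (x + 2 * π, y) = Φ (x, y) from hΦper.1 x y,
        show Ψ (x + 2 * π, y) = Ψ (x, y) from hΨper.1 x y]
    · intro x y
      show ((Φ (x, y + 2 * π) - Ψ (x, y + 2 * π) : ℝ) : ℂ) = ((Φ (x, y) - Ψ (x, y) : ℝ) : ℂ)
      rw [show Φ (x, y + 2 * π) = Φ (x, y) from hΦper.2 x y,
        show Ψ (x, y + 2 * π) = Ψ (x, y) from hΨper.2 x y]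
  have h1 := int_A_le (l := l) hζ hDm 1 hDb hDper N
  have hUm : Measurable fun p => ∑ J ∈ S.erase J0, (∏ i, a i (J i)) *
      U (fun i => ((J i : ℤ) - (M : ℤ))) l 0 p :=
    Finset.measurable_fun_sum _ fun J _ => (continuous_U _ l 0).measurable.const_mul _
  have hUb : ∀ p, ‖∑ J ∈ S.erase J0, (∏ i, a i (J i)) *
      U (fun i => ((J i : ℤ) - (M : ℤ))) l 0 p‖ ≤ 2 := by
    intro p
    rw [← hΨκ]
    have hκ0 : 0 ≤ κ := Finset.prod_nonneg fun i _ => div_nonneg (hu i).1 hπ.le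
    have hκ1 : κ ≤ 1 := Finset.prod_le_one (fun i _ => div_nonneg (hu i).1 hπ.le)
      fun i _ => (div_le_one hπ).2 (hu i).2
    rw [← Complex.ofReal_sub, Complex.norm_real, Real.norm_eq_abs, abs_le]
    constructor <;> linarith [(hΨ01 p).1, (hΨ01 p).2]
  have i1 : IntegrableOn (fun p => ‖A l ζ (fun p => ((Φ p - Ψ p : ℝ) : ℂ)) N p‖) Qd :=
    (intOn_Qd _ (measurable_A hDm N).aestronglyMeasurable (N * 1)
      fun p => norm_A_le hζ hDb N p).norm
  have i2 : IntegrableOn (fun p => ‖A l ζ (fun p => ∑ J ∈ S.erase J0, (∏ i, a i (J i)) *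
      U (fun i => ((J i : ℤ) - (M : ℤ))) l 0 p) N p‖) Qd :=
    (intOn_Qd _ (measurable_A hUm N).aestronglyMeasurable (N * 2)
      fun p => norm_A_le hζ hUb N p).norm
  have h2 : ∫ p in Qd, ‖A l ζ (fun p => ((Φ p : ℝ) : ℂ) - ((κ : ℝ) : ℂ)) N p‖ ≤
      (∫ p in Qd, ‖A l ζ (fun p => ((Φ p - Ψ p : ℝ) : ℂ)) N p‖) +
      ∫ p in Qd, ‖A l ζ (fun p => ∑ J ∈ S.erase J0, (∏ i, a i (J i)) *
      U (fun i => ((J i : ℤ) - (M : ℤ))) l 0 p) N p‖ := by
    rw [← integral_add i1 i2]
    refine integral_mono_of_nonneg (Filter.Eventually.of_forall fun p => norm_nonneg _)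
      (i1.add i2) (Filter.Eventually.of_forall fun p => ?_)
    show ‖A l ζ (fun p => ((Φ p : ℝ) : ℂ) - ((κ : ℝ) : ℂ)) N p‖ ≤ _
    rw [hsplit]
    exact norm_add_le _ _
  have h3 : ∫ p in Qd, ‖(1 / (N : ℂ)) * A l ζ (fun p => ((Φ p : ℝ) : ℂ) - ((κ : ℝ) : ℂ)) N p‖ =
      1 / N * ∫ p in Qd, ‖A l ζ (fun p => ((Φ p : ℝ) : ℂ) - ((κ : ℝ) : ℂ)) N p‖ := by
    rw [← integral_const_mul]
    congr 1
    funext p
    rw [norm_mul, norm_div, norm_one, Complex.norm_natCast]
  show ∫ p in Qd, ‖(1 / (N : ℂ)) * A l ζ (fun p => ((Φ p : ℝ) : ℂ) - ((κ : ℝ) : ℂ)) N p‖ ≤ _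
  rw [h3, one_div, inv_mul_le_iff₀ hN0]
  have h4 := mul_le_mul_of_nonneg_left hD hN0.le
  calc _ ≤ N * ((2 * π) ^ 2 * (12 * d / √M)) + (2 * M + 1) ^ d * ((2 * π) ^ 2 * N * q) := by
        linarith
    _ = N * ((2 * π) ^ 2 * (12 * d / √M + (2 * M + 1) ^ d * q)) := by ring

end Pool.Agent.SM
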