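import Pool.Agent.Lib.SM.Orb

/-!
# The standard map: characters along orbits (helper90)
-/

set_option autoImplicit false

open Real MeasureTheory Set

namespace Pool.Agent.SM

/-- The character `exp (i (a x + b y))` composed with the `j`-th iterate. -/
noncomputable def u (a b : ℤ) (l : ℝ) (j : ℕ) (p : ℝ × ℝ) : ℂ :=
  Complex.exp (Complex.I * ((a * X l p.2 p.1 (j + 1) + b * X l p.2 p.1 j : ℝ) : ℂ))

theorem norm_u (a b : ℤ) (l : ℝ) (j : ℕ) (p : ℝ × ℝ) : ‖u a b l j p‖ = 1 := by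
  unfold u
  rw [mul_comm]
  exact Complex.norm_exp_ofReal_mul_I _

theorem continuous_u (a b : ℤ) (l : ℝ) (j : ℕ) : Continuous (u a b l j) := by
  unfold u
  have h1 : Continuous fun p : ℝ × ℝ => X l p.2 p.1 (j + 1) := by
    have := (continuous_X (l := l) j).2.comp continuous_swap
    exact this
  have h2 : Continuous fun p : ℝ × ℝ => X l p.2 p.1 j := by
    have := (continuous_X (l := l) j).1.comp continuous_swap
    exact this
  fun_prop

theorem exp_add_int (x y : ℝ) (n : ℤ) (h : y = x + n * (2 * π)) :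
    Complex.exp (Complex.I * (y : ℂ)) = Complex.exp (Complex.I * (x : ℂ)) := by
  rw [h]
  push_cast
  rw [mul_add, Complex.exp_add]
  have : Complex.exp (Complex.I * (n * (2 * π))) = 1 := by
    rw [show Complex.I * (n * (2 * π)) = n * (2 * π * Complex.I) by ring]
    exact Complex.exp_int_mul_two_pi_mul_I n
  rw [this, mul_one]

theorem u_add_fst (a b : ℤ) (l : ℝ) (j : ℕ) (x y : ℝ) :
    u a b l j (x + 2 * π, y) = u a b l j (x, y) := by
  unfold u
  refine exp_add_int _ _ (a * (j + 1) + b * j) ?_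
  show a * X l y (x + 2 * π) (j + 1) + b * X l y (x + 2 * π) j = _
  rw [(X_add j).1, (X_add j).2]
  push_cast
  ring

theorem u_add_snd (a b : ℤ) (l : ℝ) (j : ℕ) (x y : ℝ) :
    u a b l j (x, y + 2 * π) = u a b l j (x, y) := by
  obtain ⟨⟨n, hn⟩, ⟨n', hn'⟩⟩ := X_add_left l y x j
  unfold u
  refine exp_add_int _ _ (a * n' + b * n) ?_
  show a * X l (y + 2 * π) x (j + 1) + b * X l (y + 2 * π) x j = _
  rw [hn, hn']
  push_cast
  ring

theorem u_T (a b : ℤ) (l : ℝ) (j : ℕ) (p : ℝ × ℝ) :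
    u a b l j (2 * p.1 - p.2 + l * sin p.1, p.1) = u a b l (j + 1) p := by
  unfold u
  simp only
  rw [(X_shift l p.2 p.1 j).1, (X_shift l p.2 p.1 j).2]

/-- The correlations are invariant. -/
theorem corr_inv (a b : ℤ) (l : ℝ) (n j : ℕ) :
    ∫ p in Qd, u a b l (n + j) p * (starRingEnd ℂ) (u a b l j p) =
      ∫ p in Qd, u a b l n p * (starRingEnd ℂ) (u a b l 0 p) := by
  induction j with
  | zero => rfl
  | succ j ih =>
    rw [← ih]
    have h := inv_T l (fun p => u a b l (n + j) p * (starRingEnd ℂ) (u a b l j p))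
      (((continuous_u a b l (n + j)).mul
        (Complex.continuous_conj.comp (continuous_u a b l j))).measurable)
      ⟨1, fun p => by
        rw [norm_mul, norm_u, RCLike.norm_conj, norm_u, one_mul]⟩
      (fun x y => by
        show u a b l (n + j) (x + 2 * π, y) * (starRingEnd ℂ) (u a b l j (x + 2 * π, y)) = _
        rw [u_add_fst, u_add_fst])
      (fun x y => by
        show u a b l (n + j) (x, y + 2 * π) * (starRingEnd ℂ) (u a b l j (x, y + 2 * π)) = _
        rw [u_add_snd, u_add_snd])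
    rw [← Qd] at h
    rw [← h]
    congr 1
    funext p
    show _ = u a b l (n + j) (2 * p.1 - p.2 + l * sin p.1, p.1) *
      (starRingEnd ℂ) (u a b l j (2 * p.1 - p.2 + l * sin p.1, p.1))
    rw [u_T, u_T]
    rfl

/-- Numbers for the choice `l = t ^ 7`, `K = t ^ 4`, `δ = t ^ (-2)`. -/
theorem basic_t {A B c d : ℤ} {t R : ℝ} (hA : A ≠ 0) (ht : 4 * (3 + R) ≤ t) (hAR : |(A : ℝ)| ≤ R)
    (hBR : |(B : ℝ)| ≤ R) (hcR : |(c : ℝ)| ≤ R) (m : ℕ) (hm : (m : ℝ) + 1 ≤ t) :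
    ‖∫ p in Qd, Complex.exp (Complex.I * (ph A B c (t ^ 7) p.2 p.1 m : ℝ)) *
      Complex.exp (Complex.I * ((-(d * p.2) : ℝ) : ℂ))‖ ≤
      (2 * π) ^ 2 * ((5 * R + 6) / t) := by
  have hR : 0 ≤ R := (abs_nonneg _).trans hAR
  have ht1 : 12 ≤ t := by linarith
  have ht0 : 0 < t := by linarith
  have hB0 := abs_nonneg (B : ℝ)
  have h1 : 1 ≤ t ^ 6 := one_le_pow₀ (by linarith)
  have h7 : t ≤ t ^ 7 := by
    calc t = t * 1 := (mul_one t).symm
      _ ≤ t * t ^ 6 := mul_le_mul_of_nonneg_left h1 ht0.le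
      _ = t ^ 7 := by ring
  have hlt : 1 ≤ t ^ 7 := one_le_pow₀ (by linarith)
  have h4 : 4 * (t ^ 7 + 2 + |(B : ℝ)|) ≤ (t ^ 4) ^ 2 := by
    have e : (t ^ 4) ^ 2 = t * t ^ 7 := by ring
    rw [e]
    have e2 : 4 * (3 + R) * t ^ 7 ≤ t * t ^ 7 :=
      mul_le_mul_of_nonneg_right ht (by positivity)
    have e3 : |(B : ℝ)| ≤ R * t ^ 7 := hBR.trans (le_mul_of_one_le_right hR hlt)
    nlinarith
  have hb := basic (A := A) (B := B) (c := c) (d := d) (l := t ^ 7) (K := t ^ 4)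
    (Λ := t ^ 7 + 2 + |(B : ℝ)|) (δ := 1 / t ^ 2) hA (by positivity) (one_le_pow₀ (by linarith))
    le_rfl (by
      have e : (t ^ 4) ^ 2 ≤ (t ^ 7) ^ 2 := by
        apply pow_le_pow_left₀ (by positivity)
        exact pow_le_pow_right₀ (by linarith) (by norm_num)
      refine e.trans ?_
      apply pow_le_pow_left₀ (by positivity)
      linarith) h4 (by positivity) (by
      have e : t ^ 7 * (1 / t ^ 2) = t ^ 5 := by
        field_simp
      rw [e]
      have e2 : t ≤ t ^ 5 := le_self_pow₀ (by linarith) (by norm_num)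
      linarith) m
  refine hb.trans ?_
  apply mul_le_mul_of_nonneg_left _ (by positivity)
  have e1 : |(c : ℝ)| * (1 / (2 * t ^ 4)) ≤ R / t := by
    rw [mul_one_div, div_le_div_iff₀ (by positivity) ht0]
    have : t ≤ 2 * t ^ 4 := by
      have := le_self_pow₀ (show 1 ≤ t by linarith) (show (4 : ℕ) ≠ 0 by norm_num)
      nlinarith [pow_pos ht0 4]
    have h0 := abs_nonneg (c : ℝ)
    nlinarith
  have e2 : 4 * |(A : ℝ)| * t ^ 7 / (t ^ 4) ^ 2 ≤ 4 * R / t := by
    have e : 4 * |(A : ℝ)| * t ^ 7 / (t ^ 4) ^ 2 = 4 * |(A : ℝ)| / t := by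
      field_simp
    rw [e]
    exact div_le_div_of_nonneg_right (by linarith) ht0.le
  have e3 : 1 / (t ^ 4) ^ 2 + 4 * (t ^ 4) ^ 2 / (t ^ 7 * (1 / t ^ 2)) ^ 2 + 1 / t ^ 2 ≤
      6 / t ^ 2 := by
    have e : 4 * (t ^ 4) ^ 2 / (t ^ 7 * (1 / t ^ 2)) ^ 2 = 4 / t ^ 2 := by
      field_simp
    have e' : 1 / (t ^ 4) ^ 2 ≤ 1 / t ^ 2 := by
      apply one_div_le_one_div_of_le (by positivity)
      rw [← pow_mul]
      exact pow_le_pow_right₀ (by linarith) (by norm_num)
    rw [e]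
    have : 6 / t ^ 2 = 1 / t ^ 2 + 4 / t ^ 2 + 1 / t ^ 2 := by ring
    linarith
  have e4 : ((m : ℝ) + 1) * (1 / (t ^ 4) ^ 2 + 4 * (t ^ 4) ^ 2 / (t ^ 7 * (1 / t ^ 2)) ^ 2 +
      1 / t ^ 2) ≤ t * (6 / t ^ 2) :=
    mul_le_mul hm e3 (by positivity) ht0.le
  have e5 : t * (6 / t ^ 2) = 6 / t := by
    field_simp
  have e6 : (5 * R + 6) / t = R / t + 4 * R / t + 6 / t := by ring
  linarith

/-- Correlations of a non-constant character. -/
theorem corr_le {a b : ℤ} (hab : (a, b) ≠ (0, 0)) {t R : ℝ} (ht : 4 * (3 + R) ≤ t)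
    (haR : |(a : ℝ)| ≤ R) (hbR : |(b : ℝ)| ≤ R) (n : ℕ) (hn : 2 ≤ n) (hnt : (n : ℝ) ≤ t) :
    ‖∫ p in Qd, u a b (t ^ 7) n p * (starRingEnd ℂ) (u a b (t ^ 7) 0 p)‖ ≤
      (2 * π) ^ 2 * ((5 * R + 6) / t) := by
  by_cases ha : a = 0
  · have hb : b ≠ 0 := by
      rintro rfl
      exact hab (by rw [ha])
    obtain ⟨m, rfl⟩ : ∃ m, n = m + 2 := ⟨n - 2, by omega⟩
    have h := basic_t (A := b) (B := 0) (c := 0) (d := b) (t := t) (R := R) hb ht hbR
      (by simpa using (abs_nonneg _).trans haR) (by simpa using (abs_nonneg _).trans haR) m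
      (by push_cast at hnt; linarith)
    refine le_trans (le_of_eq ?_) h
    congr 2
    funext p
    unfold u ph
    rw [← Complex.exp_conj, ← Complex.exp_add, ← Complex.exp_add]
    congr 1
    rw [map_mul, Complex.conj_I, Complex.conj_ofReal, ha]
    show Complex.I * (((0 : ℤ) * X (t ^ 7) p.2 p.1 (m + 2 + 1) + b * X (t ^ 7) p.2 p.1 (m + 2) : ℝ) : ℂ)
      + -Complex.I * (((0 : ℤ) * p.1 + b * p.2 : ℝ) : ℂ) = _
    push_cast
    ring
  · obtain ⟨m, rfl⟩ : ∃ m, n = m + 1 := ⟨n - 1, by omega⟩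
    have h := basic_t (A := a) (B := b) (c := a) (d := b) (t := t) (R := R) ha ht haR hbR haR m
      (by push_cast at hnt; linarith)
    refine le_trans (le_of_eq ?_) h
    congr 2
    funext p
    unfold u ph
    rw [← Complex.exp_conj, ← Complex.exp_add, ← Complex.exp_add]
    congr 1
    rw [map_mul, Complex.conj_I, Complex.conj_ofReal]
    show Complex.I * ((a * X (t ^ 7) p.2 p.1 (m + 1 + 1) + b * X (t ^ 7) p.2 p.1 (m + 1) : ℝ) : ℂ)
      + -Complex.I * ((a * p.1 + b * p.2 : ℝ) : ℂ) = _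
    push_cast
    ring

/-- The iterates of the standard map and the orbit. -/
theorem T_iter (l : ℝ) (j : ℕ) : ∀ p : ℝ × ℝ, (T l)^[j] p = (X l p.2 p.1 (j + 1), X l p.2 p.1 j) := by
  induction j with
  | zero => intro p; rfl
  | succ j ih =>
    intro p
    rw [Function.iterate_succ_apply, ih]
    show (X l p.1 (2 * p.1 - p.2 + l * sin p.1) (j + 1), X l p.1 (2 * p.1 - p.2 + l * sin p.1) j) = _
    rw [(X_shift l p.2 p.1 j).1, (X_shift l p.2 p.1 j).2]

theorem char_iter (a b : ℤ) (l : ℝ) (j : ℕ) (p : ℝ × ℝ) :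
    Complex.exp (Complex.I * (a * (((T l)^[j] p).1 : ℝ) + b * (((T l)^[j] p).2 : ℝ))) =
      u a b l j p := by
  rw [T_iter]
  unfold u
  simp only
  push_cast
  rfl

theorem per_char (a b : ℤ) : Per fun p : ℝ × ℝ =>
    Complex.exp (Complex.I * (a * p.1 + b * p.2)) := by
  have e : (fun p : ℝ × ℝ => Complex.exp (Complex.I * (a * p.1 + b * p.2))) =
      fun p => u a b 0 0 p := by
    funext p
    unfold u
    show _ = Complex.exp (Complex.I * ((a * p.1 + b * p.2 : ℝ) : ℂ))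
    push_cast
    rfl
  rw [e]
  exact ⟨fun x y => u_add_fst a b 0 0 x y, fun x y => u_add_snd a b 0 0 x y⟩

/-- Twisted sums of a non-constant character. -/
theorem char_le {t t' R : ℝ} (ht' : 4 * (3 + R) ≤ t') (htt : t' ≤ t) (hR : 0 ≤ R) {ζ : ℂ}
    (hζ : ‖ζ‖ = 1) {a b : ℤ} (hab : (a, b) ≠ (0, 0)) (haR : |(a : ℝ)| ≤ R) (hbR : |(b : ℝ)| ≤ R)
    (n : ℕ) (hn : t' ^ 7 ≤ n) :
    ∫ p in Qd, ‖A (t ^ 7) ζ (fun p => Complex.exp (Complex.I * (a * p.1 + b * p.2))) n p‖ ≤
      n * (2 * (2 * π) ^ 2 * √((5 * R + 12) / t')) := by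
  have ht : 4 * (3 + R) ≤ t := ht'.trans htt
  have ht1 : 12 ≤ t' := by linarith
  have ht0 : 0 < t' := by linarith
  have ht0' : 0 < t := by linarith
  set e : ℝ × ℝ → ℂ := fun p => Complex.exp (Complex.I * (a * p.1 + b * p.2)) with he
  have hem : Measurable e := by
    rw [he]
    fun_prop
  have heb : ∀ p, ‖e p‖ ≤ 1 := by
    intro p
    have : e p = Complex.exp (((a * p.1 + b * p.2 : ℝ) : ℂ) * Complex.I) := by
      rw [he]
      simp only
      push_cast
      congr 1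
      ring
    rw [this, Complex.norm_exp_ofReal_mul_I]
  have hep : Per e := per_char a b
  set N : ℕ := ⌊t'⌋₊ with hN
  have hNt : (N : ℝ) ≤ t' := Nat.floor_le ht0.le
  have hN1 : t' - 1 ≤ N := (Nat.sub_one_lt_floor t').le
  have hN0 : 1 ≤ N := by
    have : (11 : ℝ) ≤ N := by linarith
    exact_mod_cast (by linarith : (1 : ℝ) ≤ N)
  have hN2 : (0 : ℝ) < N := by linarith
  -- one block
  have h1 : ∫ p in Qd, ‖A (t ^ 7) ζ e N p‖ ≤ (2 * π) ^ 2 * N * √((5 * R + 12) / t') := by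
    have h := l1_bound Qd rfl ζ hζ (u a b (t ^ 7)) (fun j => (continuous_u a b _ j).measurable)
      (fun j p => (norm_u a b _ j p).le) ((5 * R + 6) / t) (by positivity) N hN0
      (fun j k hjk hk => by
        obtain ⟨i, rfl⟩ : ∃ i, k = i + j := ⟨k - j, by omega⟩
        rw [corr_inv]
        refine corr_le hab ht haR hbR i (by omega) ?_
        have : (i : ℝ) ≤ N := by exact_mod_cast (by omega : i ≤ N)
        linarith)
    have e1 : ∀ p, A (t ^ 7) ζ e N p = ∑ j ∈ Finset.range N, ζ ^ j * u a b (t ^ 7) j p := by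
      intro p
      unfold A
      refine Finset.sum_congr rfl fun j _ => ?_
      rw [he]
      simp only
      rw [char_iter]
    simp only [e1]
    refine h.trans ?_
    apply mul_le_mul_of_nonneg_left _ (by positivity)
    apply Real.sqrt_le_sqrt
    have e2 : 3 / (N : ℝ) ≤ 6 / t' := by
      rw [div_le_div_iff₀ hN2 ht0]
      linarith
    have e4 : (5 * R + 6) / t ≤ (5 * R + 6) / t' :=
      div_le_div_of_nonneg_left (by linarith) ht0 htt
    have e3 : (5 * R + 12) / t' = 6 / t' + (5 * R + 6) / t' := by ring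
    linarith
  have h2 := block (l := t ^ 7) hζ hem heb hep N (n % N) (n / N)
  rw [Nat.div_add_mod'] at h2
  set q := √((5 * R + 12) / t') with hq
  have hq0 : 0 ≤ q := Real.sqrt_nonneg _
  have h3 : ((n / N : ℕ) : ℝ) * N ≤ n := by
    exact_mod_cast Nat.div_mul_le_self n N
  have h4 : ((n % N : ℕ) : ℝ) ≤ t' := by
    have : n % N < N := Nat.mod_lt _ hN0
    have : ((n % N : ℕ) : ℝ) ≤ N := by exact_mod_cast this.le
    linarith
  -- t ≤ n q
  have h5 : 1 / t' ≤ q := by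
    rw [hq]
    apply Real.le_sqrt_of_sq_le
    rw [div_pow, one_pow, div_le_div_iff₀ (by positivity) ht0]
    nlinarith
  have h6 : t' ≤ n * q := by
    have e1 : t' ≤ t' ^ 7 * (1 / t') := by
      have : t' ^ 7 * (1 / t') = t' ^ 6 := by field_simp
      rw [this]
      exact le_self_pow₀ (by linarith) (by norm_num)
    calc t' ≤ t' ^ 7 * (1 / t') := e1
      _ ≤ n * q := mul_le_mul hn h5 (by positivity) (by positivity)
  have hπ := Real.pi_pos
  calc ∫ p in Qd, ‖A (t ^ 7) ζ e n p‖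
      ≤ ((n / N : ℕ) : ℝ) * (∫ p in Qd, ‖A (t ^ 7) ζ e N p‖) +
        ((n % N : ℕ) : ℝ) * (2 * π) ^ 2 := h2
    _ ≤ ((n / N : ℕ) : ℝ) * ((2 * π) ^ 2 * N * q) + t' * (2 * π) ^ 2 := by
        have e1 := mul_le_mul_of_nonneg_left h1 (Nat.cast_nonneg (α := ℝ) (n / N))
        have e2 := mul_le_mul_of_nonneg_right h4 (sq_nonneg (2 * π))
        linarith
    _ = (((n / N : ℕ) : ℝ) * N) * ((2 * π) ^ 2 * q) + t' * (2 * π) ^ 2 := by ring
    _ ≤ n * ((2 * π) ^ 2 * q) + (n * q) * (2 * π) ^ 2 := by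
        have e1 := mul_le_mul_of_nonneg_right h3 (mul_nonneg (sq_nonneg (2 * π)) hq0)
        have e2 := mul_le_mul_of_nonneg_right h6 (sq_nonneg (2 * π))
        linarith
    _ = n * (2 * (2 * π) ^ 2 * q) := by ring

end Pool.Agent.SM
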