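import Mathlib

/-!
# Row GRIDD of project SM: from a grid to all boxes in dimension `d` (MP_6a168c_an)
-/

set_option autoImplicit false

open MeasureTheory Set

namespace Pool.Agent.SM

theorem gridd_prod {ι : Type*} (s : Finset ι) (a b : ι → ℝ) (h0 : ∀ i ∈ s, 0 ≤ a i)
    (hab : ∀ i ∈ s, a i ≤ b i) (h1 : ∀ i ∈ s, b i ≤ 1) :
    (0 ≤ ∏ i ∈ s, a i) ∧ (∏ i ∈ s, a i ≤ ∏ i ∈ s, b i) ∧ (∏ i ∈ s, a i ≤ 1) ∧
      ∏ i ∈ s, b i - ∏ i ∈ s, a i ≤ ∑ i ∈ s, (b i - a i) := by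
  classical
  induction s using Finset.induction_on with
  | empty => simp
  | insert i s hi ih =>
    have ih' := ih (fun j hj => h0 j (Finset.mem_insert_of_mem hj))
      (fun j hj => hab j (Finset.mem_insert_of_mem hj))
      (fun j hj => h1 j (Finset.mem_insert_of_mem hj))
    obtain ⟨e1, e2, e3, e4⟩ := ih'
    have a0 := h0 i (Finset.mem_insert_self i s)
    have ab := hab i (Finset.mem_insert_self i s)
    have b1 := h1 i (Finset.mem_insert_self i s)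
    rw [Finset.prod_insert hi, Finset.prod_insert hi, Finset.sum_insert hi]
    refine ⟨mul_nonneg a0 e1, mul_le_mul ab e2 e1 (a0.trans ab), ?_, ?_⟩
    · calc a i * ∏ i ∈ s, a i ≤ 1 * 1 := mul_le_mul (ab.trans b1) e3 e1 one_pos.le
        _ = 1 := one_mul 1
    · have h2 : b i * ∏ j ∈ s, b j - a i * ∏ j ∈ s, a j =
          b i * (∏ j ∈ s, b j - ∏ j ∈ s, a j) + (b i - a i) * ∏ j ∈ s, a j := by ring
      rw [h2]
      have h3 : b i * (∏ j ∈ s, b j - ∏ j ∈ s, a j) ≤ ∏ j ∈ s, b j - ∏ j ∈ s, a j :=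
        mul_le_of_le_one_left (sub_nonneg.2 e2) b1
      have h4 : (b i - a i) * ∏ j ∈ s, a j ≤ b i - a i :=
        mul_le_of_le_one_right (sub_nonneg.2 ab) e3
      linarith

theorem gridd_avg (n : ℕ) (ζ : ℂ) (hζ : ‖ζ‖ = 1) (g f : ℕ → ℝ) (hg : ∀ j, |g j| ≤ f j) :
    ‖(1 / (n : ℂ)) * ∑ j ∈ Finset.range n, ζ ^ j * (g j : ℂ)‖ ≤
      (1 / (n : ℝ)) * ∑ j ∈ Finset.range n, f j := by
  rw [norm_mul, norm_div, norm_one, Complex.norm_natCast]
  refine mul_le_mul_of_nonneg_left ?_ (by positivity)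
  refine (norm_sum_le _ _).trans (Finset.sum_le_sum fun j _ => ?_)
  rw [norm_mul, norm_pow, hζ, one_pow, one_mul, Complex.norm_real, Real.norm_eq_abs]
  exact hg j

/-- Row GRIDD: from a grid to all boxes in dimension `d`, with a twist. -/
theorem gridd (d n k : ℕ) (hk : 1 ≤ k) (φ : (Fin d → ℝ) → ℕ → ℝ)
    (hmono : ∀ u v : Fin d → ℝ, (∀ i, u i ≤ v i) → (∀ i, v i ≤ 1) → ∀ j, φ u j ≤ φ v j)
    (ζ : ℂ) (hζ : ‖ζ‖ = 1) (δ : ℝ)
    (h : ∀ z : ℂ, z = ζ ∨ z = 1 → ∀ q : Fin d → ℕ, (∀ i, q i ≤ k) →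
      ‖(1 / (n : ℂ)) * ∑ j ∈ Finset.range n, z ^ j * ((φ (fun i => (q i / k : ℝ)) j : ℂ) -
        ((∏ i, (q i / k : ℝ) : ℝ) : ℂ))‖ ≤ δ) (u : Fin d → ℝ) (hu : ∀ i, 0 ≤ u i ∧ u i ≤ 1) :
    ‖(1 / (n : ℂ)) * ∑ j ∈ Finset.range n, ζ ^ j * ((φ u j : ℂ) - ((∏ i, u i : ℝ) : ℂ))‖ ≤
      3 * δ + 2 * d / k := by
  have hk0 : (0 : ℝ) < k := by exact_mod_cast hk
  have hδ : 0 ≤ δ := (norm_nonneg _).trans (h 1 (Or.inr rfl) (fun _ => 0) fun _ => Nat.zero_le _)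
  have hd : (0 : ℝ) ≤ 2 * d / k := by positivity
  rcases Nat.eq_zero_or_pos n with hn | hn
  · subst hn
    simp only [Finset.range_zero, Finset.sum_empty, mul_zero, norm_zero]
    linarith
  have hn0 : (0 : ℝ) < n := by exact_mod_cast hn
  set q : Fin d → ℕ := fun i => ⌊k * u i⌋₊ with hq
  set r : Fin d → ℕ := fun i => ⌈k * u i⌉₊ with hr
  have hku : ∀ i, k * u i ≤ k := fun i => mul_le_of_le_one_right hk0.le (hu i).2
  have hku0 : ∀ i, 0 ≤ k * u i := fun i => mul_nonneg hk0.le (hu i).1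
  have hqk : ∀ i, q i ≤ k := fun i => by
    have : (q i : ℝ) ≤ k := (Nat.floor_le (hku0 i)).trans (hku i)
    exact_mod_cast this
  have hrk : ∀ i, r i ≤ k := fun i => Nat.ceil_le.2 (hku i)
  have hqu : ∀ i, (q i / k : ℝ) ≤ u i := fun i => by
    rw [div_le_iff₀ hk0, mul_comm]
    exact Nat.floor_le (hku0 i)
  have hur : ∀ i, u i ≤ (r i / k : ℝ) := fun i => by
    rw [le_div_iff₀ hk0, mul_comm]
    exact Nat.le_ceil _
  have hrq : ∀ i, (r i / k : ℝ) - q i / k ≤ 1 / k := fun i => by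
    rw [← sub_div]
    refine div_le_div_of_nonneg_right ?_ hk0.le
    have : r i ≤ q i + 1 := Nat.ceil_le_floor_add_one _
    have h2 : (r i : ℝ) ≤ q i + 1 := by exact_mod_cast this
    linarith
  have hr1 : ∀ i, (r i / k : ℝ) ≤ 1 := fun i => by
    rw [div_le_one hk0]
    exact_mod_cast hrk i
  have hq0 : ∀ i, (0 : ℝ) ≤ q i / k := fun i => by positivity
  set A : ℝ := ∏ i, (q i / k : ℝ) with hA
  set B : ℝ := ∏ i, (r i / k : ℝ) with hB
  set U : ℝ := ∏ i, u i with hU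
  obtain ⟨-, hAB, -, hBA⟩ := gridd_prod Finset.univ (fun i => (q i / k : ℝ))
    (fun i => (r i / k : ℝ)) (fun i _ => hq0 i) (fun i _ => (hqu i).trans (hur i))
    (fun i _ => hr1 i)
  obtain ⟨-, hAU, -, -⟩ := gridd_prod Finset.univ (fun i => (q i / k : ℝ)) u
    (fun i _ => hq0 i) (fun i _ => hqu i) (fun i _ => (hu i).2)
  obtain ⟨-, hUB, -, -⟩ := gridd_prod Finset.univ u (fun i => (r i / k : ℝ))
    (fun i _ => (hu i).1) (fun i _ => hur i) (fun i _ => hr1 i)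
  have hBAd : B - A ≤ d / k := by
    refine hBA.trans ((Finset.sum_le_sum fun i _ => hrq i).trans ?_)
    rw [Finset.sum_const, Finset.card_univ, Fintype.card_fin, nsmul_eq_mul]
    apply le_of_eq
    ring
  set φm : ℕ → ℝ := φ fun i => (q i / k : ℝ) with hφm
  set φp : ℕ → ℝ := φ fun i => (r i / k : ℝ) with hφp
  have m1 : ∀ j, φm j ≤ φ u j := fun j => hmono _ _ hqu (fun i => (hu i).2) j
  have m2 : ∀ j, φ u j ≤ φp j := fun j => hmono _ _ hur hr1 j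
  -- real versions of the hypothesis for z = 1
  have real1 : ∀ (g : ℕ → ℝ) (c : ℝ), ‖(1 / (n : ℂ)) * ∑ j ∈ Finset.range n,
      (1 : ℂ) ^ j * ((g j : ℂ) - (c : ℂ))‖ = |(1 / (n : ℝ)) * ∑ j ∈ Finset.range n, (g j - c)| := by
    intro g c
    rw [← Real.norm_eq_abs, ← Complex.norm_real]
    congr 1
    push_cast
    simp
  have p1 : |(1 / (n : ℝ)) * ∑ j ∈ Finset.range n, (φm j - A)| ≤ δ := by
    rw [← real1]
    exact h 1 (Or.inr rfl) q hqk
  have p2 : |(1 / (n : ℝ)) * ∑ j ∈ Finset.range n, (φp j - B)| ≤ δ := by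
    rw [← real1]
    exact h 1 (Or.inr rfl) r hrk
  have p3 : ‖(1 / (n : ℂ)) * ∑ j ∈ Finset.range n, ζ ^ j * ((φm j : ℂ) - (A : ℂ))‖ ≤ δ :=
    h ζ (Or.inl rfl) q hqk
  have split : (1 / (n : ℂ)) * ∑ j ∈ Finset.range n, ζ ^ j * ((φ u j : ℂ) - (U : ℂ)) =
      (1 / (n : ℂ)) * ∑ j ∈ Finset.range n, ζ ^ j * ((φm j : ℂ) - (A : ℂ)) +
      (1 / (n : ℂ)) * ∑ j ∈ Finset.range n, ζ ^ j * ((φ u j - φm j : ℝ) : ℂ) -
      (1 / (n : ℂ)) * ∑ j ∈ Finset.range n, ζ ^ j * ((U - A : ℝ) : ℂ) := by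
    rw [← mul_add, ← mul_sub, ← Finset.sum_add_distrib, ← Finset.sum_sub_distrib]
    congr 1
    refine Finset.sum_congr rfl fun j _ => ?_
    push_cast
    ring
  have b1 : ‖(1 / (n : ℂ)) * ∑ j ∈ Finset.range n, ζ ^ j * ((φ u j - φm j : ℝ) : ℂ)‖ ≤
      2 * δ + d / k := by
    refine (gridd_avg n ζ hζ (fun j => φ u j - φm j) (fun j => φp j - φm j) fun j => ?_).trans ?_
    · rw [abs_of_nonneg (sub_nonneg.2 (m1 j))]
      linarith [m2 j]
    · have e : (1 / (n : ℝ)) * ∑ j ∈ Finset.range n, (φp j - φm j) =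
          (1 / (n : ℝ)) * ∑ j ∈ Finset.range n, (φp j - B) -
          (1 / (n : ℝ)) * ∑ j ∈ Finset.range n, (φm j - A) + (B - A) := by
        rw [Finset.sum_sub_distrib, Finset.sum_sub_distrib, Finset.sum_sub_distrib,
          Finset.sum_const, Finset.sum_const, Finset.card_range, nsmul_eq_mul, nsmul_eq_mul]
        field_simp
        ring
      rw [e]
      have h1 := (abs_le.1 p1).1
      have h2 := (abs_le.1 p2).2
      linarith
  have b2 : ‖(1 / (n : ℂ)) * ∑ j ∈ Finset.range n, ζ ^ j * ((U - A : ℝ) : ℂ)‖ ≤ d / k := by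
    refine (gridd_avg n ζ hζ (fun _ => U - A) (fun _ => d / k) fun j => ?_).trans ?_
    · rw [abs_of_nonneg (sub_nonneg.2 hAU)]
      have : U ≤ B := hUB
      linarith
    · rw [Finset.sum_const, Finset.card_range, nsmul_eq_mul]
      apply le_of_eq
      field_simp
  rw [split]
  refine (norm_sub_le _ _).trans ?_
  have t := norm_add_le ((1 / (n : ℂ)) * ∑ j ∈ Finset.range n, ζ ^ j * ((φm j : ℂ) - (A : ℂ)))
    ((1 / (n : ℂ)) * ∑ j ∈ Finset.range n, ζ ^ j * ((φ u j - φm j : ℝ) : ℂ))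
  have e3 : 3 * δ + 2 * (d : ℝ) / k = δ + (2 * δ + d / k) + d / k := by ring
  rw [e3]
  linarith

end Pool.Agent.SM
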