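import Pool.Agent.Lib.SM.Path

/-!
# From one block in `L ^ 1` to all long times (row PATHZ of the standard map project)
-/

set_option autoImplicit false

open MeasureTheory Set

namespace Pool.Agent.SM

namespace PathZAux

lemma norm_shift_le {Y : ℕ → ℂ} (hY : ∀ k, ‖Y k‖ ≤ 1) (n j : ℕ) :
    ‖(∑ i ∈ Finset.range n, Y i) - ∑ i ∈ Finset.range n, Y (i + j)‖ ≤ 2 * j := by
  have h1 : ∑ i ∈ Finset.range n, Y (i + j) =
      (∑ i ∈ Finset.range (n + j), Y i) - ∑ i ∈ Finset.range j, Y i := by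
    rw [add_comm n j, Finset.sum_range_add, add_sub_cancel_left]
    refine Finset.sum_congr rfl fun i _ => ?_
    rw [add_comm]
  have h2 : ∑ i ∈ Finset.range (n + j), Y i =
      (∑ i ∈ Finset.range n, Y i) + ∑ i ∈ Finset.range j, Y (n + i) :=
    Finset.sum_range_add _ _ _
  have h3 : (∑ i ∈ Finset.range n, Y i) - ∑ i ∈ Finset.range n, Y (i + j) =
      (∑ i ∈ Finset.range j, Y i) - ∑ i ∈ Finset.range j, Y (n + i) := by
    rw [h1, h2]
    ring
  rw [h3]
  have hb : ∀ Z : ℕ → ℂ, (∀ k, ‖Z k‖ ≤ 1) → ‖∑ i ∈ Finset.range j, Z i‖ ≤ j := by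
    intro Z hZ
    refine le_trans (norm_sum_le _ _) ?_
    refine le_trans (Finset.sum_le_sum fun i _ => hZ i) ?_
    simp
  refine le_trans (norm_sub_le _ _) ?_
  have := hb Y hY
  have := hb (fun i => Y (n + i)) fun k => hY _
  linarith

end PathZAux

open PathZAux

/-- Row PATHZ: twisted version of PATH. -/
theorem pathz {α : Type*} [MeasurableSpace α] (μ : Measure α) [IsFiniteMeasure μ] (T : α → α)
    (hT : MeasurePreserving T μ μ) (χ : α → ℝ) (hm : Measurable χ) (h0 : ∀ x, 0 ≤ χ x)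
    (h1 : ∀ x, χ x ≤ 1) (c : ℝ) (hc0 : 0 ≤ c) (hc1 : c ≤ 1) (ζ : ℂ) (hζ : ‖ζ‖ = 1) (N : ℕ)
    (hN : 1 ≤ N) (ε a : ℝ) (ha : 0 < a)
    (hε : ∫ x, ‖(1 / (N : ℂ)) * ∑ j ∈ Finset.range N, ζ ^ j * ((χ (T^[j] x) : ℂ) - (c : ℂ))‖ ∂μ
      ≤ ε) :
    ∃ E : Set α, MeasurableSet E ∧ μ.real E ≤ ε / a ∧ ∀ x ∉ E, ∀ n : ℕ, 1 ≤ n →
      ‖(1 / (n : ℂ)) * ∑ j ∈ Finset.range n, ζ ^ j * ((χ (T^[j] x) : ℂ) - (c : ℂ))‖ ≤
        a + 2 * N / n := by
  have hN0 : (0 : ℝ) < N := by exact_mod_cast hN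
  have hNC : (N : ℂ) ≠ 0 := by
    intro h
    rw [Nat.cast_eq_zero] at h
    omega
  -- the block average
  obtain ⟨A, hA⟩ : ∃ A : α → ℂ, A = fun x =>
    (1 / (N : ℂ)) * ∑ j ∈ Finset.range N, ζ ^ j * ((χ (T^[j] x) : ℂ) - (c : ℂ)) := ⟨_, rfl⟩
  have hχ : ∀ x, ‖(χ x : ℂ) - (c : ℂ)‖ ≤ 1 := by
    intro x
    rw [← Complex.ofReal_sub, Complex.norm_real, Real.norm_eq_abs, abs_le]
    have := h0 x
    have := h1 x
    constructor <;> linarith
  have hζj : ∀ j : ℕ, ‖ζ ^ j‖ = 1 := fun j => by rw [norm_pow, hζ, one_pow]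
  have hY : ∀ (x : α) (k : ℕ), ‖ζ ^ k * ((χ (T^[k] x) : ℂ) - (c : ℂ))‖ ≤ 1 := by
    intro x k
    rw [norm_mul, hζj, one_mul]
    exact hχ _
  have hAm : Measurable A := by
    rw [hA]
    refine measurable_const.mul (Finset.measurable_sum _ fun j _ => measurable_const.mul ?_)
    refine Measurable.sub_const ?_ _
    exact Complex.measurable_ofReal.comp (hm.comp (hT.measurable.iterate j))
  have hA1 : ∀ x, ‖A x‖ ≤ 1 := by
    intro x
    rw [hA]
    simp only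
    rw [norm_mul, norm_div, norm_one, Complex.norm_natCast, one_div, inv_mul_le_iff₀ hN0, mul_one]
    refine le_trans (norm_sum_le _ _) (le_trans (Finset.sum_le_sum fun j _ => hY x j) ?_)
    simp
  have hε' : ∫ x, ‖A x‖ ∂μ ≤ ε := by
    rw [hA]
    exact hε
  refine ⟨{x | ∃ n : ℕ, 1 ≤ n ∧ a * n < ∑ j ∈ Finset.range n, ‖A (T^[j] x)‖}, ?_, ?_, ?_⟩
  · have : {x | ∃ n : ℕ, 1 ≤ n ∧ a * n < ∑ j ∈ Finset.range n, ‖A (T^[j] x)‖} =
        ⋃ n : ℕ, {x | 1 ≤ n ∧ a * n < ∑ j ∈ Finset.range n, ‖A (T^[j] x)‖} := by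
      ext x
      simp
    rw [this]
    refine MeasurableSet.iUnion fun n => ?_
    by_cases hn : 1 ≤ n
    · simp only [hn, true_and]
      refine measurableSet_lt measurable_const ?_
      exact Finset.measurable_sum _ fun j _ => (hAm.comp (hT.measurable.iterate j)).norm
    · simp [hn]
  · refine le_trans (maximal μ T hT (fun x => ‖A x‖) hAm.norm (fun x => norm_nonneg _) 1 hA1 a ha) ?_
    gcongr
  · intro x hx n hn
    have hn0 : (0 : ℝ) < n := by exact_mod_cast hn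
    have hx' : ∑ j ∈ Finset.range n, ‖A (T^[j] x)‖ ≤ a * n := by
      by_contra hlt
      rw [not_le] at hlt
      exact hx ⟨n, hn, hlt⟩
    obtain ⟨Y, hYd⟩ : ∃ Y : ℕ → ℂ, Y = fun k => ζ ^ k * ((χ (T^[k] x) : ℂ) - (c : ℂ)) := ⟨_, rfl⟩
    have hY1 : ∀ k, ‖Y k‖ ≤ 1 := by
      intro k
      rw [hYd]
      exact hY x k
    -- the average of the block averages
    have h2 : ∑ i ∈ Finset.range n, ζ ^ i * A (T^[i] x) =
        (1 / (N : ℂ)) * ∑ j ∈ Finset.range N, ∑ i ∈ Finset.range n, Y (i + j) := by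
      rw [Finset.sum_comm, Finset.mul_sum]
      refine Finset.sum_congr rfl fun i _ => ?_
      rw [hA, hYd]
      simp only
      rw [mul_left_comm, Finset.mul_sum]
      congr 1
      refine Finset.sum_congr rfl fun j _ => ?_
      rw [← Function.iterate_add_apply, add_comm j i, pow_add]
      ring
    have h3 : ‖∑ i ∈ Finset.range n, ζ ^ i * A (T^[i] x)‖ ≤ a * n := by
      refine le_trans (norm_sum_le _ _) (le_trans (le_of_eq ?_) hx')
      refine Finset.sum_congr rfl fun i _ => ?_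
      rw [norm_mul, hζj, one_mul]
    have h4 : (∑ i ∈ Finset.range n, Y i) - ∑ i ∈ Finset.range n, ζ ^ i * A (T^[i] x) =
        (1 / (N : ℂ)) * ∑ j ∈ Finset.range N,
          ((∑ i ∈ Finset.range n, Y i) - ∑ i ∈ Finset.range n, Y (i + j)) := by
      rw [h2, Finset.sum_sub_distrib, Finset.sum_const, Finset.card_range, nsmul_eq_mul]
      field_simp
    have h5 : ‖(∑ i ∈ Finset.range n, Y i) - ∑ i ∈ Finset.range n, ζ ^ i * A (T^[i] x)‖ ≤
        2 * N := by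
      rw [h4, norm_mul, norm_div, norm_one, Complex.norm_natCast, one_div, inv_mul_le_iff₀ hN0]
      refine le_trans (norm_sum_le _ _) ?_
      refine le_trans (Finset.sum_le_sum (g := fun _ => (2 * N : ℝ)) fun j hj => ?_) ?_
      · refine le_trans (norm_shift_le hY1 n j) ?_
        have : (j : ℝ) ≤ N := by exact_mod_cast (Finset.mem_range.1 hj).le
        linarith
      · simp
    have h6 : ‖∑ i ∈ Finset.range n, Y i‖ ≤ a * n + 2 * N := by
      calc ‖∑ i ∈ Finset.range n, Y i‖ =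
          ‖((∑ i ∈ Finset.range n, Y i) - ∑ i ∈ Finset.range n, ζ ^ i * A (T^[i] x)) +
            ∑ i ∈ Finset.range n, ζ ^ i * A (T^[i] x)‖ := by rw [sub_add_cancel]
        _ ≤ _ := norm_add_le _ _
        _ ≤ a * n + 2 * N := by linarith
    rw [hYd] at h6
    rw [norm_mul, norm_div, norm_one, Complex.norm_natCast, one_div, inv_mul_le_iff₀ hn0]
    refine le_trans h6 (le_of_eq ?_)
    field_simp

end Pool.Agent.SM
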