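import Pool.Agent.Lib.SM.TBox
import Pool.Agent.Lib.SM.PathZ
import Pool.Agent.Lib.SM.GridD

/-!
# The standard map on the torus: all boxes of several times, all long times (helper90)
-/

set_option autoImplicit false

open Real MeasureTheory Set

namespace Pool.Agent.SM

/-- One block with the parameters chosen. -/
theorem block_par (d : ℕ) {t t' b : ℝ} (htt : t' ≤ t) (ht' : 24 + 4 * d ≤ t')
    (hb : 1 ≤ b) (hbt : t' = b ^ (4 * (d + 1))) {ζ : ℂ} (hζ : ‖ζ‖ = 1) (u : Fin d → ℝ)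
    (hu : ∀ i, 0 ≤ u i ∧ u i ≤ 2 * π) :
    ∫ p, ‖(1 / ((⌊t' / 2⌋₊ : ℕ) : ℂ)) * ∑ j ∈ Finset.range ⌊t' / 2⌋₊, ζ ^ j *
      ((bxd (t ^ 7) u ((std (t ^ 7))^[j] p) : ℂ) - ((∏ i, (u i / (2 * π)) : ℝ) : ℂ))‖ ∂lebT ≤
      (24 * d + 6 * 3 ^ d) / b := by
  have hd0 : (0 : ℝ) ≤ d := Nat.cast_nonneg d
  have ht1 : 24 ≤ t' := by linarith
  have ht0 : 0 < t' := by linarith
  have hb0 : 0 < b := by linarith
  set N : ℕ := ⌊t' / 2⌋₊ with hN
  have hN1 : t' / 2 < N + 1 := Nat.lt_floor_add_one _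
  have hN2 : (N : ℝ) ≤ t' / 2 := Nat.floor_le (by positivity)
  have hN4 : t' / 4 ≤ N := by linarith
  have hN0 : (0 : ℝ) < N := by linarith
  have hN0' : 1 ≤ N := by
    have : (1 : ℝ) ≤ N := by linarith
    exact_mod_cast this
  have hNt : (N : ℝ) + d ≤ t := by linarith
  set r : ℝ := b ^ 2 with hr
  have hr1 : 1 ≤ r := one_le_pow₀ hb
  have hr0 : 0 < r := by linarith
  set M : ℕ := ⌊r⌋₊ with hM
  have hM1 : 1 ≤ M := Nat.floor_pos.2 hr1
  have hM1' : (1 : ℝ) ≤ M := by exact_mod_cast hM1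
  have hMr : (M : ℝ) ≤ r := Nat.floor_le hr0.le
  have hMr2 : r ≤ 2 * M := by
    have := Nat.lt_floor_add_one r
    rw [← hM] at this
    linarith
  have h := torus_block d (t := t) (by linarith) M hM1 N hN0' hNt hζ u hu
  refine h.trans ?_
  have e1 : 12 * d / √(M : ℝ) ≤ 24 * d / b := by
    have hs : b / 2 ≤ √(M : ℝ) := by
      apply Real.le_sqrt_of_sq_le
      rw [div_pow, ← hr]
      linarith
    have hs0 : 0 < b / 2 := by positivity
    calc 12 * d / √(M : ℝ) ≤ 12 * d / (b / 2) :=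
          div_le_div_of_nonneg_left (by positivity) hs0 hs
      _ = 24 * d / b := by
        field_simp
        ring
  have e2 : (2 * (M : ℝ) + 1) ^ d ≤ 3 ^ d * b ^ (2 * d) := by
    have : 2 * (M : ℝ) + 1 ≤ 3 * r := by linarith
    calc (2 * (M : ℝ) + 1) ^ d ≤ (3 * r) ^ d := pow_le_pow_left₀ (by positivity) this d
      _ = 3 ^ d * b ^ (2 * d) := by
        rw [mul_pow, hr, ← pow_mul]
  have e3 : √(3 / N + (10 * M + 6) / t) ≤ 6 / b ^ (2 * d + 1) := by
    apply Real.sqrt_le_iff.2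
    refine ⟨by positivity, ?_⟩
    have f1 : 3 / (N : ℝ) ≤ 12 * r / t' := by
      rw [div_le_div_iff₀ hN0 ht0]
      nlinarith
    have f2 : (10 * M + 6) / t ≤ 16 * r / t' := by
      apply div_le_div₀ (by positivity) (by linarith) ht0 htt
    have f3 : 12 * r / t' + 16 * r / t' ≤ (6 / b ^ (2 * d + 1)) ^ 2 := by
      have g1 : 12 * r / t' + 16 * r / t' = 28 * r / t' := by ring
      have g2 : (6 / b ^ (2 * d + 1)) ^ 2 = 36 * r / t' := by
        rw [div_pow, ← pow_mul, hbt, hr]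
        have : b ^ (4 * (d + 1)) = b ^ ((2 * d + 1) * 2) * b ^ 2 := by
          rw [← pow_add]
          congr 1
          ring
        rw [this]
        field_simp
        norm_num
      rw [g1, g2]
      apply div_le_div_of_nonneg_right _ ht0.le
      linarith
    linarith
  have e4 : (2 * (M : ℝ) + 1) ^ d * √(3 / N + (10 * M + 6) / t) ≤ 6 * 3 ^ d / b := by
    calc _ ≤ (3 ^ d * b ^ (2 * d)) * (6 / b ^ (2 * d + 1)) :=
          mul_le_mul e2 e3 (Real.sqrt_nonneg _) (by positivity)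
      _ = 6 * 3 ^ d / b := by
        rw [pow_succ]
        field_simp
  have e5 : (24 * d + 6 * 3 ^ d) / b = 24 * d / b + 6 * 3 ^ d / b := add_div _ _ _
  linarith

/-- The trivial bound of an average. -/
theorem avg_triv {ζ : ℂ} (hζ : ‖ζ‖ = 1) (n : ℕ) (x : ℕ → ℂ) (hx : ∀ j, ‖x j‖ ≤ 1) :
    ‖(1 / (n : ℂ)) * ∑ j ∈ Finset.range n, ζ ^ j * x j‖ ≤ 1 := by
  rw [norm_mul, norm_div, norm_one, Complex.norm_natCast]
  have h1 : ‖∑ j ∈ Finset.range n, ζ ^ j * x j‖ ≤ n := by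
    refine (norm_sum_le _ _).trans ?_
    calc ∑ j ∈ Finset.range n, ‖ζ ^ j * x j‖ ≤ ∑ _j ∈ Finset.range n, (1 : ℝ) := by
          refine Finset.sum_le_sum fun j _ => ?_
          rw [norm_mul, norm_pow, hζ, one_pow, one_mul]
          exact hx j
      _ = n := by simp
  calc 1 / (n : ℝ) * ‖∑ j ∈ Finset.range n, ζ ^ j * x j‖ ≤ 1 / (n : ℝ) * n :=
        mul_le_mul_of_nonneg_left h1 (by positivity)
    _ ≤ 1 := by
      rw [one_div]
      exact inv_mul_le_one_of_le₀ le_rfl (Nat.cast_nonneg n)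

/-- All boxes, all long times. -/
theorem boxes (d : ℕ) : ∀ l m : ℝ, 1 ≤ m → m ≤ l → ∀ ζ : ℂ, ‖ζ‖ = 1 →
    ∃ E : Set Torus, MeasurableSet E ∧
    lebT.real E ≤ 60 * 9 ^ d * m ^ (-(1 / (28 * (d + 1) * (d + 2))) : ℝ) ∧
    ∀ p ∉ E, ∀ n : ℕ, m ≤ n →
    ∀ u : Fin d → ℝ, (∀ i, 0 ≤ u i ∧ u i ≤ 1) →
    ‖(1 / (n : ℂ)) * ∑ j ∈ Finset.range n, ζ ^ j *
      ((bxd l (fun i => 2 * π * u i) ((std l)^[j] p) : ℂ) - ((∏ i, u i : ℝ) : ℂ))‖ ≤
      60 * 9 ^ d * m ^ (-(1 / (28 * (d + 1) * (d + 2))) : ℝ) := by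
  have hπ := Real.two_pi_pos
  have hd0 : (0 : ℝ) ≤ d := Nat.cast_nonneg d
  set C1 : ℝ := 24 * d + 6 * 3 ^ d with hC1
  have hC10 : 0 ≤ C1 := by positivity
  have hd3 : (d : ℝ) ≤ 3 ^ d := by
    exact_mod_cast (Nat.lt_pow_self (by norm_num : 1 < 3)).le
  have h31 : (1 : ℝ) ≤ 3 ^ d := one_le_pow₀ (by norm_num)
  have h9 : (9 : ℝ) ^ d = 3 ^ d * 3 ^ d := by
    rw [← mul_pow]
    norm_num
  have h39 : (3 : ℝ) ^ d ≤ 9 ^ d := by
    rw [h9]
    exact le_mul_of_one_le_left (by positivity) h31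
  set C : ℝ := 60 * 9 ^ d with hC
  have hCa : 24 + 4 * (d : ℝ) ≤ C := by linarith
  have hCb : 2 * 3 ^ d * C1 ≤ C := by
    rw [hC, hC1, h9]
    have := mul_le_mul_of_nonneg_left hd3 (by positivity : (0 : ℝ) ≤ 3 ^ d)
    linarith
  have hCc : 6 + 2 * (d : ℝ) ≤ C := by linarith
  have hC0 : 0 ≤ C := by linarith
  intro l m hm hml ζ hζ
  have hm0 : 0 < m := by linarith
  have hl0 : 0 < l := by linarith
  set g : ℝ := m ^ (1 / (28 * (d + 1) * (d + 2)) : ℝ) with hg
  have hexp : (0 : ℝ) < 28 * (d + 1) * (d + 2) := by positivity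
  have hg1 : 1 ≤ g := Real.one_le_rpow hm (by positivity)
  have hg0 : 0 < g := by linarith
  have hgm : g ^ (28 * (d + 1) * (d + 2)) = m := by
    rw [hg, ← Real.rpow_natCast, ← Real.rpow_mul hm0.le]
    push_cast
    rw [one_div, inv_mul_cancel₀ hexp.ne', Real.rpow_one]
  have hgoal : m ^ (-(1 / (28 * (d + 1) * (d + 2))) : ℝ) = 1 / g := by
    rw [hg, Real.rpow_neg hm0.le]
    exact (one_div _).symm
  rw [hgoal]
  set b : ℝ := g ^ (d + 2) with hb
  have hb1 : 1 ≤ b := one_le_pow₀ hg1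
  have hb0 : 0 < b := by linarith
  set t' : ℝ := b ^ (4 * (d + 1)) with ht'
  have ht'1 : 1 ≤ t' := one_le_pow₀ hb1
  have ht'0 : 0 < t' := by linarith
  have ht'm : t' ^ 7 = m := by
    rw [ht', hb, ← pow_mul, ← pow_mul, ← hgm]
    congr 1
    ring
  set t : ℝ := l ^ (1 / 7 : ℝ) with ht
  have ht0 : 0 < t := Real.rpow_pos_of_pos hl0 _
  have ht7 : t ^ 7 = l := by
    rw [ht, ← Real.rpow_natCast, ← Real.rpow_mul hl0.le]
    norm_num
  have htt : t' ≤ t := by
    have : t' ^ 7 ≤ t ^ 7 := by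
      rw [ht'm, ht7]
      exact hml
    exact le_of_pow_le_pow_left₀ (by norm_num) ht0.le this
  have hgt : g ≤ t' := by
    rw [ht', hb, ← pow_mul]
    exact le_self_pow₀ hg1 (by positivity)
  have hval : ∀ (u : Fin d → ℝ), (∀ i, 0 ≤ u i ∧ u i ≤ 1) → ∀ q : Torus,
      ‖((bxd l (fun i => 2 * π * u i) q : ℂ) - ((∏ i, u i : ℝ) : ℂ))‖ ≤ 1 := by
    intro u hu q
    have h1 := bxd_nonneg l (fun i => 2 * π * u i) q
    have h2 := bxd_le l (fun i => 2 * π * u i) q
    have h3 : 0 ≤ ∏ i, u i := Finset.prod_nonneg fun i _ => (hu i).1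
    have h4 : ∏ i, u i ≤ 1 := Finset.prod_le_one (fun i _ => (hu i).1) fun i _ => (hu i).2
    rw [← Complex.ofReal_sub, Complex.norm_real, Real.norm_eq_abs, abs_le]
    constructor <;> linarith
  by_cases hcase : t' < 24 + 4 * d
  · -- trivial
    refine ⟨∅, MeasurableSet.empty, ?_, ?_⟩
    · rw [measureReal_empty]
      positivity
    · intro p _ n _ u hu
      refine (avg_triv hζ n _ fun j => hval u hu _).trans ?_
      rw [mul_one_div, le_div_iff₀ hg0]
      linarith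
  · push Not at hcase
    set N : ℕ := ⌊t' / 2⌋₊ with hN
    have hN2 : (N : ℝ) ≤ t' / 2 := Nat.floor_le (by positivity)
    have hN1 : 1 ≤ N := by
      have h1 : t' / 2 < N + 1 := Nat.lt_floor_add_one _
      have : (1 : ℝ) ≤ N := by linarith
      exact_mod_cast this
    set k : ℕ := ⌈g⌉₊ with hk
    have hkg : g ≤ k := Nat.le_ceil g
    have hk1 : 1 ≤ k := by
      have : (1 : ℝ) ≤ k := hg1.trans hkg
      exact_mod_cast this
    have hk0 : (0 : ℝ) < k := by exact_mod_cast hk1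
    have hkg2 : (k : ℝ) ≤ g + 1 := (Nat.ceil_lt_add_one hg0.le).le
    have hgrid : ∀ z : ℂ, ‖z‖ = 1 → ∀ q : Fin d → ℕ, (∀ i, q i ≤ k) → ∃ E : Set Torus,
        MeasurableSet E ∧ lebT.real E ≤ C1 / g ^ (d + 1) ∧ ∀ p ∉ E, ∀ n : ℕ, m ≤ n →
        ‖(1 / (n : ℂ)) * ∑ j ∈ Finset.range n, z ^ j *
          ((bxd l (fun i => 2 * π * (q i / k)) ((std l)^[j] p) : ℂ) -
          ((∏ i, (q i / k : ℝ) : ℝ) : ℂ))‖ ≤ 2 / g := by
      intro z hz q hq
      have hq1 : ∀ i, 0 ≤ (q i / k : ℝ) ∧ (q i / k : ℝ) ≤ 1 := by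
        intro i
        refine ⟨by positivity, ?_⟩
        rw [div_le_one hk0]
        exact_mod_cast hq i
      have hu : ∀ i, 0 ≤ 2 * π * (q i / k : ℝ) ∧ 2 * π * (q i / k : ℝ) ≤ 2 * π := fun i =>
        ⟨mul_nonneg hπ.le (hq1 i).1, mul_le_of_le_one_right hπ.le (hq1 i).2⟩
      have h1 := block_par d htt hcase hb1 ht' hz (fun i => 2 * π * (q i / k : ℝ)) hu
      rw [ht7, ← hN] at h1
      have hκ : ∏ i, (2 * π * (q i / k : ℝ) / (2 * π)) = ∏ i, (q i / k : ℝ) := by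
        refine Finset.prod_congr rfl fun i _ => ?_
        rw [mul_div_cancel_left₀ _ hπ.ne']
      simp only [hκ] at h1
      obtain ⟨E, hE, hEm, hEp⟩ := pathz lebT (std l) (mp_std l)
        (bxd l fun i => 2 * π * (q i / k : ℝ)) (measurable_bxd l fun i => (hu i).2)
        (bxd_nonneg l _) (bxd_le l _) (∏ i, (q i / k : ℝ))
        (Finset.prod_nonneg fun i _ => (hq1 i).1)
        (Finset.prod_le_one (fun i _ => (hq1 i).1) fun i _ => (hq1 i).2) z hz N hN1
        (C1 / b) (1 / g) (by positivity) h1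
      refine ⟨E, hE, hEm.trans (le_of_eq ?_), ?_⟩
      · rw [hb, pow_succ]
        field_simp
      · intro p hp n hn
        have hn0 : (0 : ℝ) < n := by linarith
        have hn1 : 1 ≤ n := by
          have : (1 : ℝ) ≤ n := hm.trans hn
          exact_mod_cast this
        refine (hEp p hp n hn1).trans ?_
        have e1 : 2 * (N : ℝ) / n ≤ 1 / g := by
          rw [div_le_div_iff₀ hn0 hg0, one_mul]
          calc 2 * (N : ℝ) * g ≤ t' * t' := mul_le_mul (by linarith) hgt hg0.le ht'0.le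
            _ = t' ^ 2 := by ring
            _ ≤ t' ^ 7 := pow_le_pow_right₀ ht'1 (by norm_num)
            _ = m := ht'm
            _ ≤ n := hn
        have e2 : (2 : ℝ) / g = 1 / g + 1 / g := by ring
        linarith
    choose! E hE hEm hEp using hgrid
    set S : Finset (Fin d → ℕ) := Fintype.piFinset fun _ => Finset.range (k + 1) with hS
    have hSk : ∀ q ∈ S, ∀ i, q i ≤ k := by
      intro q hq i
      rw [hS, Fintype.mem_piFinset] at hq
      have := Finset.mem_range.1 (hq i)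
      omega
    have h1n : ‖(1 : ℂ)‖ = 1 := norm_one
    refine ⟨(⋃ q ∈ S, E ζ q) ∪ ⋃ q ∈ S, E 1 q, ?_, ?_, ?_⟩
    · exact (Finset.measurableSet_biUnion _ fun q hq => hE ζ hζ q (hSk q hq)).union
        (Finset.measurableSet_biUnion _ fun q hq => hE 1 h1n q (hSk q hq))
    · have hcard : (S.card : ℝ) ≤ (3 * g) ^ d := by
        have h2 : S.card = (k + 1) ^ d := by
          rw [hS, Fintype.card_piFinset]
          simp
        rw [h2]
        push_cast
        apply pow_le_pow_left₀ (by positivity)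
        linarith
      have hone : ∀ z : ℂ, ‖z‖ = 1 → lebT.real (⋃ q ∈ S, E z q) ≤
          (3 * g) ^ d * (C1 / g ^ (d + 1)) := by
        intro z hz
        refine (measureReal_biUnion_finset_le _ _).trans ?_
        calc ∑ q ∈ S, lebT.real (E z q) ≤ ∑ _q ∈ S, C1 / g ^ (d + 1) :=
              Finset.sum_le_sum fun q hq => hEm z hz q (hSk q hq)
          _ = S.card * (C1 / g ^ (d + 1)) := by rw [Finset.sum_const, nsmul_eq_mul]
          _ ≤ (3 * g) ^ d * (C1 / g ^ (d + 1)) :=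
              mul_le_mul_of_nonneg_right hcard (by positivity)
      have h3 := hone ζ hζ
      have h4 := hone 1 h1n
      have h5 : (3 * g) ^ d * (C1 / g ^ (d + 1)) = 3 ^ d * C1 * (1 / g) := by
        rw [mul_pow, pow_succ]
        field_simp
      refine (measureReal_union_le _ _).trans ?_
      calc _ ≤ 3 ^ d * C1 * (1 / g) + 3 ^ d * C1 * (1 / g) := by
            rw [← h5]
            exact add_le_add h3 h4
        _ = 2 * 3 ^ d * C1 * (1 / g) := by ring
        _ ≤ C * (1 / g) := mul_le_mul_of_nonneg_right hCb (by positivity)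
    · intro p hp n hn u hu
      rw [mem_union, not_or] at hp
      have hmem : ∀ z : ℂ, z = ζ ∨ z = 1 → ∀ q : Fin d → ℕ, (∀ i, q i ≤ k) →
          ‖(1 / (n : ℂ)) * ∑ j ∈ Finset.range n, z ^ j *
          ((bxd l (fun i => 2 * π * (q i / k)) ((std l)^[j] p) : ℂ) -
          ((∏ i, (q i / k : ℝ) : ℝ) : ℂ))‖ ≤ 2 / g := by
        intro z hz q hq
        have hqS : q ∈ S := by
          rw [hS, Fintype.mem_piFinset]
          intro i
          exact Finset.mem_range.2 (Nat.lt_succ_of_le (hq i))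
        rcases hz with rfl | rfl
        · refine hEp z hζ q hq p (fun hpE => hp.1 ?_) n hn
          simp only [mem_iUnion]
          exact ⟨q, hqS, hpE⟩
        · refine hEp 1 h1n q hq p (fun hpE => hp.2 ?_) n hn
          simp only [mem_iUnion]
          exact ⟨q, hqS, hpE⟩
      have h6 := gridd d n k hk1 (fun u j => bxd l (fun i => 2 * π * u i) ((std l)^[j] p))
        (fun u v huv hv j => bxd_mono l (fun i => mul_le_mul_of_nonneg_left (huv i) hπ.le)
          (fun i => mul_le_of_le_one_right hπ.le (hv i)) _) ζ hζ (2 / g) hmem u hu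
      refine h6.trans ?_
      have e1 : 2 * (d : ℝ) / k ≤ 2 * d / g :=
        div_le_div_of_nonneg_left (by positivity) hg0 hkg
      calc 3 * (2 / g) + 2 * (d : ℝ) / k ≤ 3 * (2 / g) + 2 * d / g := by linarith
        _ = (6 + 2 * d) * (1 / g) := by ring
        _ ≤ C * (1 / g) := mul_le_mul_of_nonneg_right hCc (by positivity)

/-- Coarse Bernoulli behaviour: all products of arcs. -/
theorem coarse (d : ℕ) : ∀ l m : ℝ, 1 ≤ m → m ≤ l → ∀ ζ : ℂ, ‖ζ‖ = 1 →
    ∃ G : Set Torus, MeasurableSet G ∧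
    1 - 60 * 27 ^ d * m ^ (-(1 / (28 * (d + 1) * (d + 2))) : ℝ) ≤ lebT.real G ∧
    ∀ p ∈ G, ∀ n : ℕ, m ≤ n → ∀ s s' : Fin d → ℝ, (∀ i, s i ≤ s' i ∧ s' i ≤ s i + 2 * π) →
    ‖(1 / (n : ℂ)) * ∑ j ∈ Finset.range n, ζ ^ j *
      (((∏ i : Fin d, (arc (s i) (s' i)).indicator (fun _ => (1 : ℝ)) (((std l)^[j + i] p).2) : ℝ) :
        ℂ) - ((∏ i, ((s' i - s i) / (2 * π)) : ℝ) : ℂ))‖ ≤
      60 * 27 ^ d * m ^ (-(1 / (28 * (d + 1) * (d + 2))) : ℝ) := by
  intro l m hm hml ζ hζ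
  obtain ⟨E, hE, hEm, hEp⟩ := boxes d l m hm hml ζ hζ
  have hm0 : 0 < m := by linarith
  set δ : ℝ := 60 * 9 ^ d * m ^ (-(1 / (28 * (d + 1) * (d + 2))) : ℝ) with hδ
  have hδ0 : 0 ≤ δ := mul_nonneg (by positivity) (Real.rpow_nonneg hm0.le _)
  have h3 : 60 * 27 ^ d * m ^ (-(1 / (28 * (d + 1) * (d + 2))) : ℝ) = 3 ^ d * δ := by
    have : (27 : ℝ) ^ d = 3 ^ d * 9 ^ d := by
      rw [← mul_pow]
      norm_num
    rw [hδ, this]
    ring
  rw [h3]
  have h31 : δ ≤ 3 ^ d * δ := le_mul_of_one_le_left hδ0 (one_le_pow₀ (by norm_num))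
  refine ⟨Eᶜ, hE.compl, ?_, ?_⟩
  · rw [measureReal_compl hE, probReal_univ]
    linarith
  · intro p hp n hn s s' hs
    obtain ⟨w, u, hw, hu, h1, h2⟩ := arcd s s' (fun i => (hs i).1) fun i => (hs i).2
    have e : (1 / (n : ℂ)) * ∑ j ∈ Finset.range n, ζ ^ j *
      (((∏ i : Fin d, (arc (s i) (s' i)).indicator (fun _ => (1 : ℝ)) (((std l)^[j + i] p).2) : ℝ) :
        ℂ) - ((∏ i, ((s' i - s i) / (2 * π)) : ℝ) : ℂ)) =
        ∑ κ, (w κ : ℂ) * ((1 / (n : ℂ)) * ∑ j ∈ Finset.range n, ζ ^ j *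
      ((bxd l (fun i => 2 * π * u κ i) ((std l)^[j] p) : ℂ) - ((∏ i, u κ i : ℝ) : ℂ))) := by
      have e1 : ∀ j, ζ ^ j *
          (((∏ i : Fin d, (arc (s i) (s' i)).indicator (fun _ => (1 : ℝ))
            (((std l)^[j + i] p).2) : ℝ) : ℂ) - ((∏ i, ((s' i - s i) / (2 * π)) : ℝ) : ℂ)) =
          ∑ κ, (w κ : ℂ) * (ζ ^ j *
          ((bxd l (fun i => 2 * π * u κ i) ((std l)^[j] p) : ℂ) - ((∏ i, u κ i : ℝ) : ℂ))) := by
        intro j
        have e2 := h1 fun i => ((std l)^[j + i] p).2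
        rw [e2, h2, ← Complex.ofReal_sub, ← Finset.sum_sub_distrib, Complex.ofReal_sum,
          Finset.mul_sum]
        refine Finset.sum_congr rfl fun κ _ => ?_
        have e3 : ∏ i : Fin d, hh (2 * π * u κ i) (((std l)^[j + i] p).2) =
            bxd l (fun i => 2 * π * u κ i) ((std l)^[j] p) := by
          unfold bxd
          refine Finset.prod_congr rfl fun i _ => ?_
          rw [← Function.iterate_add_apply, add_comm j]
        rw [e3]
        push_cast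
        ring
      simp only [e1]
      rw [Finset.sum_comm, Finset.mul_sum]
      refine Finset.sum_congr rfl fun κ _ => ?_
      rw [← Finset.mul_sum]
      ring
    rw [e]
    refine (norm_sum_le _ _).trans ?_
    calc ∑ κ, ‖(w κ : ℂ) * ((1 / (n : ℂ)) * ∑ j ∈ Finset.range n, ζ ^ j *
      ((bxd l (fun i => 2 * π * u κ i) ((std l)^[j] p) : ℂ) - ((∏ i, u κ i : ℝ) : ℂ)))‖
        ≤ ∑ _κ : Fin d → Fin 3, δ := by
          refine Finset.sum_le_sum fun κ _ => ?_
          rw [norm_mul, Complex.norm_real, Real.norm_eq_abs]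
          calc |w κ| * _ ≤ 1 * _ := mul_le_mul_of_nonneg_right (hw κ) (norm_nonneg _)
            _ ≤ _ := by
              rw [one_mul]
              exact hEp p hp n hn (u κ) (hu κ)
      _ = 3 ^ d * δ := by
          rw [Finset.sum_const, Finset.card_univ, Fintype.card_fun, Fintype.card_fin,
            Fintype.card_fin, nsmul_eq_mul]
          push_cast
          ring

end Pool.Agent.SM
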