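import Mathlib

/-!
# The standard map: the weights (helper90)

The orbit `X 0 = y`, `X 1 = x`, `X (i+2) = 2 X (i+1) - X i + l sin (X (i+1))`, its derivatives `P`,
`Q` in `x`, and the smooth weights `V`, which make the integration by parts possible.
-/

set_option autoImplicit false

open Real

namespace Pool.Agent.SM

/-- The orbit. -/
noncomputable def X (l y x : ℝ) : ℕ → ℝ
  | 0 => y
  | 1 => x
  | i + 2 => 2 * X l y x (i + 1) - X l y x i + l * sin (X l y x (i + 1))

/-- The derivative of the orbit in `x`. -/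
noncomputable def P (l y x : ℝ) : ℕ → ℝ
  | 0 => 0
  | 1 => 1
  | i + 2 => (2 + l * cos (X l y x (i + 1))) * P l y x (i + 1) - P l y x i

/-- The second derivative of the orbit in `x`. -/
noncomputable def Q (l y x : ℝ) : ℕ → ℝ
  | 0 => 0
  | 1 => 0
  | i + 2 => (2 + l * cos (X l y x (i + 1))) * Q l y x (i + 1) -
      l * sin (X l y x (i + 1)) * P l y x (i + 1) ^ 2 - Q l y x i

variable {l y x K : ℝ}

theorem hasDerivAt_X (i : ℕ) : HasDerivAt (fun x => X l y x i) (P l y x i) x ∧
    HasDerivAt (fun x => X l y x (i + 1)) (P l y x (i + 1)) x := by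
  induction i with
  | zero => exact ⟨hasDerivAt_const x y, hasDerivAt_id x⟩
  | succ i ih =>
    refine ⟨ih.2, ?_⟩
    have h := ((ih.2.const_mul 2).sub ih.1).add ((ih.2.sin).const_mul l)
    refine h.congr_deriv ?_
    show _ = (2 + l * cos (X l y x (i + 1))) * P l y x (i + 1) - P l y x i
    ring

theorem hasDerivAt_P (i : ℕ) : HasDerivAt (fun x => P l y x i) (Q l y x i) x ∧
    HasDerivAt (fun x => P l y x (i + 1)) (Q l y x (i + 1)) x := by
  induction i with
  | zero => exact ⟨hasDerivAt_const x 0, hasDerivAt_const x 1⟩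
  | succ i ih =>
    refine ⟨ih.2, ?_⟩
    have hX := (hasDerivAt_X (l := l) (y := y) (x := x) i).2
    have h := ((((hX.cos).const_mul l).const_add 2).mul ih.2).sub ih.1
    refine h.congr_deriv ?_
    show _ = (2 + l * cos (X l y x (i + 1))) * Q l y x (i + 1) -
      l * sin (X l y x (i + 1)) * P l y x (i + 1) ^ 2 - Q l y x i
    ring

theorem X_add (i : ℕ) : X l y (x + 2 * π) i = X l y x i + (i : ℝ) * (2 * π) ∧
    X l y (x + 2 * π) (i + 1) = X l y x (i + 1) + ((i + 1 : ℕ) : ℝ) * (2 * π) := by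
  induction i with
  | zero =>
    constructor
    · show y = y + _
      simp
    · show x + 2 * π = x + _
      simp
  | succ i ih =>
    refine ⟨ih.2, ?_⟩
    show 2 * X l y (x + 2 * π) (i + 1) - X l y (x + 2 * π) i +
      l * sin (X l y (x + 2 * π) (i + 1)) =
      (2 * X l y x (i + 1) - X l y x i + l * sin (X l y x (i + 1))) + _
    rw [ih.1, ih.2, sin_add_nat_mul_two_pi]
    push_cast
    ring

theorem P_add (i : ℕ) : P l y (x + 2 * π) i = P l y x i ∧
    P l y (x + 2 * π) (i + 1) = P l y x (i + 1) := by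
  induction i with
  | zero => exact ⟨rfl, rfl⟩
  | succ i ih =>
    refine ⟨ih.2, ?_⟩
    show (2 + l * cos (X l y (x + 2 * π) (i + 1))) * P l y (x + 2 * π) (i + 1) -
      P l y (x + 2 * π) i = (2 + l * cos (X l y x (i + 1))) * P l y x (i + 1) - P l y x i
    rw [ih.1, ih.2, (X_add i).2, cos_add_nat_mul_two_pi]

theorem continuous_X (i : ℕ) : Continuous (fun p : ℝ × ℝ => X l p.1 p.2 i) ∧
    Continuous (fun p : ℝ × ℝ => X l p.1 p.2 (i + 1)) := by
  induction i with
  | zero => exact ⟨continuous_fst, continuous_snd⟩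
  | succ i ih =>
    refine ⟨ih.2, ?_⟩
    exact ((continuous_const.mul ih.2).sub ih.1).add (continuous_const.mul (continuous_sin.comp ih.2))

theorem continuous_P (i : ℕ) : Continuous (fun p : ℝ × ℝ => P l p.1 p.2 i) ∧
    Continuous (fun p : ℝ × ℝ => P l p.1 p.2 (i + 1)) := by
  induction i with
  | zero => exact ⟨continuous_const, continuous_const⟩
  | succ i ih =>
    refine ⟨ih.2, ?_⟩
    exact ((continuous_const.add (continuous_const.mul
      (continuous_cos.comp (continuous_X i).2))).mul ih.2).sub ih.1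

theorem continuous_Q (i : ℕ) : Continuous (fun p : ℝ × ℝ => Q l p.1 p.2 i) ∧
    Continuous (fun p : ℝ × ℝ => Q l p.1 p.2 (i + 1)) := by
  induction i with
  | zero => exact ⟨continuous_const, continuous_const⟩
  | succ i ih =>
    refine ⟨ih.2, ?_⟩
    exact (((continuous_const.add (continuous_const.mul
      (continuous_cos.comp (continuous_X i).2))).mul ih.2).sub
      ((continuous_const.mul (continuous_sin.comp (continuous_X i).2)).mul
        ((continuous_P i).2.pow 2))).sub ih.1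

theorem nondeg (i : ℕ) : P l y x i ≠ 0 ∨ P l y x (i + 1) ≠ 0 := by
  induction i with
  | zero => exact Or.inr one_ne_zero
  | succ i ih =>
    by_contra hcon
    push Not at hcon
    obtain ⟨h1, h2⟩ := hcon
    have h3 : (2 + l * cos (X l y x (i + 1))) * P l y x (i + 1) - P l y x i = 0 := h2
    rw [h1, mul_zero, zero_sub, neg_eq_zero] at h3
    rcases ih with h | h
    · exact h h3
    · exact h h1

/-- The Wronskian. -/
noncomputable def Om (l y x : ℝ) (i : ℕ) : ℝ :=
  Q l y x (i + 1) * P l y x i - P l y x (i + 1) * Q l y x i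

theorem Om_zero : Om l y x 0 = 0 := by
  show 0 * 0 - 1 * 0 = (0 : ℝ)
  ring

theorem Om_succ (i : ℕ) : Om l y x (i + 1) = Om l y x i -
    l * sin (X l y x (i + 1)) * P l y x (i + 1) ^ 3 := by
  show ((2 + l * cos (X l y x (i + 1))) * Q l y x (i + 1) -
      l * sin (X l y x (i + 1)) * P l y x (i + 1) ^ 2 - Q l y x i) * P l y x (i + 1) -
      ((2 + l * cos (X l y x (i + 1))) * P l y x (i + 1) - P l y x i) * Q l y x (i + 1) =
    (Q l y x (i + 1) * P l y x i - P l y x (i + 1) * Q l y x i) - _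
  ring

/-- `N i = P (i+1) ^ 2 + K ^ 2 P i ^ 2`. -/
noncomputable def N (K l y x : ℝ) (i : ℕ) : ℝ := P l y x (i + 1) ^ 2 + K ^ 2 * P l y x i ^ 2

theorem N_pos (hK : 0 < K) (i : ℕ) : 0 < N K l y x i := by
  unfold N
  rcases nondeg (l := l) (y := y) (x := x) i with h | h
  · have h1 : 0 < P l y x i ^ 2 := by positivity
    have h2 : 0 < K ^ 2 * P l y x i ^ 2 := by positivity
    have := sq_nonneg (P l y x (i + 1))
    linarith
  · have h1 : 0 < P l y x (i + 1) ^ 2 := by positivity
    have h2 : 0 ≤ K ^ 2 * P l y x i ^ 2 := by positivity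
    linarith

/-- One factor of the weight. -/
noncomputable def v (K l y x : ℝ) (i : ℕ) : ℝ := P l y x (i + 1) * P l y x i / N K l y x i

/-- Its derivative. -/
noncomputable def dv (K l y x : ℝ) (i : ℕ) : ℝ :=
  Om l y x i * (K ^ 2 * P l y x i ^ 2 - P l y x (i + 1) ^ 2) / N K l y x i ^ 2

/-- The weight. -/
noncomputable def V (K l y x : ℝ) : ℕ → ℝ
  | 0 => 1
  | m + 1 => V K l y x m * v K l y x (m + 1)

/-- The derivative of the weight. -/
noncomputable def dV (K l y x : ℝ) : ℕ → ℝ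
  | 0 => 0
  | m + 1 => dV K l y x m * v K l y x (m + 1) + V K l y x m * dv K l y x (m + 1)

theorem hasDerivAt_v (hK : 0 < K) (i : ℕ) :
    HasDerivAt (fun x => v K l y x i) (dv K l y x i) x := by
  obtain ⟨h1, h2⟩ := hasDerivAt_P (l := l) (y := y) (x := x) i
  have hN : HasDerivAt (fun x => N K l y x i) (2 * P l y x (i + 1) * Q l y x (i + 1) +
      K ^ 2 * (2 * P l y x i * Q l y x i)) x := by
    refine ((h2.pow 2).add ((h1.pow 2).const_mul (K ^ 2))).congr_deriv ?_
    simp
  have hN0 := (N_pos (l := l) (y := y) (x := x) hK i).ne'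
  refine ((h2.mul h1).div hN hN0).congr_deriv ?_
  unfold dv Om
  congr 1
  unfold N
  simp only [Pi.mul_apply]
  ring

theorem hasDerivAt_V (hK : 0 < K) (m : ℕ) :
    HasDerivAt (fun x => V K l y x m) (dV K l y x m) x := by
  induction m with
  | zero => exact hasDerivAt_const x 1
  | succ m ih => exact ih.mul (hasDerivAt_v hK (m + 1))

theorem V_add (m : ℕ) : V K l y (x + 2 * π) m = V K l y x m := by
  induction m with
  | zero => rfl
  | succ m ih =>
    show V K l y (x + 2 * π) m * v K l y (x + 2 * π) (m + 1) = V K l y x m * v K l y x (m + 1)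
    rw [ih]
    unfold v N
    rw [(P_add (m + 1)).1, (P_add (m + 1)).2]

theorem abs_v_le (hK : 0 < K) (i : ℕ) : |v K l y x i| ≤ 1 / (2 * K) := by
  have hN := N_pos (l := l) (y := y) (x := x) hK i
  unfold v
  rw [abs_div, abs_of_pos hN, div_le_div_iff₀ hN (by positivity), abs_mul, one_mul]
  unfold N
  nlinarith [sq_nonneg (|P l y x (i + 1)| - K * |P l y x i|), sq_abs (P l y x (i + 1)),
    sq_abs (P l y x i)]

theorem abs_dv_le (hK : 0 < K) (i : ℕ) : |dv K l y x i| ≤ |Om l y x i| / N K l y x i := by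
  have hN := N_pos (l := l) (y := y) (x := x) hK i
  unfold dv
  rw [abs_div, abs_mul, abs_of_pos (pow_pos hN 2), div_le_div_iff₀ (pow_pos hN 2) hN]
  have h1 : |K ^ 2 * P l y x i ^ 2 - P l y x (i + 1) ^ 2| ≤ N K l y x i := by
    unfold N
    rw [abs_le]
    constructor <;> nlinarith [sq_nonneg (K * P l y x i), sq_nonneg (P l y x (i + 1))]
  have h2 := mul_le_mul_of_nonneg_left h1 (abs_nonneg (Om l y x i))
  calc |Om l y x i| * |K ^ 2 * P l y x i ^ 2 - P l y x (i + 1) ^ 2| * N K l y x i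
      ≤ |Om l y x i| * N K l y x i * N K l y x i := mul_le_mul_of_nonneg_right h2 hN.le
    _ = |Om l y x i| * N K l y x i ^ 2 := by ring

/-- `V m P (m+1)` lies in `[0, 1]`. -/
theorem VP_mem (hK : 0 < K) (m : ℕ) :
    0 ≤ V K l y x m * P l y x (m + 1) ∧ V K l y x m * P l y x (m + 1) ≤ 1 := by
  induction m with
  | zero =>
    show 0 ≤ (1 : ℝ) * 1 ∧ (1 : ℝ) * 1 ≤ 1
    norm_num
  | succ m ih =>
    have hN := N_pos (l := l) (y := y) (x := x) hK (m + 1)
    have e : V K l y x (m + 1) * P l y x (m + 1 + 1) =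
        V K l y x m * P l y x (m + 1) * (P l y x (m + 1 + 1) ^ 2 / N K l y x (m + 1)) := by
      show V K l y x m * v K l y x (m + 1) * P l y x (m + 1 + 1) = _
      unfold v
      ring
    have h1 : 0 ≤ P l y x (m + 1 + 1) ^ 2 / N K l y x (m + 1) := by positivity
    have h2 : P l y x (m + 1 + 1) ^ 2 / N K l y x (m + 1) ≤ 1 := by
      rw [div_le_one hN]
      unfold N
      nlinarith [sq_nonneg (K * P l y x (m + 1))]
    rw [e]
    exact ⟨mul_nonneg ih.1 h1, mul_le_one₀ ih.2 h1 h2⟩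

theorem abs_V_le (hK : 1 ≤ K) (m : ℕ) : |V K l y x m| ≤ 1 := by
  induction m with
  | zero =>
    show |(1 : ℝ)| ≤ 1
    simp
  | succ m ih =>
    show |V K l y x m * v K l y x (m + 1)| ≤ 1
    rw [abs_mul]
    have h1 := abs_v_le (l := l) (y := y) (x := x) (zero_lt_one.trans_le hK) (m + 1)
    have h2 : 1 / (2 * K) ≤ 1 := by
      rw [div_le_one (by positivity)]
      linarith
    exact mul_le_one₀ ih (abs_nonneg _) (h1.trans h2)

/-- The elementary inequality behind the distortion estimate. -/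
theorem elem {Λ s t c : ℝ} (hK : 0 < K) (hΛ : 0 < Λ) (hKΛ : K ^ 2 ≤ Λ ^ 2) (h4 : 4 * Λ ≤ K ^ 2)
    (hc : |c| ≤ Λ) : |s * t| ≤ 1 / 2 * ((c * s - t) ^ 2 + K ^ 2 * s ^ 2) := by
  rw [abs_mul]
  have hs := abs_nonneg s
  have ht := abs_nonneg t
  have e1 : s ^ 2 = |s| ^ 2 := (sq_abs s).symm
  have e2 : (|t| - Λ * |s|) ≤ |c * s - t| := by
    have h1 : |t| ≤ |c * s| + |c * s - t| := by
      have := abs_sub_abs_le_abs_sub t (c * s)
      rw [abs_sub_comm] at this
      linarith
    rw [abs_mul] at h1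
    nlinarith
  rw [e1, ← sq_abs (c * s - t)]
  set a := |s|
  set b := |t|
  set d := |c * s - t|
  have hd : 0 ≤ d := abs_nonneg _
  by_cases hcase : b ≤ 2 * Λ * a
  · have h1 : a * b ≤ a * (2 * Λ * a) := mul_le_mul_of_nonneg_left hcase hs
    nlinarith [mul_nonneg hs hs, sq_nonneg d]
  · push Not at hcase
    have h2 : b / 2 ≤ d := by linarith
    have h3 : b ^ 2 / 4 ≤ d ^ 2 := by nlinarith
    -- 4 a b ≤ 2 b ^ 2 / Λ ≤ b ^ 2 / 2
    have hΛ4 : 4 ≤ Λ := by nlinarith
    have h4' : a ≤ b / (2 * Λ) := by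
      rw [le_div_iff₀ (by positivity)]
      linarith
    have h5 : a ≤ b / 8 := by
      refine h4'.trans ?_
      apply div_le_div_of_nonneg_left ht (by norm_num)
      linarith
    have h6 : a * b ≤ b ^ 2 / 8 := by nlinarith
    have h7 : 0 ≤ K ^ 2 * a ^ 2 := by positivity
    nlinarith

/-- The distortion estimate. -/
theorem key {Λ : ℝ} (hl : 0 < l) (hK : 0 < K) (hlΛ : l + 2 ≤ Λ) (hKΛ : K ^ 2 ≤ Λ ^ 2)
    (h4 : 4 * Λ ≤ K ^ 2) (m : ℕ) : ∀ c : ℝ, |c| ≤ Λ →
    |Om l y x (m + 1)| * |V K l y x m| ≤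
      2 * l / K ^ 2 * ((c * P l y x (m + 1) - P l y x m) ^ 2 + K ^ 2 * P l y x (m + 1) ^ 2) := by
  have hΛ : 0 < Λ := by linarith
  induction m with
  | zero =>
    intro c _
    have e1 : Om l y x 1 = -(l * sin x) := by
      rw [Om_succ, Om_zero]
      show 0 - l * sin x * 1 ^ 3 = _
      ring
    show |Om l y x 1| * |(1 : ℝ)| ≤ 2 * l / K ^ 2 * ((c * 1 - 0) ^ 2 + K ^ 2 * 1 ^ 2)
    rw [e1, abs_one, mul_one, abs_neg, abs_mul, abs_of_pos hl]
    have h1 : l * |sin x| ≤ l := mul_le_of_le_one_right hl.le (abs_sin_le_one x)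
    have h2 : 2 * l / K ^ 2 * ((c * 1 - 0) ^ 2 + K ^ 2 * 1 ^ 2) = 2 * l / K ^ 2 * c ^ 2 + 2 * l := by
      field_simp
      ring
    rw [h2]
    have : 0 ≤ 2 * l / K ^ 2 * c ^ 2 := by positivity
    linarith
  | succ m ih =>
    intro c hc
    have hN := N_pos (l := l) (y := y) (x := x) hK (m + 1)
    have hcm : |2 + l * cos (X l y x (m + 1))| ≤ Λ := by
      refine (abs_add_le _ _).trans ?_
      rw [abs_mul, abs_of_pos hl, abs_of_pos (by norm_num : (0 : ℝ) < 2)]
      have := mul_le_of_le_one_right hl.le (abs_cos_le_one (X l y x (m + 1)))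
      linarith
    have h1 := ih _ hcm
    have h1' : |Om l y x (m + 1)| * |V K l y x m| ≤ 2 * l / K ^ 2 * N K l y x (m + 1) := h1
    have hVP := VP_mem (l := l) (y := y) (x := x) hK (m + 1)
    set p := P l y x (m + 1 + 1) with hp
    set q := P l y x (m + 1) with hq
    -- first part
    have a1 : |l * sin (X l y x (m + 1 + 1)) * p ^ 3| * |V K l y x (m + 1)| ≤ l * p ^ 2 := by
      have e : |l * sin (X l y x (m + 1 + 1)) * p ^ 3| * |V K l y x (m + 1)| =
          l * |sin (X l y x (m + 1 + 1))| * (p ^ 2 * |V K l y x (m + 1) * p|) := by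
        rw [abs_mul, abs_mul, abs_mul, abs_of_pos hl, abs_pow, ← sq_abs p]
        ring
      rw [e, abs_of_nonneg hVP.1]
      have b1 : l * |sin (X l y x (m + 1 + 1))| ≤ l :=
        mul_le_of_le_one_right hl.le (abs_sin_le_one _)
      have b2 : p ^ 2 * (V K l y x (m + 1) * p) ≤ p ^ 2 :=
        mul_le_of_le_one_right (sq_nonneg _) hVP.2
      exact mul_le_mul b1 b2 (mul_nonneg (sq_nonneg _) hVP.1) hl.le
    -- second part
    have a2 : |Om l y x (m + 1)| * |V K l y x (m + 1)| ≤ 2 * l / K ^ 2 * |p * q| := by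
      have e : |V K l y x (m + 1)| = |V K l y x m| * (|p * q| / N K l y x (m + 1)) := by
        show |V K l y x m * v K l y x (m + 1)| = _
        rw [abs_mul]
        unfold v
        rw [abs_div, abs_of_pos hN]
      rw [e]
      calc |Om l y x (m + 1)| * (|V K l y x m| * (|p * q| / N K l y x (m + 1)))
          = (|Om l y x (m + 1)| * |V K l y x m|) * (|p * q| / N K l y x (m + 1)) := by ring
        _ ≤ (2 * l / K ^ 2 * N K l y x (m + 1)) * (|p * q| / N K l y x (m + 1)) :=
            mul_le_mul_of_nonneg_right h1' (by positivity)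
        _ = 2 * l / K ^ 2 * |p * q| := by
            field_simp
    have a3 := elem (s := p) (t := q) (c := c) hK hΛ hKΛ h4 hc
    have a4 : |Om l y x (m + 1 + 1)| ≤
        |Om l y x (m + 1)| + |l * sin (X l y x (m + 1 + 1)) * p ^ 3| := by
      rw [Om_succ]
      exact abs_sub _ _
    have hV0 := abs_nonneg (V K l y x (m + 1))
    have hlK : 0 ≤ 2 * l / K ^ 2 := by positivity
    have a5 : l * p ^ 2 = 2 * l / K ^ 2 * (1 / 2 * (K ^ 2 * p ^ 2)) := by
      field_simp
    have a6 := mul_le_mul_of_nonneg_left a3 hlK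
    have a7 : 0 ≤ (c * p - q) ^ 2 := sq_nonneg _
    calc |Om l y x (m + 1 + 1)| * |V K l y x (m + 1)|
        ≤ (|Om l y x (m + 1)| + |l * sin (X l y x (m + 1 + 1)) * p ^ 3|) *
          |V K l y x (m + 1)| := mul_le_mul_of_nonneg_right a4 hV0
      _ ≤ 2 * l / K ^ 2 * |p * q| + l * p ^ 2 := by
          rw [add_mul]
          linarith
      _ ≤ 2 * l / K ^ 2 * (1 / 2 * ((c * p - q) ^ 2 + K ^ 2 * p ^ 2)) +
          2 * l / K ^ 2 * (1 / 2 * (K ^ 2 * p ^ 2)) := by
          rw [a5]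
          linarith
      _ ≤ 2 * l / K ^ 2 * ((c * p - q) ^ 2 + K ^ 2 * p ^ 2) := by
          have : 0 ≤ 2 * l / K ^ 2 * (1 / 2 * (c * p - q) ^ 2) := by positivity
          nlinarith

/-- The weight has a small derivative. -/
theorem abs_dV_le {Λ : ℝ} (hl : 0 < l) (hK : 1 ≤ K) (hlΛ : l + 2 ≤ Λ) (hKΛ : K ^ 2 ≤ Λ ^ 2)
    (h4 : 4 * Λ ≤ K ^ 2) (m : ℕ) : |dV K l y x m| ≤ 4 * l / K ^ 2 := by
  have hK0 : 0 < K := zero_lt_one.trans_le hK
  induction m with
  | zero =>
    show |(0 : ℝ)| ≤ _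
    rw [abs_zero]
    positivity
  | succ m ih =>
    have hN := N_pos (l := l) (y := y) (x := x) hK0 (m + 1)
    have hcm : |2 + l * cos (X l y x (m + 1))| ≤ Λ := by
      refine (abs_add_le _ _).trans ?_
      rw [abs_mul, abs_of_pos hl, abs_of_pos (by norm_num : (0 : ℝ) < 2)]
      have := mul_le_of_le_one_right hl.le (abs_cos_le_one (X l y x (m + 1)))
      linarith
    have h1 : |Om l y x (m + 1)| * |V K l y x m| ≤ 2 * l / K ^ 2 * N K l y x (m + 1) :=
      key hl hK0 hlΛ hKΛ h4 m _ hcm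
    show |dV K l y x m * v K l y x (m + 1) + V K l y x m * dv K l y x (m + 1)| ≤ _
    have h2 : |dV K l y x m * v K l y x (m + 1)| ≤ 4 * l / K ^ 2 * (1 / 2) := by
      rw [abs_mul]
      have h3 := abs_v_le (l := l) (y := y) (x := x) hK0 (m + 1)
      have h4 : 1 / (2 * K) ≤ 1 / 2 := by
        apply div_le_div_of_nonneg_left (by norm_num) (by norm_num)
        linarith
      exact mul_le_mul ih (h3.trans h4) (abs_nonneg _) (by positivity)
    have h3 : |V K l y x m * dv K l y x (m + 1)| ≤ 2 * l / K ^ 2 := by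
      rw [abs_mul]
      calc |V K l y x m| * |dv K l y x (m + 1)|
          ≤ |V K l y x m| * (|Om l y x (m + 1)| / N K l y x (m + 1)) :=
            mul_le_mul_of_nonneg_left (abs_dv_le hK0 (m + 1)) (abs_nonneg _)
        _ = (|Om l y x (m + 1)| * |V K l y x m|) / N K l y x (m + 1) := by ring
        _ ≤ 2 * l / K ^ 2 := by
            rw [div_le_iff₀ hN]
            exact h1
    have h5 := abs_add_le (dV K l y x m * v K l y x (m + 1)) (V K l y x m * dv K l y x (m + 1))
    have h6 : 4 * l / K ^ 2 * (1 / 2) = 2 * l / K ^ 2 := by ring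
    have h7 : 4 * l / K ^ 2 = 2 * (2 * l / K ^ 2) := by ring
    linarith

end Pool.Agent.SM
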