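import Mathlib

/-!
# The standard map: the critical strips (helper90)
-/

set_option autoImplicit false

open Real MeasureTheory Set

namespace Pool.Agent.SM

/-- In `(0, 2 π]` the set `|cos x| ≤ δ` is contained in two intervals. -/
theorem cos_sub (δ : ℝ) : {x : ℝ | x ∈ Ioc 0 (2 * π) ∧ |cos x| ≤ δ} ⊆
    Icc (π / 2 - π / 2 * δ) (π / 2 + π / 2 * δ) ∪
      Icc (3 * π / 2 - π / 2 * δ) (3 * π / 2 + π / 2 * δ) := by
  have hπ := Real.pi_pos
  -- basic inequality on a quarter
  have key : ∀ u : ℝ, 0 ≤ u → u ≤ π / 2 → cos u ≤ δ → π / 2 - π / 2 * δ ≤ u := by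
    intro u h0 h1 h2
    have h3 := Real.one_sub_mul_le_cos h0 h1
    have h4 : 1 - 2 / π * u ≤ δ := h3.trans h2
    have h5 : 2 / π * u * (π / 2) = u := by
      field_simp
    nlinarith
  rintro x ⟨⟨hx0, hx1⟩, hx⟩
  obtain ⟨hxl, hxr⟩ := abs_le.1 hx
  rcases le_or_gt x (π / 2) with a | a
  · -- first quarter
    left
    have := key x hx0.le a hxr
    exact ⟨this, by nlinarith⟩
  · rcases le_or_gt x π with b | b
    · left
      have h1 : cos (π - x) ≤ δ := by
        rw [cos_pi_sub]
        linarith
      have := key (π - x) (by linarith) (by linarith) h1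
      exact ⟨by nlinarith, by linarith⟩
    · rcases le_or_gt x (3 * π / 2) with c | c
      · right
        have h1 : cos (x - π) ≤ δ := by
          rw [cos_sub_pi]
          linarith
        have := key (x - π) (by linarith) (by linarith) h1
        exact ⟨by linarith, by nlinarith⟩
      · right
        have h1 : cos (2 * π - x) ≤ δ := by
          rw [cos_two_pi_sub]
          exact hxr
        have := key (2 * π - x) (by linarith) (by linarith) h1
        exact ⟨by nlinarith, by linarith⟩

theorem vol_cos (δ : ℝ) (hδ : 0 ≤ δ) :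
    (volume {x : ℝ | x ∈ Ioc 0 (2 * π) ∧ |cos x| ≤ δ}).toReal ≤ 2 * π * δ := by
  have hπ := Real.pi_pos
  have h1 := measure_mono (μ := volume) (cos_sub δ)
  have h2 := h1.trans (measure_union_le _ _)
  rw [Real.volume_Icc, Real.volume_Icc] at h2
  have e1 : π / 2 + π / 2 * δ - (π / 2 - π / 2 * δ) = π * δ := by ring
  have e2 : 3 * π / 2 + π / 2 * δ - (3 * π / 2 - π / 2 * δ) = π * δ := by ring
  rw [e1, e2, ← ENNReal.ofReal_add (by positivity) (by positivity)] at h2
  have h3 := ENNReal.toReal_mono ENNReal.ofReal_ne_top h2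
  rw [ENNReal.toReal_ofReal (by positivity)] at h3
  linarith

end Pool.Agent.SM
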