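import Mathlib

/-!
# Row INV of project SM: the standard map preserves Lebesgue measure on the torus
-/

set_option autoImplicit false

open Real MeasureTheory Set

namespace Pool.Agent.SM

private theorem intOn (G : ℝ × ℝ → ℂ) (hG : Measurable G) (B : ℝ) (hB : ∀ p, ‖G p‖ ≤ B) :
    IntegrableOn G (Ioc 0 (2 * π) ×ˢ Ioc 0 (2 * π)) (volume.prod volume) := by
  have hfin : (volume.prod volume) (Ioc (0 : ℝ) (2 * π) ×ˢ Ioc (0 : ℝ) (2 * π)) < ⊤ := by
    rw [Measure.prod_prod]
    simp only [Real.volume_Ioc]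
    exact ENNReal.mul_lt_top ENNReal.ofReal_lt_top ENNReal.ofReal_lt_top
  exact Measure.integrableOn_of_bounded (M := B) hfin.ne hG.aestronglyMeasurable
    (Filter.Eventually.of_forall hB)

private theorem inner (G : ℝ → ℂ) (hG : Function.Periodic G (2 * π)) (c : ℝ) :
    ∫ y in Ioc 0 (2 * π), G (c - y) = ∫ u in Ioc 0 (2 * π), G u := by
  have h0 : (0 : ℝ) ≤ 2 * π := by positivity
  rw [← intervalIntegral.integral_of_le h0, ← intervalIntegral.integral_of_le h0,
    intervalIntegral.integral_comp_sub_left]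
  have := hG.intervalIntegral_add_eq (c - 2 * π) 0
  simpa using this

/-- Row INV (file SM/Inv.lean). The standard map preserves Lebesgue measure on the torus. -/
theorem inv_T (l : ℝ) (F : ℝ × ℝ → ℂ) (hF : Measurable F) (hb : ∃ B : ℝ, ∀ p, ‖F p‖ ≤ B)
    (h1 : ∀ x y, F (x + 2 * π, y) = F (x, y)) (h2 : ∀ x y, F (x, y + 2 * π) = F (x, y)) :
    ∫ p in Ioc 0 (2 * π) ×ˢ Ioc 0 (2 * π), F (2 * p.1 - p.2 + l * sin p.1, p.1) =
      ∫ p in Ioc 0 (2 * π) ×ˢ Ioc 0 (2 * π), F p := by
  obtain ⟨B, hB⟩ := hb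
  have _ := h2
  have hm : Measurable fun p : ℝ × ℝ => F (2 * p.1 - p.2 + l * sin p.1, p.1) := by
    apply hF.comp
    fun_prop
  rw [Measure.volume_eq_prod, setIntegral_prod _ (intOn _ hm B fun p => hB _)]
  have e : ∀ x : ℝ, ∫ y in Ioc 0 (2 * π), F (2 * x - y + l * sin x, x) =
      ∫ u in Ioc 0 (2 * π), F (u, x) := by
    intro x
    have := inner (fun u => F (u, x)) (fun u => h1 u x) (2 * x + l * sin x)
    rw [← this]
    congr 1
    funext y
    congr 2
    ring
  simp only [e]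
  have hs : Measurable fun p : ℝ × ℝ => F p.swap := hF.comp measurable_swap
  have := setIntegral_prod (μ := (volume : Measure ℝ)) (ν := (volume : Measure ℝ))
    (s := Ioc 0 (2 * π)) (t := Ioc 0 (2 * π)) (fun p : ℝ × ℝ => F p.swap)
    (intOn _ hs B fun p => hB _)
  simp only [Prod.swap_prod_mk] at this
  rw [← this]
  exact setIntegral_prod_swap _ _ F

end Pool.Agent.SM
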