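import Pool.Agent.Lib.SM.Bad
import Pool.Agent.Lib.SM.Inv
import Pool.Agent.Lib.SM.Cos

/-!
# The standard map: correlations of characters (helper90)
-/

set_option autoImplicit false

open Real MeasureTheory Set

namespace Pool.Agent.SM

/-- The fundamental domain. -/
def Qd : Set (ℝ × ℝ) := Ioc 0 (2 * π) ×ˢ Ioc 0 (2 * π)

theorem vol_Ioc : (volume (Ioc (0 : ℝ) (2 * π))).toReal = 2 * π := by
  rw [Real.volume_Ioc, sub_zero, ENNReal.toReal_ofReal two_pi_pos.le]

theorem vol_Qd : (volume Qd).toReal = (2 * π) ^ 2 := by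
  unfold Qd
  rw [Measure.volume_eq_prod, Measure.prod_prod, ENNReal.toReal_mul, vol_Ioc]
  ring

theorem vol_Qd_lt : volume Qd < ⊤ := by
  unfold Qd
  rw [Measure.volume_eq_prod, Measure.prod_prod]
  simp only [Real.volume_Ioc]
  exact ENNReal.mul_lt_top ENNReal.ofReal_lt_top ENNReal.ofReal_lt_top

theorem intOn_Qd {E : Type*} [NormedAddCommGroup E] (G : ℝ × ℝ → E)
    (hG : AEStronglyMeasurable G volume) (B : ℝ) (hB : ∀ p, ‖G p‖ ≤ B) :
    IntegrableOn G Qd :=
  Measure.integrableOn_of_bounded (M := B) vol_Qd_lt.ne hG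
    (Filter.Eventually.of_forall hB)

theorem norm_int_Qd_le (G : ℝ × ℝ → ℂ) (B : ℝ) (hB : ∀ p, ‖G p‖ ≤ B) :
    ‖∫ p in Qd, G p‖ ≤ (2 * π) ^ 2 * B := by
  have h := norm_setIntegral_le_of_norm_le_const (μ := volume) (s := Qd) (C := B) vol_Qd_lt
    (f := G) (fun p _ => hB p)
  have e : volume.real Qd = (2 * π) ^ 2 := vol_Qd
  rw [e] at h
  linarith

/-! ## The orbit from the next point -/

theorem X_shift (l y x : ℝ) (i : ℕ) :
    X l x (2 * x - y + l * sin x) i = X l y x (i + 1) ∧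
    X l x (2 * x - y + l * sin x) (i + 1) = X l y x (i + 2) := by
  induction i with
  | zero => exact ⟨rfl, rfl⟩
  | succ i ih =>
    refine ⟨ih.2, ?_⟩
    show 2 * X l x (2 * x - y + l * sin x) (i + 1) - X l x (2 * x - y + l * sin x) i +
      l * sin (X l x (2 * x - y + l * sin x) (i + 1)) =
      2 * X l y x (i + 2) - X l y x (i + 1) + l * sin (X l y x (i + 2))
    rw [ih.1, ih.2]

theorem X_add_left (l y x : ℝ) (i : ℕ) :
    (∃ n : ℤ, X l (y + 2 * π) x i = X l y x i + n * (2 * π)) ∧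
    ∃ n : ℤ, X l (y + 2 * π) x (i + 1) = X l y x (i + 1) + n * (2 * π) := by
  induction i with
  | zero =>
    refine ⟨⟨1, ?_⟩, ⟨0, ?_⟩⟩
    · show y + 2 * π = y + _
      simp
    · show x = x + _
      simp
  | succ i ih =>
    refine ⟨ih.2, ?_⟩
    obtain ⟨⟨n, hn⟩, ⟨n', hn'⟩⟩ := ih
    refine ⟨2 * n' - n, ?_⟩
    show 2 * X l (y + 2 * π) x (i + 1) - X l (y + 2 * π) x i +
      l * sin (X l (y + 2 * π) x (i + 1)) =
      (2 * X l y x (i + 1) - X l y x i + l * sin (X l y x (i + 1))) + _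
    rw [hn, hn', sin_add_int_mul_two_pi]
    push_cast
    ring

/-- A function of one coordinate of an iterate. -/
theorem int_orbit (l : ℝ) (g : ℝ → ℂ) (hg : Measurable g) (hb : ∀ x, ‖g x‖ ≤ 1)
    (hper : ∀ x, g (x + 2 * π) = g x) (i : ℕ) :
    ∫ p in Qd, g (X l p.2 p.1 (i + 1)) = ∫ p in Qd, g p.1 := by
  have hperZ : ∀ (x : ℝ) (n : ℤ), g (x + n * (2 * π)) = g x := by
    intro x n
    have h : Function.Periodic g (2 * π) := hper
    exact h.int_mul n x
  induction i with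
  | zero => rfl
  | succ i ih =>
    rw [← ih]
    have hm : Measurable fun p : ℝ × ℝ => g (X l p.2 p.1 (i + 1)) := by
      apply hg.comp
      exact ((continuous_X (l := l) i).2.comp continuous_swap).measurable
    have h := inv_T l (fun p => g (X l p.2 p.1 (i + 1))) hm ⟨1, fun p => hb _⟩ (by
      intro x y
      show g (X l y (x + 2 * π) (i + 1)) = g (X l y x (i + 1))
      rw [(X_add i).2]
      exact_mod_cast hperZ _ ((i + 1 : ℕ) : ℤ)) (by
      intro x y
      show g (X l (y + 2 * π) x (i + 1)) = g (X l y x (i + 1))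
      obtain ⟨n, hn⟩ := (X_add_left l y x i).2
      rw [hn, hperZ])
    rw [← Qd] at h
    refine Eq.trans ?_ h
    congr 1
    funext p
    show g (X l p.2 p.1 (i + 1 + 1)) = g (X l p.1 (2 * p.1 - p.2 + l * sin p.1) (i + 1))
    rw [(X_shift l p.2 p.1 i).2]

theorem int_ind (l δ : ℝ) (hδ : 0 ≤ δ) (i : ℕ) :
    ∫ p in Qd, ind δ (X l p.2 p.1 (i + 1)) ≤ (2 * π) ^ 2 * δ := by
  have hmi : Measurable (ind δ) := by
    unfold ind
    exact Measurable.ite (measurableSet_le (by fun_prop) measurable_const) measurable_const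
      measurable_const
  have h1 : ((∫ p in Qd, ind δ (X l p.2 p.1 (i + 1)) : ℝ) : ℂ) =
      ((∫ p in Qd, ind δ p.1 : ℝ) : ℂ) := by
    rw [← integral_complex_ofReal, ← integral_complex_ofReal]
    refine int_orbit l (fun x => (ind δ x : ℂ)) (Complex.measurable_ofReal.comp hmi) ?_ ?_ i
    · intro x
      rw [Complex.norm_real]
      unfold ind
      split_ifs <;> norm_num
    · intro x
      unfold ind
      rw [cos_add_two_pi]
  have h2 : ∫ p in Qd, ind δ (X l p.2 p.1 (i + 1)) = ∫ p in Qd, ind δ p.1 := by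
    exact_mod_cast h1
  rw [h2]
  have h3 : ∫ p in Qd, ind δ p.1 = (∫ x in Ioc 0 (2 * π), ind δ x) * (2 * π) := by
    unfold Qd
    rw [Measure.volume_eq_prod]
    have := setIntegral_prod_mul (μ := (volume : Measure ℝ)) (ν := (volume : Measure ℝ))
      (fun x => ind δ x) (fun _ : ℝ => (1 : ℝ)) (Ioc 0 (2 * π)) (Ioc 0 (2 * π))
    simp only [mul_one] at this
    rw [this]
    congr 1
    rw [setIntegral_const, smul_eq_mul, mul_one]
    exact vol_Ioc
  have h4 : ∫ x in Ioc 0 (2 * π), ind δ x ≤ 2 * π * δ := by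
    have e : ∀ x, ind δ x = {x : ℝ | |cos x| ≤ δ}.indicator (fun _ => (1 : ℝ)) x := by
      intro x
      unfold ind
      rw [indicator_apply]
      rfl
    simp only [e]
    have hms : MeasurableSet {x : ℝ | |cos x| ≤ δ} :=
      measurableSet_le (by fun_prop) measurable_const
    rw [setIntegral_indicator hms, setIntegral_const, smul_eq_mul, mul_one]
    exact vol_cos δ hδ
  rw [h3]
  have := mul_le_mul_of_nonneg_right h4 two_pi_pos.le
  nlinarith

/-- The basic integral. -/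
theorem basic {A B c d : ℤ} {l K Λ δ : ℝ} (hA : A ≠ 0) (hl : 0 < l) (hK : 1 ≤ K)
    (hlΛ : l + 2 + |(B : ℝ)| ≤ Λ) (hKΛ : K ^ 2 ≤ Λ ^ 2) (h4 : 4 * Λ ≤ K ^ 2) (hδ : 0 < δ)
    (hlδ : 2 * (3 + |(B : ℝ)|) ≤ l * δ) (m : ℕ) :
    ‖∫ p in Qd, Complex.exp (Complex.I * (ph A B c l p.2 p.1 m : ℝ)) *
      Complex.exp (Complex.I * ((-(d * p.2) : ℝ) : ℂ))‖ ≤
      (2 * π) ^ 2 * (|(c : ℝ)| * (1 / (2 * K)) + 4 * |(A : ℝ)| * l / K ^ 2 +
        (m + 1) * (1 / K ^ 2 + 4 * K ^ 2 / (l * δ) ^ 2 + δ)) := by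
  have hK0 : 0 < K := zero_lt_one.trans_le hK
  have hA1 : (1 : ℝ) ≤ |(A : ℝ)| := by
    rw [← Int.cast_abs]
    exact_mod_cast Int.one_le_abs hA
  have hA0 : (A : ℝ) ≠ 0 := Int.cast_ne_zero.2 hA
  have cph : Continuous fun p : ℝ × ℝ => ph A B c l p.2 p.1 m := by
    have := (continuous_ph A B c l m).comp continuous_swap
    exact this
  have ch : Continuous fun p : ℝ × ℝ => h A B K l p.2 p.1 m := by
    have := (continuous_h (A := (A : ℝ)) (B := (B : ℝ)) (K := K) (l := l) hK0 hA0 m).comp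
      continuous_swap
    exact this
  have cpt : Continuous fun p : ℝ × ℝ => pt A B l p.2 p.1 m := by
    have := (continuous_pt (A := (A : ℝ)) (B := (B : ℝ)) (l := l) m).comp continuous_swap
    exact this
  set w : ℝ × ℝ → ℝ := fun p => h A B K l p.2 p.1 m * pt A B l p.2 p.1 m with hw
  have cw : Continuous w := ch.mul cpt
  have w01 : ∀ p, 0 ≤ w p ∧ w p ≤ 1 := fun p =>
    hpt_mem (A := (A : ℝ)) (B := (B : ℝ)) (K := K) (l := l) (y := p.2) (x := p.1) hK0 hA0 m
  set E : ℝ × ℝ → ℂ := fun p => Complex.exp (Complex.I * (ph A B c l p.2 p.1 m : ℝ)) with hE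
  set D : ℝ × ℝ → ℂ := fun p => Complex.exp (Complex.I * ((-(d * p.2) : ℝ) : ℂ)) with hD
  have cE : Continuous E := by
    rw [hE]
    fun_prop
  have cD : Continuous D := by
    rw [hD]
    fun_prop
  have nE : ∀ p, ‖E p‖ = 1 := by
    intro p
    rw [hE]
    simp only
    rw [mul_comm]
    exact Complex.norm_exp_ofReal_mul_I _
  have nD : ∀ p, ‖D p‖ = 1 := by
    intro p
    rw [hD]
    simp only
    rw [mul_comm]
    exact Complex.norm_exp_ofReal_mul_I _
  have i1 : IntegrableOn (fun p => E p * D p * ((w p : ℝ) : ℂ)) Qd := by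
    refine intOn_Qd _ (by fun_prop) 1 fun p => ?_
    rw [norm_mul, norm_mul, nE, nD, Complex.norm_real, Real.norm_eq_abs,
      abs_of_nonneg (w01 p).1]
    simpa using (w01 p).2
  have i2 : IntegrableOn (fun p => E p * D p * ((1 - w p : ℝ) : ℂ)) Qd := by
    refine intOn_Qd _ (by fun_prop) 1 fun p => ?_
    rw [norm_mul, norm_mul, nE, nD, Complex.norm_real, Real.norm_eq_abs,
      abs_of_nonneg (by linarith [(w01 p).2])]
    simpa using (w01 p).1
  have hsum : ∫ p in Qd, E p * D p = (∫ p in Qd, E p * D p * ((w p : ℝ) : ℂ)) +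
      ∫ p in Qd, E p * D p * ((1 - w p : ℝ) : ℂ) := by
    rw [← integral_add i1 i2]
    congr 1
    funext p
    push_cast
    ring
  rw [hsum]
  -- first part
  have p1 : ‖∫ p in Qd, E p * D p * ((w p : ℝ) : ℂ)‖ ≤ (2 * π) ^ 2 *
      (|(c : ℝ)| * (1 / (2 * K)) + 4 * |(A : ℝ)| * l / K ^ 2) := by
    have e1 : ∫ p in Qd, E p * D p * ((w p : ℝ) : ℂ) =
        ∫ y in Ioc 0 (2 * π), ∫ x in Ioc 0 (2 * π), E (x, y) * D (x, y) * ((w (x, y) : ℝ) : ℂ) := by
      have i1' := i1
      unfold Qd at i1' ⊢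
      rw [Measure.volume_eq_prod] at i1' ⊢
      unfold IntegrableOn at i1'
      rw [← Measure.prod_restrict] at i1' ⊢
      exact integral_prod_symm _ i1'
    rw [e1]
    have e2 : ∀ y ∈ Ioc (0 : ℝ) (2 * π),
        ‖∫ x in Ioc 0 (2 * π), E (x, y) * D (x, y) * ((w (x, y) : ℝ) : ℂ)‖ ≤
        2 * π * (|(c : ℝ)| * (1 / (2 * K)) + 4 * |(A : ℝ)| * l / K ^ 2) := by
      intro y _
      have e3 : ∫ x in Ioc 0 (2 * π), E (x, y) * D (x, y) * ((w (x, y) : ℝ) : ℂ) =
          D (0, y) * ∫ x in (0 : ℝ)..(2 * π), Complex.exp (Complex.I * (ph A B c l y x m : ℝ)) *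
            ((h A B K l y x m * pt A B l y x m : ℝ) : ℂ) := by
        rw [intervalIntegral.integral_of_le two_pi_pos.le, ← integral_const_mul]
        congr 1
        funext x
        show E (x, y) * D (0, y) * ((w (x, y) : ℝ) : ℂ) = D (0, y) * (E (x, y) * ((w (x, y) : ℝ) : ℂ))
        ring
      rw [e3, norm_mul, nD, one_mul]
      exact osc hA hl hK hlΛ hKΛ h4 m
    have e4 := norm_setIntegral_le_of_norm_le_const (μ := (volume : Measure ℝ))
      (s := Ioc (0 : ℝ) (2 * π)) (by rw [Real.volume_Ioc]; exact ENNReal.ofReal_lt_top) e2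
    have e5 : volume.real (Ioc (0 : ℝ) (2 * π)) = 2 * π := vol_Ioc
    rw [e5] at e4
    refine e4.trans (le_of_eq ?_)
    ring
  -- second part
  have p2 : ‖∫ p in Qd, E p * D p * ((1 - w p : ℝ) : ℂ)‖ ≤ (2 * π) ^ 2 *
      ((m + 1) * (1 / K ^ 2 + 4 * K ^ 2 / (l * δ) ^ 2 + δ)) := by
    refine (norm_integral_le_integral_norm _).trans ?_
    have e1 : ∀ p, ‖E p * D p * ((1 - w p : ℝ) : ℂ)‖ = 1 - w p := by
      intro p
      rw [norm_mul, norm_mul, nE, nD, Complex.norm_real, Real.norm_eq_abs,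
        abs_of_nonneg (by linarith [(w01 p).2])]
      ring
    simp only [e1]
    have hmi : Measurable (ind δ) := by
      unfold ind
      exact Measurable.ite (measurableSet_le (by fun_prop) measurable_const) measurable_const
        measurable_const
    have iI : ∀ i : ℕ, IntegrableOn (fun p : ℝ × ℝ => ind δ (X l p.2 p.1 (i + 1))) Qd := by
      intro i
      refine intOn_Qd _ ?_ 1 fun p => ?_
      · exact (hmi.comp ((continuous_X (l := l) i).2.comp
          continuous_swap).measurable).aestronglyMeasurable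
      · unfold ind
        split_ifs <;> norm_num
    set a : ℝ := (m + 1) * (1 / K ^ 2 + 4 * K ^ 2 / (l * δ) ^ 2) with ha
    have iS : IntegrableOn (fun p : ℝ × ℝ => a +
        ∑ i ∈ Finset.range (m + 1), ind δ (X l p.2 p.1 (i + 1))) Qd := by
      refine Integrable.add ?_ ?_
      · exact intOn_Qd _ aestronglyMeasurable_const |a| fun p => le_rfl
      · exact integrable_finsetSum _ fun i _ => iI i
    have e2 : ∫ p in Qd, (1 - w p) ≤ ∫ p in Qd, (a +
        ∑ i ∈ Finset.range (m + 1), ind δ (X l p.2 p.1 (i + 1))) := by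
      refine integral_mono ?_ iS fun p => ?_
      · refine intOn_Qd _ (by fun_prop) 1 fun p => ?_
        rw [Real.norm_eq_abs, abs_of_nonneg (by linarith [(w01 p).2])]
        linarith [(w01 p).1]
      · exact one_sub_hpt (A := (A : ℝ)) (B := (B : ℝ)) (K := K) (l := l) (y := p.2) (x := p.1)
          hl hK0 hδ hA1 hlδ m
    refine e2.trans ?_
    rw [integral_add (intOn_Qd _ aestronglyMeasurable_const |a| fun p => le_rfl)
      (integrable_finsetSum _ fun i _ => iI i), integral_finsetSum _ fun i _ => iI i,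
      setIntegral_const, smul_eq_mul]
    have e5 : volume.real Qd = (2 * π) ^ 2 := vol_Qd
    rw [e5]
    have e6 : ∑ i ∈ Finset.range (m + 1), ∫ p in Qd, ind δ (X l p.2 p.1 (i + 1)) ≤
        ∑ _i ∈ Finset.range (m + 1), (2 * π) ^ 2 * δ :=
      Finset.sum_le_sum fun i _ => int_ind l δ hδ.le i
    rw [Finset.sum_const, Finset.card_range, nsmul_eq_mul] at e6
    push_cast at e6
    rw [ha]
    linarith
  refine (norm_add_le _ _).trans ?_
  linarith

end Pool.Agent.SM
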