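import Pool.Agent.Lib.SM.Core

/-!
# The standard map: integration by parts (helper90)
-/

set_option autoImplicit false

open Real

namespace Pool.Agent.SM

variable {l y x K A B : ℝ}

/-- The derivative of the phase `A X (m+2) + B X (m+1)`. -/
noncomputable def pt (A B l y x : ℝ) (m : ℕ) : ℝ := A * P l y x (m + 2) + B * P l y x (m + 1)

/-- The denominator of the last factor. -/
noncomputable def Nt (A B K l y x : ℝ) (m : ℕ) : ℝ :=
  pt A B l y x m ^ 2 + K ^ 2 * P l y x (m + 1) ^ 2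

/-- The last factor. -/
noncomputable def vt (A B K l y x : ℝ) (m : ℕ) : ℝ :=
  pt A B l y x m * P l y x (m + 1) / Nt A B K l y x m

/-- Its derivative. -/
noncomputable def dvt (A B K l y x : ℝ) (m : ℕ) : ℝ :=
  A * Om l y x (m + 1) * (K ^ 2 * P l y x (m + 1) ^ 2 - pt A B l y x m ^ 2) /
    Nt A B K l y x m ^ 2

/-- The whole weight. -/
noncomputable def h (A B K l y x : ℝ) (m : ℕ) : ℝ := V K l y x m * vt A B K l y x m

/-- Its derivative. -/
noncomputable def dh (A B K l y x : ℝ) (m : ℕ) : ℝ :=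
  dV K l y x m * vt A B K l y x m + V K l y x m * dvt A B K l y x m

theorem pt_eq (hA : A ≠ 0) (m : ℕ) : pt A B l y x m =
    A * ((2 + l * cos (X l y x (m + 1)) + B / A) * P l y x (m + 1) - P l y x m) := by
  show A * ((2 + l * cos (X l y x (m + 1))) * P l y x (m + 1) - P l y x m) +
    B * P l y x (m + 1) = _
  field_simp
  ring

theorem Nt_pos (hK : 0 < K) (hA : A ≠ 0) (m : ℕ) : 0 < Nt A B K l y x m := by
  unfold Nt
  by_cases h1 : P l y x (m + 1) = 0
  · have h2 := (nondeg (l := l) (y := y) (x := x) m).resolve_right (not_not.2 h1)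
    rw [pt_eq hA, h1]
    have : A * ((2 + l * cos (X l y x (m + 1)) + B / A) * 0 - P l y x m) ≠ 0 := by
      simp [hA, h2]
    positivity
  · positivity

theorem hasDerivAt_vt (hK : 0 < K) (hA : A ≠ 0) (m : ℕ) :
    HasDerivAt (fun x => vt A B K l y x m) (dvt A B K l y x m) x := by
  have h0 := (hasDerivAt_P (l := l) (y := y) (x := x) m).2
  have h1 := (hasDerivAt_P (l := l) (y := y) (x := x) (m + 1)).2
  have hp : HasDerivAt (fun x => pt A B l y x m)
      (A * Q l y x (m + 2) + B * Q l y x (m + 1)) x := (h1.const_mul A).add (h0.const_mul B)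
  have hN : HasDerivAt (fun x => Nt A B K l y x m)
      (2 * pt A B l y x m * (A * Q l y x (m + 2) + B * Q l y x (m + 1)) +
      K ^ 2 * (2 * P l y x (m + 1) * Q l y x (m + 1))) x := by
    refine ((hp.pow 2).add ((h0.pow 2).const_mul (K ^ 2))).congr_deriv ?_
    simp
  have hN0 := (Nt_pos (l := l) (y := y) (x := x) (B := B) hK hA m).ne'
  refine ((hp.mul h0).div hN hN0).congr_deriv ?_
  unfold dvt Om
  congr 1
  unfold Nt pt
  simp only [Pi.mul_apply]
  ring

theorem abs_vt_le (hK : 0 < K) (hA : A ≠ 0) (m : ℕ) : |vt A B K l y x m| ≤ 1 / (2 * K) := by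
  have hN := Nt_pos (l := l) (y := y) (x := x) (B := B) hK hA m
  unfold vt
  rw [abs_div, abs_of_pos hN, div_le_div_iff₀ hN (by positivity), abs_mul, one_mul]
  unfold Nt
  nlinarith [sq_nonneg (|pt A B l y x m| - K * |P l y x (m + 1)|), sq_abs (pt A B l y x m),
    sq_abs (P l y x (m + 1))]

/-- The weight times the derivative of the phase lies in `[0, 1]`. -/
theorem hpt_eq (m : ℕ) : h A B K l y x m * pt A B l y x m =
    V K l y x m * P l y x (m + 1) * (pt A B l y x m ^ 2 / Nt A B K l y x m) := by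
  unfold h vt
  ring

theorem hpt_mem (hK : 0 < K) (hA : A ≠ 0) (m : ℕ) :
    0 ≤ h A B K l y x m * pt A B l y x m ∧ h A B K l y x m * pt A B l y x m ≤ 1 := by
  have hN := Nt_pos (l := l) (y := y) (x := x) (B := B) hK hA m
  have h0 := VP_mem (l := l) (y := y) (x := x) hK m
  have h1 : 0 ≤ pt A B l y x m ^ 2 / Nt A B K l y x m := by positivity
  have h2 : pt A B l y x m ^ 2 / Nt A B K l y x m ≤ 1 := by
    rw [div_le_one hN]
    unfold Nt
    nlinarith [sq_nonneg (K * P l y x (m + 1))]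
  rw [hpt_eq]
  exact ⟨mul_nonneg h0.1 h1, mul_le_one₀ h0.2 h1 h2⟩

theorem abs_h_le (hK : 1 ≤ K) (hA : A ≠ 0) (m : ℕ) : |h A B K l y x m| ≤ 1 / (2 * K) := by
  have hK0 : 0 < K := zero_lt_one.trans_le hK
  unfold h
  rw [abs_mul]
  calc |V K l y x m| * |vt A B K l y x m| ≤ 1 * (1 / (2 * K)) :=
        mul_le_mul (abs_V_le hK m) (abs_vt_le hK0 hA m) (abs_nonneg _) zero_le_one
    _ = 1 / (2 * K) := one_mul _

theorem abs_dh_le {Λ : ℝ} (hl : 0 < l) (hK : 1 ≤ K) (hA : 1 ≤ |A|) (hlΛ : l + 2 + |B| ≤ Λ)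
    (hKΛ : K ^ 2 ≤ Λ ^ 2) (h4 : 4 * Λ ≤ K ^ 2) (m : ℕ) :
    |dh A B K l y x m| ≤ 4 * |A| * l / K ^ 2 := by
  have hK0 : 0 < K := zero_lt_one.trans_le hK
  have hA0 : A ≠ 0 := by
    rintro rfl
    norm_num at hA
  have hN := Nt_pos (l := l) (y := y) (x := x) (B := B) hK0 hA0 m
  have hB0 := abs_nonneg B
  have hlΛ' : l + 2 ≤ Λ := by linarith
  have h1 := abs_dV_le (l := l) (y := y) (x := x) hl hK hlΛ' hKΛ h4 m
  have h2 : |vt A B K l y x m| ≤ 1 / 2 := by
    refine (abs_vt_le hK0 hA0 m).trans ?_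
    apply div_le_div_of_nonneg_left (by norm_num) (by norm_num)
    linarith
  have h3 : |dV K l y x m * vt A B K l y x m| ≤ 2 * l / K ^ 2 := by
    rw [abs_mul]
    calc |dV K l y x m| * |vt A B K l y x m| ≤ 4 * l / K ^ 2 * (1 / 2) :=
          mul_le_mul h1 h2 (abs_nonneg _) (by positivity)
      _ = 2 * l / K ^ 2 := by ring
  set c := 2 + l * cos (X l y x (m + 1)) + B / A with hc
  have hcΛ : |c| ≤ Λ := by
    have e1 := abs_add_le (2 + l * cos (X l y x (m + 1))) (B / A)
    have e2 := abs_add_le 2 (l * cos (X l y x (m + 1)))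
    rw [abs_mul, abs_of_pos hl, abs_of_pos (by norm_num : (0 : ℝ) < 2)] at e2
    have e3 := mul_le_of_le_one_right hl.le (abs_cos_le_one (X l y x (m + 1)))
    have e4 : |B / A| ≤ |B| := by
      rw [abs_div]
      exact div_le_self hB0 hA
    linarith
  have h5 := key (l := l) (y := y) (x := x) hl hK0 hlΛ' hKΛ h4 m c hcΛ
  have h6 : (c * P l y x (m + 1) - P l y x m) ^ 2 + K ^ 2 * P l y x (m + 1) ^ 2 ≤
      Nt A B K l y x m := by
    unfold Nt
    rw [pt_eq hA0, ← hc, mul_pow]
    have : (c * P l y x (m + 1) - P l y x m) ^ 2 ≤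
        A ^ 2 * (c * P l y x (m + 1) - P l y x m) ^ 2 := by
      apply le_mul_of_one_le_left (sq_nonneg _)
      rw [← sq_abs A]
      nlinarith
    linarith
  have h7 : |dvt A B K l y x m| ≤ |A| * |Om l y x (m + 1)| / Nt A B K l y x m := by
    unfold dvt
    rw [abs_div, abs_mul, abs_mul, abs_of_pos (pow_pos hN 2), div_le_div_iff₀ (pow_pos hN 2) hN]
    have e1 : |K ^ 2 * P l y x (m + 1) ^ 2 - pt A B l y x m ^ 2| ≤ Nt A B K l y x m := by
      unfold Nt
      rw [abs_le]
      constructor <;> nlinarith [sq_nonneg (K * P l y x (m + 1)), sq_nonneg (pt A B l y x m)]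
    have e2 := mul_le_mul_of_nonneg_left e1
      (mul_nonneg (abs_nonneg A) (abs_nonneg (Om l y x (m + 1))))
    calc _ ≤ |A| * |Om l y x (m + 1)| * Nt A B K l y x m * Nt A B K l y x m :=
          mul_le_mul_of_nonneg_right e2 hN.le
      _ = _ := by ring
  have h8 : |V K l y x m * dvt A B K l y x m| ≤ |A| * (2 * l / K ^ 2) := by
    rw [abs_mul]
    have hlK : 0 ≤ 2 * l / K ^ 2 := by positivity
    calc |V K l y x m| * |dvt A B K l y x m|
        ≤ |V K l y x m| * (|A| * |Om l y x (m + 1)| / Nt A B K l y x m) :=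
          mul_le_mul_of_nonneg_left h7 (abs_nonneg _)
      _ = |A| * (|Om l y x (m + 1)| * |V K l y x m|) / Nt A B K l y x m := by ring
      _ ≤ |A| * (2 * l / K ^ 2 * Nt A B K l y x m) / Nt A B K l y x m := by
          apply div_le_div_of_nonneg_right _ hN.le
          apply mul_le_mul_of_nonneg_left _ (abs_nonneg A)
          exact h5.trans (mul_le_mul_of_nonneg_left h6 hlK)
      _ = |A| * (2 * l / K ^ 2) := by
          field_simp
  have h9 := abs_add_le (dV K l y x m * vt A B K l y x m) (V K l y x m * dvt A B K l y x m)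
  have h10 : 4 * |A| * l / K ^ 2 = 2 * (|A| * (2 * l / K ^ 2)) := by ring
  have h11 : 2 * l / K ^ 2 ≤ |A| * (2 * l / K ^ 2) :=
    le_mul_of_one_le_left (by positivity) hA
  unfold dh
  linarith

theorem continuous_v (hK : 0 < K) (i : ℕ) : Continuous fun p : ℝ × ℝ => v K l p.1 p.2 i := by
  unfold v
  refine ((continuous_P i).2.mul (continuous_P i).1).div ?_ fun p => (N_pos hK i).ne'
  unfold N
  exact ((continuous_P i).2.pow 2).add (continuous_const.mul ((continuous_P i).1.pow 2))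

theorem continuous_V (hK : 0 < K) (m : ℕ) : Continuous fun p : ℝ × ℝ => V K l p.1 p.2 m := by
  induction m with
  | zero => exact continuous_const
  | succ m ih => exact ih.mul (continuous_v hK (m + 1))

theorem continuous_pt (m : ℕ) : Continuous fun p : ℝ × ℝ => pt A B l p.1 p.2 m := by
  unfold pt
  exact (continuous_const.mul (continuous_P (m + 1)).2).add
    (continuous_const.mul (continuous_P (m + 1)).1)

theorem continuous_h (hK : 0 < K) (hA : A ≠ 0) (m : ℕ) :
    Continuous fun p : ℝ × ℝ => h A B K l p.1 p.2 m := by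
  unfold h vt
  refine (continuous_V hK m).mul (((continuous_pt m).mul (continuous_P m).2).div ?_
    fun p => (Nt_pos hK hA m).ne')
  unfold Nt
  exact ((continuous_pt m).pow 2).add (continuous_const.mul ((continuous_P m).2.pow 2))

theorem h_add (m : ℕ) : h A B K l y (x + 2 * π) m = h A B K l y x m := by
  unfold h vt Nt pt
  rw [V_add, (P_add (m + 1)).1, (P_add (m + 2)).1]

theorem hasDerivAt_h (hK : 0 < K) (hA : A ≠ 0) (m : ℕ) :
    HasDerivAt (fun x => h A B K l y x m) (dh A B K l y x m) x :=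
  (hasDerivAt_V hK m).mul (hasDerivAt_vt hK hA m)

end Pool.Agent.SM
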