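import Mathlib

/-!
# The standard map: the mean ergodic argument (helper90)
-/

set_option autoImplicit false

open Real MeasureTheory Set

namespace Pool.Agent.SM

/-- Cauchy-Schwarz. -/
theorem cs_int {α : Type*} [MeasurableSpace α] (μ : Measure α) [IsFiniteMeasure μ] (g : α → ℝ)
    (hg : Integrable g μ) (hg2 : Integrable (fun x => g x ^ 2) μ) :
    (∫ x, g x ∂μ) ^ 2 ≤ μ.real univ * ∫ x, g x ^ 2 ∂μ := by
  set V := μ.real univ with hV
  set a := ∫ x, g x ∂μ with ha
  set b := ∫ x, g x ^ 2 ∂μ with hb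
  have hV0 : 0 ≤ V := measureReal_nonneg
  have key : ∀ t : ℝ, 0 ≤ b - 2 * t * a + t ^ 2 * V := by
    intro t
    have h0 : 0 ≤ ∫ x, (g x - t) ^ 2 ∂μ := integral_nonneg fun x => sq_nonneg _
    have h1 : ∫ x, (g x - t) ^ 2 ∂μ = b - 2 * t * a + t ^ 2 * V := by
      have e : ∀ x, (g x - t) ^ 2 = g x ^ 2 - 2 * t * g x + t ^ 2 := fun x => by ring
      simp only [e]
      have i1 : Integrable (fun x => 2 * t * g x) μ := hg.const_mul (2 * t)
      have i2 : Integrable (fun x => g x ^ 2 - 2 * t * g x) μ := hg2.sub i1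
      rw [integral_add i2 (integrable_const _), integral_sub hg2 i1, integral_const_mul,
        integral_const, smul_eq_mul]
      ring
    rw [h1] at h0
    exact h0
  rcases hV0.eq_or_lt with h | h
  · -- the measure is zero
    have h1 := key (b + 1)
    have h2 := key (-(b + 1))
    have hb0 : 0 ≤ b := integral_nonneg fun x => sq_nonneg _
    rw [← h] at h1 h2 ⊢
    rw [zero_mul]
    have hμ : μ = 0 := by
      have : μ univ = 0 := by
        have h3 : (μ univ).toReal = 0 := by
          rw [← Measure.real_def]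
          exact h.symm
        rcases (ENNReal.toReal_eq_zero_iff _).1 h3 with h4 | h4
        · exact h4
        · exact absurd h4 (measure_ne_top _ _)
      exact Measure.measure_univ_eq_zero.1 this
    have : a = 0 := by
      rw [ha, hμ]
      simp
    rw [this]
    norm_num
  · have h1 := key (a / V)
    have e : b - 2 * (a / V) * a + (a / V) ^ 2 * V = b - a ^ 2 / V := by
      field_simp
      ring
    rw [e] at h1
    have h2 : a ^ 2 / V ≤ b := by linarith
    rw [div_le_iff₀ h] at h2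
    linarith

/-- The `L ^ 1` norm of a twisted sum of observables with small correlations. -/
theorem l1_bound (Q : Set (ℝ × ℝ)) (hQ : Q = Ioc 0 (2 * π) ×ˢ Ioc 0 (2 * π)) (ζ : ℂ)
    (hζ : ‖ζ‖ = 1)
    (u : ℕ → ℝ × ℝ → ℂ) (hu : ∀ j, Measurable (u j)) (hub : ∀ j p, ‖u j p‖ ≤ 1)
    (ε : ℝ) (hε : 0 ≤ ε) (n : ℕ) (hn : 1 ≤ n)
    (hcorr : ∀ j k, j + 2 ≤ k → k < n → ‖∫ p in Q, u k p * (starRingEnd ℂ) (u j p)‖ ≤
      (2 * π) ^ 2 * ε) :
    ∫ p in Q, ‖∑ j ∈ Finset.range n, ζ ^ j * u j p‖ ≤ (2 * π) ^ 2 * n * √(3 / n + ε) := by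
  have hπ := Real.pi_pos
  have hQlt : volume Q < ⊤ := by
    rw [hQ, Measure.volume_eq_prod, Measure.prod_prod]
    simp only [Real.volume_Ioc]
    exact ENNReal.mul_lt_top ENNReal.ofReal_lt_top ENNReal.ofReal_lt_top
  have hQv : volume.real Q = (2 * π) ^ 2 := by
    rw [Measure.real_def, hQ, Measure.volume_eq_prod, Measure.prod_prod, ENNReal.toReal_mul,
      Real.volume_Ioc, sub_zero, ENNReal.toReal_ofReal two_pi_pos.le]
    ring
  have hint : ∀ (G : ℝ × ℝ → ℂ) (B : ℝ), Measurable G → (∀ p, ‖G p‖ ≤ B) →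
      IntegrableOn G Q := fun G B hG hB =>
    Measure.integrableOn_of_bounded (M := B) hQlt.ne hG.aestronglyMeasurable
      (Filter.Eventually.of_forall hB)
  have hn0 : (0 : ℝ) < n := by exact_mod_cast hn
  -- the average
  set S : ℝ × ℝ → ℂ := fun p => ∑ j ∈ Finset.range n, ζ ^ j * u j p with hS
  have hSm : Measurable S := by
    rw [hS]
    exact Finset.measurable_fun_sum _ fun j _ => (hu j).const_mul _
  have hSb : ∀ p, ‖S p‖ ≤ n := by
    intro p
    rw [hS]
    refine (norm_sum_le _ _).trans ?_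
    calc ∑ j ∈ Finset.range n, ‖ζ ^ j * u j p‖ ≤ ∑ _j ∈ Finset.range n, (1 : ℝ) := by
          refine Finset.sum_le_sum fun j _ => ?_
          rw [norm_mul, norm_pow, hζ, one_pow, one_mul]
          exact hub j p
      _ = n := by simp
  -- the square
  have hS2 : ((∫ p in Q, ‖S p‖ ^ 2 : ℝ) : ℂ) = ∑ j ∈ Finset.range n, ∑ k ∈ Finset.range n,
      ζ ^ j * (starRingEnd ℂ) ζ ^ k * ∫ p in Q, u j p * (starRingEnd ℂ) (u k p) := by
    have e : ∀ p, ((‖S p‖ ^ 2 : ℝ) : ℂ) = ∑ j ∈ Finset.range n, ∑ k ∈ Finset.range n,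
        ζ ^ j * (starRingEnd ℂ) ζ ^ k * (u j p * (starRingEnd ℂ) (u k p)) := by
      intro p
      rw [← Complex.normSq_eq_norm_sq, ← Complex.mul_conj, hS]
      simp only
      rw [map_sum, Finset.sum_mul_sum]
      refine Finset.sum_congr rfl fun j _ => Finset.sum_congr rfl fun k _ => ?_
      rw [map_mul, map_pow]
      ring
    rw [← integral_complex_ofReal]
    simp only [e]
    rw [integral_finsetSum]
    · refine Finset.sum_congr rfl fun j _ => ?_
      rw [integral_finsetSum]
      · refine Finset.sum_congr rfl fun k _ => ?_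
        rw [integral_const_mul]
      · intro k _
        refine hint _ 1 (((hu j).mul (Complex.continuous_conj.measurable.comp (hu k))).const_mul _)
          fun p => ?_
        rw [norm_mul, norm_mul, norm_pow, norm_pow, RCLike.norm_conj, hζ, one_pow, one_pow,
          one_mul, one_mul, norm_mul, RCLike.norm_conj]
        exact mul_le_one₀ (hub j p) (norm_nonneg _) (hub k p)
    · intro j _
      refine integrable_finsetSum _ fun k _ => ?_
      refine hint _ 1 (((hu j).mul (Complex.continuous_conj.measurable.comp (hu k))).const_mul _)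
        fun p => ?_
      rw [norm_mul, norm_mul, norm_pow, norm_pow, RCLike.norm_conj, hζ, one_pow, one_pow,
        one_mul, one_mul, norm_mul, RCLike.norm_conj]
      exact mul_le_one₀ (hub j p) (norm_nonneg _) (hub k p)
  have htriv : ∀ j k, ‖∫ p in Q, u j p * (starRingEnd ℂ) (u k p)‖ ≤ (2 * π) ^ 2 := by
    intro j k
    have h := norm_setIntegral_le_of_norm_le_const (μ := volume) (s := Q) (C := 1) hQlt
      (f := fun p => u j p * (starRingEnd ℂ) (u k p)) (fun p _ => by
        rw [norm_mul, RCLike.norm_conj]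
        exact mul_le_one₀ (hub j p) (norm_nonneg _) (hub k p))
    rw [hQv, one_mul] at h
    exact h
  have hterm : ∀ j k, j < n → k < n → ‖∫ p in Q, u j p * (starRingEnd ℂ) (u k p)‖ ≤
      (2 * π) ^ 2 * (if j ≤ k + 1 ∧ k ≤ j + 1 then 1 else 0) + (2 * π) ^ 2 * ε := by
    intro j k hj hk
    split_ifs with h
    · have := htriv j k
      have h0 : 0 ≤ (2 * π) ^ 2 * ε := by positivity
      linarith
    · rw [mul_zero, zero_add]
      by_cases hjk : j ≤ k + 1
      · have hk2 : j + 2 ≤ k := by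
          by_contra hcon
          exact h ⟨hjk, by omega⟩
        have h3 := hcorr j k hk2 hk
        have e : ∫ p in Q, u j p * (starRingEnd ℂ) (u k p) =
            (starRingEnd ℂ) (∫ p in Q, u k p * (starRingEnd ℂ) (u j p)) := by
          rw [← integral_conj]
          congr 1
          funext p
          rw [map_mul, Complex.conj_conj, mul_comm]
        rw [e, RCLike.norm_conj]
        exact h3
      · exact hcorr k j (by omega) hj
  have hcount : ∀ j : ℕ, ∑ k ∈ Finset.range n, (if j ≤ k + 1 ∧ k ≤ j + 1 then (1 : ℝ) else 0) ≤ 3 := by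
    intro j
    rw [Finset.sum_ite, Finset.sum_const_zero, add_zero, Finset.sum_const, nsmul_eq_mul, mul_one]
    have : ((Finset.range n).filter fun k => j ≤ k + 1 ∧ k ≤ j + 1) ⊆ Finset.Icc (j - 1) (j + 1) := by
      intro k hk
      rw [Finset.mem_filter] at hk
      rw [Finset.mem_Icc]
      omega
    have h := Finset.card_le_card this
    rw [Nat.card_Icc] at h
    have h' : ((Finset.range n).filter fun k => j ≤ k + 1 ∧ k ≤ j + 1).card ≤ 3 := by omega
    exact_mod_cast h'
  have hsq : ∫ p in Q, ‖S p‖ ^ 2 ≤ (2 * π) ^ 2 * (3 * n + n ^ 2 * ε) := by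
    have hnn : 0 ≤ ∫ p in Q, ‖S p‖ ^ 2 := integral_nonneg fun p => sq_nonneg _
    have e : ∫ p in Q, ‖S p‖ ^ 2 = ‖((∫ p in Q, ‖S p‖ ^ 2 : ℝ) : ℂ)‖ := by
      rw [Complex.norm_real, Real.norm_eq_abs, abs_of_nonneg hnn]
    rw [e, hS2]
    refine (norm_sum_le _ _).trans ?_
    have hrow : ∀ j ∈ Finset.range n, ‖∑ k ∈ Finset.range n,
        ζ ^ j * (starRingEnd ℂ) ζ ^ k * ∫ p in Q, u j p * (starRingEnd ℂ) (u k p)‖ ≤
        (2 * π) ^ 2 * (3 + n * ε) := by
      intro j hj
      rw [Finset.mem_range] at hj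
      refine (norm_sum_le _ _).trans ?_
      calc ∑ k ∈ Finset.range n, ‖ζ ^ j * (starRingEnd ℂ) ζ ^ k *
            ∫ p in Q, u j p * (starRingEnd ℂ) (u k p)‖
          ≤ ∑ k ∈ Finset.range n, ((2 * π) ^ 2 * (if j ≤ k + 1 ∧ k ≤ j + 1 then 1 else 0) +
            (2 * π) ^ 2 * ε) := by
            refine Finset.sum_le_sum fun k hk => ?_
            rw [Finset.mem_range] at hk
            rw [norm_mul, norm_mul, norm_pow, norm_pow, RCLike.norm_conj, hζ, one_pow, one_pow,
              one_mul, one_mul]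
            exact hterm j k hj hk
        _ = (2 * π) ^ 2 * (∑ k ∈ Finset.range n, (if j ≤ k + 1 ∧ k ≤ j + 1 then (1 : ℝ) else 0)) +
            n * ((2 * π) ^ 2 * ε) := by
            rw [Finset.sum_add_distrib, ← Finset.mul_sum, Finset.sum_const, Finset.card_range,
              nsmul_eq_mul]
        _ ≤ (2 * π) ^ 2 * 3 + n * ((2 * π) ^ 2 * ε) := by
            have := mul_le_mul_of_nonneg_left (hcount j) (sq_nonneg (2 * π))
            linarith
        _ = (2 * π) ^ 2 * (3 + n * ε) := by ring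
    refine (Finset.sum_le_sum hrow).trans (le_of_eq ?_)
    rw [Finset.sum_const, Finset.card_range, nsmul_eq_mul]
    ring
  have : IsFiniteMeasure (volume.restrict Q) := ⟨by
    rw [Measure.restrict_apply_univ]
    exact hQlt⟩
  have hSm2 : Integrable (fun p => ‖S p‖ ^ 2) (volume.restrict Q) :=
    Measure.integrableOn_of_bounded (M := (n : ℝ) ^ 2) hQlt.ne
      (hSm.norm.pow_const 2).aestronglyMeasurable (Filter.Eventually.of_forall fun p => by
        rw [Real.norm_eq_abs, abs_of_nonneg (sq_nonneg _)]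
        exact pow_le_pow_left₀ (norm_nonneg _) (hSb p) 2)
  have hcs := cs_int (volume.restrict Q) (fun p => ‖S p‖) (hint _ n hSm hSb).norm hSm2
  have hV : (volume.restrict Q).real univ = (2 * π) ^ 2 := by
    rw [Measure.real_def, Measure.restrict_apply_univ]
    exact hQv
  rw [hV] at hcs
  have h3 : (∫ p in Q, ‖S p‖) ^ 2 ≤ (2 * π) ^ 2 * ((2 * π) ^ 2 * (3 * n + n ^ 2 * ε)) :=
    hcs.trans (mul_le_mul_of_nonneg_left hsq (by positivity))
  have h4 : (∫ p in Q, ‖S p‖) ^ 2 ≤ ((2 * π) ^ 2 * n) ^ 2 * (3 / n + ε) := by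
    refine h3.trans (le_of_eq ?_)
    field_simp
  have h5 := Real.le_sqrt_of_sq_le h4
  rw [Real.sqrt_mul (by positivity), Real.sqrt_sq (by positivity)] at h5
  exact h5

end Pool.Agent.SM
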