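import Pool.Agent.Lib.SM.Multi
import Pool.Agent.Lib.SM.Char

/-!
# The standard map: characters of several times along orbits (helper90)
-/

set_option autoImplicit false

open Real MeasureTheory Set

namespace Pool.Agent.SM

/-- The character with several times, at time `j`. -/
noncomputable def U {d : ℕ} (c : Fin d → ℤ) (l : ℝ) (j : ℕ) (p : ℝ × ℝ) : ℂ :=
  Complex.exp (Complex.I * ((∑ i : Fin d, (c i : ℝ) * X l p.2 p.1 (j + i) : ℝ) : ℂ))

section Basic

variable {d : ℕ} (c : Fin d → ℤ) (l : ℝ) (j : ℕ)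

theorem norm_U (p : ℝ × ℝ) : ‖U c l j p‖ = 1 := by
  unfold U
  rw [mul_comm]
  exact Complex.norm_exp_ofReal_mul_I _

theorem continuous_X' (k : ℕ) : Continuous fun p : ℝ × ℝ => X l p.2 p.1 k :=
  (continuous_X (l := l) k).1.comp continuous_swap

theorem continuous_U : Continuous (U c l j) := by
  unfold U
  have h : Continuous fun p : ℝ × ℝ => ∑ i : Fin d, (c i : ℝ) * X l p.2 p.1 (j + i) :=
    continuous_finsetSum _ fun i _ => continuous_const.mul (continuous_X' l _)
  fun_prop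

theorem U_add_fst (x y : ℝ) : U c l j (x + 2 * π, y) = U c l j (x, y) := by
  unfold U
  refine exp_add_int _ _ (∑ i : Fin d, c i * (j + i : ℕ)) ?_
  show ∑ i : Fin d, (c i : ℝ) * X l y (x + 2 * π) (j + i) =
    ∑ i : Fin d, (c i : ℝ) * X l y x (j + i) + _
  push_cast
  rw [Finset.sum_mul, ← Finset.sum_add_distrib]
  refine Finset.sum_congr rfl fun i _ => ?_
  rw [(X_add (j + i)).1]
  push_cast
  ring

theorem U_add_snd (x y : ℝ) : U c l j (x, y + 2 * π) = U c l j (x, y) := by
  have h : ∀ k, ∃ n : ℤ, X l (y + 2 * π) x k = X l y x k + n * (2 * π) := fun k =>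
    (X_add_left l y x k).1
  choose ν hν using h
  unfold U
  refine exp_add_int _ _ (∑ i : Fin d, c i * ν (j + i)) ?_
  show ∑ i : Fin d, (c i : ℝ) * X l (y + 2 * π) x (j + i) =
    ∑ i : Fin d, (c i : ℝ) * X l y x (j + i) + _
  push_cast
  rw [Finset.sum_mul, ← Finset.sum_add_distrib]
  refine Finset.sum_congr rfl fun i _ => ?_
  rw [hν]
  ring

theorem X_T (k : ℕ) (p : ℝ × ℝ) : X l (T l p).2 (T l p).1 k = X l p.2 p.1 (k + 1) :=
  (X_shift l p.2 p.1 k).1

theorem X_Ti (k : ℕ) (p : ℝ × ℝ) : X l ((T l)^[j] p).2 ((T l)^[j] p).1 k = X l p.2 p.1 (j + k) := by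
  induction j generalizing k with
  | zero => rw [Nat.zero_add]; rfl
  | succ j ih =>
    rw [Function.iterate_succ_apply', X_T, ih]
    congr 1
    omega

theorem U_T (p : ℝ × ℝ) : U c l j (T l p) = U c l (j + 1) p := by
  unfold U
  congr 3
  refine Finset.sum_congr rfl fun i _ => ?_
  rw [X_T]
  congr 2
  omega

theorem U_Ti (p : ℝ × ℝ) : U c l 0 ((T l)^[j] p) = U c l j p := by
  unfold U
  congr 3
  refine Finset.sum_congr rfl fun i _ => ?_
  rw [X_Ti]
  congr 2
  omega

theorem per_U : Per (U c l j) := ⟨U_add_fst c l j, U_add_snd c l j⟩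

/-- The correlations are invariant. -/
theorem corr_inv_gen (n : ℕ) :
    ∫ p in Qd, U c l (n + j) p * (starRingEnd ℂ) (U c l j p) =
      ∫ p in Qd, U c l n p * (starRingEnd ℂ) (U c l 0 p) := by
  induction j with
  | zero => rfl
  | succ j ih =>
    rw [← ih]
    have h := inv_T l (fun p => U c l (n + j) p * (starRingEnd ℂ) (U c l j p))
      (((continuous_U c l (n + j)).mul
        (Complex.continuous_conj.comp (continuous_U c l j))).measurable)
      ⟨1, fun p => by
        rw [norm_mul, norm_U, RCLike.norm_conj, norm_U, one_mul]⟩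
      (fun x y => by
        show U c l (n + j) (x + 2 * π, y) * (starRingEnd ℂ) (U c l j (x + 2 * π, y)) = _
        rw [U_add_fst, U_add_fst])
      (fun x y => by
        show U c l (n + j) (x, y + 2 * π) * (starRingEnd ℂ) (U c l j (x, y + 2 * π)) = _
        rw [U_add_snd, U_add_snd])
    rw [← Qd] at h
    rw [← h]
    congr 1
    funext p
    show _ = U c l (n + j) (T l p) * (starRingEnd ℂ) (U c l j (T l p))
    rw [U_T, U_T]
    rfl

end Basic

/-- Correlations of a non-constant character. -/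
theorem corr_gen {d : ℕ} (c : Fin d → ℤ) (hc : c ≠ 0) {t R : ℝ} (ht : 12 ≤ t)
    (hR : ∀ i, |(c i : ℝ)| ≤ R) (n : ℕ) (hn : 2 ≤ n) (hnt : (n : ℝ) + d ≤ t) :
    ‖∫ p in Qd, U c (t ^ 7) n p * (starRingEnd ℂ) (U c (t ^ 7) 0 p)‖ ≤
      (2 * π) ^ 2 * ((10 * R + 6) / t) := by
  classical
  set e : ℕ → ℤ := fun i => if h : i < d then c ⟨i, h⟩ else 0 with he
  have hec : ∀ i : Fin d, e i = c i := by
    intro i
    rw [he]
    simp only
    rw [dif_pos i.2]
  have hed : ∀ i, d ≤ i → e i = 0 := by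
    intro i hi
    rw [he]
    simp only
    rw [dif_neg (not_lt.2 hi)]
  obtain ⟨i1, hi1⟩ : ∃ i : Fin d, c i ≠ 0 := by
    by_contra hcon
    push Not at hcon
    exact hc (funext hcon)
  have hR0 : 0 ≤ R := (abs_nonneg _).trans (hR i1)
  have heR : ∀ i, |(e i : ℝ)| ≤ R := by
    intro i
    by_cases h : i < d
    · have := hec ⟨i, h⟩
      simp only at this
      rw [this]
      exact hR _
    · rw [hed i (not_lt.1 h)]
      simpa using hR0
  -- the last index
  obtain ⟨i0, hi0, hlast⟩ : ∃ i0, e i0 ≠ 0 ∧ ∀ i, i0 < i → e i = 0 := by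
    have hne : ((Finset.range d).filter fun i => e i ≠ 0).Nonempty :=
      ⟨i1, Finset.mem_filter.2 ⟨Finset.mem_range.2 i1.2, by rw [hec]; exact hi1⟩⟩
    refine ⟨_, (Finset.mem_filter.1 (Finset.max'_mem _ hne)).2, ?_⟩
    intro i hi
    by_contra hcon
    have hid : i < d := by
      by_contra h
      exact hcon (hed i (not_lt.1 h))
    have := Finset.le_max' ((Finset.range d).filter fun i => e i ≠ 0) i
      (Finset.mem_filter.2 ⟨Finset.mem_range.2 hid, hcon⟩)
    omega
  have hi0d : i0 < d := by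
    by_contra h
    exact hi0 (hed i0 (not_lt.1 h))
  obtain ⟨m, hm⟩ : ∃ m, n + i0 = m + 2 := ⟨n + i0 - 2, by omega⟩
  set f : ℕ → ℤ := fun r => (if n ≤ r then e (r - n) else 0) - e r with hf
  have hf0 : f (m + 2) ≠ 0 := by
    rw [hf]
    simp only
    rw [← hm, if_pos (Nat.le_add_right _ _), Nat.add_sub_cancel_left, hlast (n + i0) (by omega),
      sub_zero]
    exact hi0
  have hfR : ∀ r, |(f r : ℝ)| ≤ 2 * R := by
    intro r
    rw [hf]
    simp only
    push_cast
    refine (abs_sub _ _).trans ?_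
    have h2 := heR r
    by_cases h : n ≤ r
    · rw [if_pos h]
      linarith [heR (r - n)]
    · rw [if_neg h]
      simp only [abs_zero]
      linarith
  have hX : ∀ (j : ℕ) (p : ℝ × ℝ), ∑ i : Fin d, (c i : ℝ) * X (t ^ 7) p.2 p.1 (j + i) =
      ∑ i ∈ Finset.range (i0 + 1), (e i : ℝ) * X (t ^ 7) p.2 p.1 (j + i) := by
    intro j p
    have e1 : ∑ i : Fin d, (c i : ℝ) * X (t ^ 7) p.2 p.1 (j + i) =
        ∑ i ∈ Finset.range d, (e i : ℝ) * X (t ^ 7) p.2 p.1 (j + i) := by
      rw [← Fin.sum_univ_eq_sum_range (fun i => (e i : ℝ) * X (t ^ 7) p.2 p.1 (j + i)) d]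
      exact Finset.sum_congr rfl fun i _ => by rw [hec]
    rw [e1]
    symm
    refine Finset.sum_subset (Finset.range_subset_range.2 (by omega)) fun i _ hi => ?_
    rw [hlast i (by
      rw [Finset.mem_range] at hi
      omega)]
    simp
  have hPh : ∀ p : ℝ × ℝ, Ph f (t ^ 7) p.2 p.1 (m + 3) =
      ∑ i : Fin d, (c i : ℝ) * X (t ^ 7) p.2 p.1 (n + i) -
      ∑ i : Fin d, (c i : ℝ) * X (t ^ 7) p.2 p.1 (0 + i) := by
    intro p
    rw [hX, hX]
    unfold Ph
    have e0 : m + 3 = n + (i0 + 1) := by omega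
    have e1 : ∀ r, (f r : ℝ) * X (t ^ 7) p.2 p.1 r =
        (((if n ≤ r then e (r - n) else 0 : ℤ)) : ℝ) * X (t ^ 7) p.2 p.1 r -
        (e r : ℝ) * X (t ^ 7) p.2 p.1 r := by
      intro r
      rw [hf]
      push_cast
      ring
    simp only [e1]
    rw [Finset.sum_sub_distrib, e0]
    congr 1
    · rw [Finset.sum_range_add]
      have z1 : ∑ r ∈ Finset.range n, (((if n ≤ r then e (r - n) else 0 : ℤ)) : ℝ) *
          X (t ^ 7) p.2 p.1 r = 0 := by
        refine Finset.sum_eq_zero fun r hr => ?_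
        rw [if_neg (by
          rw [Finset.mem_range] at hr
          omega)]
        simp
      rw [z1, zero_add]
      refine Finset.sum_congr rfl fun i _ => ?_
      rw [if_pos (Nat.le_add_right _ _), Nat.add_sub_cancel_left]
    · rw [add_comm n (i0 + 1), Finset.sum_range_add]
      have z1 : ∑ r ∈ Finset.range n, (e (i0 + 1 + r) : ℝ) * X (t ^ 7) p.2 p.1 (i0 + 1 + r) = 0 := by
        refine Finset.sum_eq_zero fun r _ => ?_
        rw [hlast _ (by omega)]
        simp
      rw [z1, add_zero]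
      exact Finset.sum_congr rfl fun i _ => by rw [Nat.zero_add]
  have h := multi_t (c := f) (t := t) (R := 2 * R) m hf0 hfR ht (by
    have h1 : (m : ℝ) + 1 ≤ n + d := by exact_mod_cast (by omega : m + 1 ≤ n + d)
    linarith)
  have e5 : 5 * (2 * R) + 6 = 10 * R + 6 := by ring
  rw [e5] at h
  refine le_trans (le_of_eq ?_) h
  congr 2
  funext p
  rw [hPh]
  unfold U
  rw [← Complex.exp_conj, ← Complex.exp_add]
  congr 1
  rw [map_mul, Complex.conj_I, Complex.conj_ofReal, Complex.ofReal_sub]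
  ring

/-- One block. -/
theorem block_gen {d : ℕ} (c : Fin d → ℤ) (hc : c ≠ 0) {t R : ℝ} (ht : 12 ≤ t)
    (hR : ∀ i, |(c i : ℝ)| ≤ R) {ζ : ℂ} (hζ : ‖ζ‖ = 1) (N : ℕ) (hN : 1 ≤ N)
    (hNt : (N : ℝ) + d ≤ t) :
    ∫ p in Qd, ‖A (t ^ 7) ζ (U c (t ^ 7) 0) N p‖ ≤
      (2 * π) ^ 2 * N * √(3 / N + (10 * R + 6) / t) := by
  have hR0 : 0 ≤ R := by
    obtain ⟨i1, _⟩ : ∃ i : Fin d, c i ≠ 0 := by
      by_contra hcon
      push Not at hcon
      exact hc (funext hcon)
    exact (abs_nonneg _).trans (hR i1)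
  have ht0 : 0 < t := by linarith
  have h := l1_bound Qd rfl ζ hζ (U c (t ^ 7)) (fun j => (continuous_U c _ j).measurable)
      (fun j p => (norm_U c _ j p).le) ((10 * R + 6) / t) (by positivity) N hN
      (fun j k hjk hk => by
        obtain ⟨i, rfl⟩ : ∃ i, k = i + j := ⟨k - j, by omega⟩
        rw [corr_inv_gen]
        refine corr_gen c hc ht hR i (by omega) ?_
        have : (i : ℝ) ≤ N := by exact_mod_cast (by omega : i ≤ N)
        linarith)
  have e1 : ∀ p, A (t ^ 7) ζ (U c (t ^ 7) 0) N p =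
      ∑ j ∈ Finset.range N, ζ ^ j * U c (t ^ 7) j p := by
    intro p
    unfold A
    exact Finset.sum_congr rfl fun j _ => by rw [U_Ti]
  simp only [e1]
  exact h

end Pool.Agent.SM
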