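import Pool.Agent.Lib.SM.Corr

/-!
# The standard map: oscillatory integrals with several times (helper90)
-/

set_option autoImplicit false

open Real MeasureTheory Set

namespace Pool.Agent.SM

section Weights

variable {l y x K : ℝ}

/-- The weight against all lower terms. -/
theorem sum_VP (hK : 1 ≤ K) (m : ℕ) :
    ∑ i ∈ Finset.range (m + 2), |V K l y x m * P l y x i| ≤ 2 := by
  have hK0 : 0 < K := zero_lt_one.trans_le hK
  induction m with
  | zero =>
    rw [Finset.sum_range_succ, Finset.sum_range_one]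
    show |(1 : ℝ) * 0| + |(1 : ℝ) * 1| ≤ 2
    norm_num
  | succ m ih =>
    rw [Finset.sum_range_succ]
    have h1 : ∀ i, |V K l y x (m + 1) * P l y x i| =
        |v K l y x (m + 1)| * |V K l y x m * P l y x i| := by
      intro i
      rw [← abs_mul]
      congr 1
      show V K l y x m * v K l y x (m + 1) * P l y x i = _
      ring
    have h2 : |v K l y x (m + 1)| ≤ 1 / 2 := by
      refine (abs_v_le hK0 (m + 1)).trans ?_
      apply div_le_div_of_nonneg_left (by norm_num) (by norm_num)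
      linarith
    have h3 : |V K l y x (m + 1) * P l y x (m + 2)| ≤ 1 := by
      have := VP_mem (l := l) (y := y) (x := x) hK0 (m + 1)
      rw [abs_of_nonneg this.1]
      exact this.2
    have h4 : ∑ i ∈ Finset.range (m + 2), |V K l y x (m + 1) * P l y x i| ≤ 1 := by
      simp only [h1]
      rw [← Finset.mul_sum]
      calc |v K l y x (m + 1)| * ∑ i ∈ Finset.range (m + 2), |V K l y x m * P l y x i|
          ≤ 1 / 2 * 2 := mul_le_mul h2 ih (Finset.sum_nonneg fun _ _ => abs_nonneg _) (by norm_num)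
        _ = 1 := by norm_num
    linarith

/-- The lower part of the derivative of the phase. -/
noncomputable def low (c : ℕ → ℤ) (l y x : ℝ) (m : ℕ) : ℝ :=
  ∑ i ∈ Finset.range (m + 2), (c i : ℝ) * P l y x i

theorem abs_h_low (c : ℕ → ℤ) {A R : ℝ} (hK : 1 ≤ K) (hA : A ≠ 0) (hR : ∀ i, |(c i : ℝ)| ≤ R)
    (m : ℕ) : |h A 0 K l y x m * low c l y x m| ≤ R / K := by
  have hK0 : 0 < K := zero_lt_one.trans_le hK
  have hR0 : 0 ≤ R := (abs_nonneg _).trans (hR 0)
  have e : h A 0 K l y x m * low c l y x m = vt A 0 K l y x m *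
      ∑ i ∈ Finset.range (m + 2), (c i : ℝ) * (V K l y x m * P l y x i) := by
    unfold h low
    rw [Finset.mul_sum, Finset.mul_sum]
    refine Finset.sum_congr rfl fun i _ => ?_
    ring
  rw [e, abs_mul]
  have h1 : |∑ i ∈ Finset.range (m + 2), (c i : ℝ) * (V K l y x m * P l y x i)| ≤ R * 2 := by
    refine (Finset.abs_sum_le_sum_abs _ _).trans ?_
    calc ∑ i ∈ Finset.range (m + 2), |(c i : ℝ) * (V K l y x m * P l y x i)|
        ≤ ∑ i ∈ Finset.range (m + 2), R * |V K l y x m * P l y x i| := by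
          refine Finset.sum_le_sum fun i _ => ?_
          rw [abs_mul]
          exact mul_le_mul_of_nonneg_right (hR i) (abs_nonneg _)
      _ = R * ∑ i ∈ Finset.range (m + 2), |V K l y x m * P l y x i| := (Finset.mul_sum _ _ _).symm
      _ ≤ R * 2 := mul_le_mul_of_nonneg_left (sum_VP hK m) hR0
  calc _ ≤ 1 / (2 * K) * (R * 2) := mul_le_mul (abs_vt_le hK0 hA m) h1 (abs_nonneg _)
        (by positivity)
    _ = R / K := by
      field_simp

end Weights

/-- The phase. -/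
noncomputable def Ph (c : ℕ → ℤ) (l y x : ℝ) (k : ℕ) : ℝ :=
  ∑ i ∈ Finset.range k, (c i : ℝ) * X l y x i

theorem hasDerivAt_Ph (c : ℕ → ℤ) (l y x : ℝ) (m : ℕ) :
    HasDerivAt (fun x => Ph c l y x (m + 3)) (pt (c (m + 2)) 0 l y x m + low c l y x m) x := by
  have h : HasDerivAt (fun x => ∑ i ∈ Finset.range (m + 3), (c i : ℝ) * X l y x i)
      (∑ i ∈ Finset.range (m + 3), (c i : ℝ) * P l y x i) x :=
    HasDerivAt.fun_sum fun i _ => (hasDerivAt_X i).1.const_mul _
  refine h.congr_deriv ?_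
  rw [Finset.sum_range_succ]
  unfold pt low
  ring

theorem Ph_add (c : ℕ → ℤ) (l y x : ℝ) (k : ℕ) : ∃ n : ℤ,
    Ph c l y (x + 2 * π) k = Ph c l y x k + n * (2 * π) := by
  refine ⟨∑ i ∈ Finset.range k, c i * i, ?_⟩
  unfold Ph
  push_cast
  rw [Finset.sum_mul, ← Finset.sum_add_distrib]
  refine Finset.sum_congr rfl fun i _ => ?_
  rw [(X_add i).1]
  ring

theorem continuous_Ph (c : ℕ → ℤ) (l : ℝ) (k : ℕ) :
    Continuous fun p : ℝ × ℝ => Ph c l p.1 p.2 k := by
  unfold Ph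
  exact continuous_finsetSum _ fun i _ => continuous_const.mul (continuous_X i).1

theorem continuous_low (c : ℕ → ℤ) (l : ℝ) (m : ℕ) :
    Continuous fun p : ℝ × ℝ => low c l p.1 p.2 m := by
  unfold low
  exact continuous_finsetSum _ fun i _ => continuous_const.mul (continuous_P i).1

/-- Integration by parts over a period, abstract form. -/
theorem ibp_gen (φ w dw q g : ℝ → ℝ) (C1 C2 : ℝ) (cφ : Continuous φ) (cw : Continuous w)
    (cdw : Continuous dw) (cq : Continuous q) (cg : Continuous g)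
    (dφ : ∀ x, HasDerivAt φ (q x + g x) x)
    (dw' : ∀ x, HasDerivAt w (dw x) x) (hper : w (2 * π) = w 0)
    (hφ : ∃ n : ℤ, φ (2 * π) = φ 0 + n * (2 * π)) (h1 : ∀ x, |w x * g x| ≤ C1)
    (h2 : ∀ x, |dw x| ≤ C2) :
    ‖∫ x in (0 : ℝ)..(2 * π), Complex.exp (Complex.I * (φ x : ℝ)) * ((w x * q x : ℝ) : ℂ)‖ ≤
      2 * π * (C1 + C2) := by
  set E : ℝ → ℂ := fun x => Complex.exp (Complex.I * (φ x : ℝ)) with hE
  have cE : Continuous E := by
    rw [hE]
    fun_prop
  have nE : ∀ x, ‖E x‖ = 1 := by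
    intro x
    rw [hE]
    simp only
    rw [mul_comm]
    exact Complex.norm_exp_ofReal_mul_I _
  have dE : ∀ x, HasDerivAt E (E x * (Complex.I * ((q x + g x : ℝ) : ℂ))) x := by
    intro x
    have h1 := ((dφ x).ofReal_comp).const_mul Complex.I
    exact h1.cexp
  have dG : ∀ x, HasDerivAt (fun x => E x * ((w x : ℝ) : ℂ))
      (E x * (Complex.I * ((q x + g x : ℝ) : ℂ)) * ((w x : ℝ) : ℂ) +
        E x * ((dw x : ℝ) : ℂ)) x := by
    intro x
    exact (dE x).mul (dw' x).ofReal_comp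
  have hzero : ∫ x in (0 : ℝ)..(2 * π),
      (E x * (Complex.I * ((q x + g x : ℝ) : ℂ)) * ((w x : ℝ) : ℂ) +
        E x * ((dw x : ℝ) : ℂ)) = 0 := by
    rw [intervalIntegral.integral_eq_sub_of_hasDerivAt (fun x _ => dG x)
      (Continuous.intervalIntegrable (by fun_prop) _ _)]
    have e2 : E (2 * π) = E 0 := by
      obtain ⟨n, hn⟩ := hφ
      rw [hE]
      simp only
      rw [hn]
      push_cast
      rw [mul_add, Complex.exp_add]
      have : Complex.exp (Complex.I * (n * (2 * π))) = 1 := by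
        rw [show Complex.I * (n * (2 * π)) = n * (2 * π * Complex.I) by ring]
        exact Complex.exp_int_mul_two_pi_mul_I n
      rw [this, mul_one]
    rw [hper, e2, sub_self]
  have hsplit : ∫ x in (0 : ℝ)..(2 * π), E x * ((w x * q x : ℝ) : ℂ) =
      ∫ x in (0 : ℝ)..(2 * π), (-(E x * ((w x * g x : ℝ) : ℂ)) +
        Complex.I * (E x * ((dw x : ℝ) : ℂ))) := by
    have e : ∀ x, E x * ((w x * q x : ℝ) : ℂ) =
        (-(E x * ((w x * g x : ℝ) : ℂ)) +
        Complex.I * (E x * ((dw x : ℝ) : ℂ))) - Complex.I *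
        (E x * (Complex.I * ((q x + g x : ℝ) : ℂ)) * ((w x : ℝ) : ℂ) +
        E x * ((dw x : ℝ) : ℂ)) := by
      intro x
      push_cast
      have hI := Complex.I_mul_I
      linear_combination (E x * ((q x : ℂ) + (g x : ℂ)) * (w x : ℂ)) * hI
    rw [intervalIntegral.integral_congr fun x _ => e x, intervalIntegral.integral_sub
      (Continuous.intervalIntegrable (by fun_prop) _ _)
      (Continuous.intervalIntegrable (by fun_prop) _ _),
      intervalIntegral.integral_const_mul, hzero, mul_zero, sub_zero]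
  rw [hsplit]
  have hbound : ∀ x ∈ Set.uIoc (0 : ℝ) (2 * π), ‖-(E x * ((w x * g x : ℝ) : ℂ)) +
        Complex.I * (E x * ((dw x : ℝ) : ℂ))‖ ≤ C1 + C2 := by
    intro x _
    refine (norm_add_le _ _).trans ?_
    rw [norm_neg, norm_mul, norm_mul, norm_mul, nE, Complex.norm_I, one_mul, one_mul, one_mul,
      Complex.norm_real, Complex.norm_real, Real.norm_eq_abs, Real.norm_eq_abs]
    exact add_le_add (h1 x) (h2 x)
  refine (intervalIntegral.norm_integral_le_of_norm_le_const hbound).trans (le_of_eq ?_)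
  rw [sub_zero, abs_of_pos two_pi_pos]
  ring

/-- The oscillatory integral with the weight. -/
theorem osc_gen {c : ℕ → ℤ} {l K Λ y R : ℝ} (m : ℕ) (hA : c (m + 2) ≠ 0)
    (hR : ∀ i, |(c i : ℝ)| ≤ R) (hl : 0 < l) (hK : 1 ≤ K) (hlΛ : l + 2 ≤ Λ)
    (hKΛ : K ^ 2 ≤ Λ ^ 2) (h4 : 4 * Λ ≤ K ^ 2) :
    ‖∫ x in (0 : ℝ)..(2 * π), Complex.exp (Complex.I * (Ph c l y x (m + 3) : ℝ)) *
      ((h (c (m + 2)) 0 K l y x m * pt (c (m + 2)) 0 l y x m : ℝ) : ℂ)‖ ≤
      2 * π * (R / K + 4 * R * l / K ^ 2) := by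
  have hK0 : 0 < K := zero_lt_one.trans_le hK
  have hA1 : (1 : ℝ) ≤ |(c (m + 2) : ℝ)| := by
    rw [← Int.cast_abs]
    exact_mod_cast Int.one_le_abs hA
  have hA0 : (c (m + 2) : ℝ) ≠ 0 := Int.cast_ne_zero.2 hA
  have hsl : Continuous fun x : ℝ => ((y, x) : ℝ × ℝ) := by fun_prop
  have e1 : h (c (m + 2)) 0 K l y (2 * π) m = h (c (m + 2)) 0 K l y 0 m := by
    have := h_add (A := (c (m + 2) : ℝ)) (B := 0) (K := K) (l := l) (y := y) (x := 0) m
    rwa [zero_add] at this
  have e2 : ∃ n : ℤ, Ph c l y (2 * π) (m + 3) = Ph c l y 0 (m + 3) + n * (2 * π) := by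
    have := Ph_add c l y 0 (m + 3)
    rwa [zero_add] at this
  have r1 : Continuous fun x => Ph c l y x (m + 3) := by
    have := (continuous_Ph c l (m + 3)).comp hsl
    exact this
  have r2 : Continuous fun x => h (c (m + 2)) 0 K l y x m := by
    have := (continuous_h (A := (c (m + 2) : ℝ)) (B := (0 : ℝ)) (K := K) (l := l) hK0 hA0 m).comp
      hsl
    exact this
  have r3 : Continuous fun x => dh (c (m + 2)) 0 K l y x m := by
    have := (continuous_dh (A := (c (m + 2) : ℝ)) (B := (0 : ℝ)) (K := K) (l := l) hK0 hA0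
      m).comp hsl
    exact this
  have r4 : Continuous fun x => pt (c (m + 2)) 0 l y x m := by
    have := (continuous_pt (A := (c (m + 2) : ℝ)) (B := (0 : ℝ)) (l := l) m).comp hsl
    exact this
  have r5 : Continuous fun x => low c l y x m := by
    have := (continuous_low c l m).comp hsl
    exact this
  refine ibp_gen (fun x => Ph c l y x (m + 3)) (fun x => h (c (m + 2)) 0 K l y x m)
    (fun x => dh (c (m + 2)) 0 K l y x m) (fun x => pt (c (m + 2)) 0 l y x m)
    (fun x => low c l y x m) (R / K)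
    (4 * R * l / K ^ 2) r1 r2 r3 r4 r5
    (fun x => hasDerivAt_Ph c l y x m)
    (fun x => hasDerivAt_h (A := (c (m + 2) : ℝ)) (B := (0 : ℝ)) (K := K) (l := l) (y := y)
      (x := x) hK0 hA0 m)
    e1 e2
    (fun x => abs_h_low c (A := (c (m + 2) : ℝ)) hK hA0 hR m) (fun x => ?_)
  have h6 := abs_dh_le (A := (c (m + 2) : ℝ)) (B := (0 : ℝ)) (K := K) (l := l) (y := y) (x := x)
      hl hK hA1 (by rw [abs_zero, add_zero]; exact hlΛ) hKΛ h4 m
  refine h6.trans ?_
  apply div_le_div_of_nonneg_right _ (by positivity)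
  apply mul_le_mul_of_nonneg_right _ hl.le
  linarith [hR (m + 2)]

/-- The basic integral. -/
theorem basic_gen {c : ℕ → ℤ} {l K Λ δ R : ℝ} (m : ℕ) (hA : c (m + 2) ≠ 0)
    (hR : ∀ i, |(c i : ℝ)| ≤ R) (hl : 0 < l) (hK : 1 ≤ K)
    (hlΛ : l + 2 ≤ Λ) (hKΛ : K ^ 2 ≤ Λ ^ 2) (h4 : 4 * Λ ≤ K ^ 2) (hδ : 0 < δ)
    (hlδ : 6 ≤ l * δ) :
    ‖∫ p in Qd, Complex.exp (Complex.I * (Ph c l p.2 p.1 (m + 3) : ℝ))‖ ≤
      (2 * π) ^ 2 * (R / K + 4 * R * l / K ^ 2 +
        (m + 1) * (1 / K ^ 2 + 4 * K ^ 2 / (l * δ) ^ 2 + δ)) := by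
  have hK0 : 0 < K := zero_lt_one.trans_le hK
  have hA1 : (1 : ℝ) ≤ |(c (m + 2) : ℝ)| := by
    rw [← Int.cast_abs]
    exact_mod_cast Int.one_le_abs hA
  have hA0 : (c (m + 2) : ℝ) ≠ 0 := Int.cast_ne_zero.2 hA
  have cph : Continuous fun p : ℝ × ℝ => Ph c l p.2 p.1 (m + 3) := by
    have := (continuous_Ph c l (m + 3)).comp continuous_swap
    exact this
  have ch : Continuous fun p : ℝ × ℝ => h (c (m + 2)) 0 K l p.2 p.1 m := by
    have := (continuous_h (A := (c (m + 2) : ℝ)) (B := (0 : ℝ)) (K := K) (l := l) hK0 hA0 m).comp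
      continuous_swap
    exact this
  have cpt : Continuous fun p : ℝ × ℝ => pt (c (m + 2)) 0 l p.2 p.1 m := by
    have := (continuous_pt (A := (c (m + 2) : ℝ)) (B := (0 : ℝ)) (l := l) m).comp continuous_swap
    exact this
  set w : ℝ × ℝ → ℝ := fun p => h (c (m + 2)) 0 K l p.2 p.1 m * pt (c (m + 2)) 0 l p.2 p.1 m
    with hw
  have cw : Continuous w := ch.mul cpt
  have w01 : ∀ p, 0 ≤ w p ∧ w p ≤ 1 := fun p =>
    hpt_mem (A := (c (m + 2) : ℝ)) (B := (0 : ℝ)) (K := K) (l := l) (y := p.2) (x := p.1) hK0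
      hA0 m
  set E : ℝ × ℝ → ℂ := fun p => Complex.exp (Complex.I * (Ph c l p.2 p.1 (m + 3) : ℝ)) with hE
  have cE : Continuous E := by
    rw [hE]
    fun_prop
  have nE : ∀ p, ‖E p‖ = 1 := by
    intro p
    rw [hE]
    simp only
    rw [mul_comm]
    exact Complex.norm_exp_ofReal_mul_I _
  have i1 : IntegrableOn (fun p => E p * ((w p : ℝ) : ℂ)) Qd := by
    refine intOn_Qd _ (by fun_prop) 1 fun p => ?_
    rw [norm_mul, nE, Complex.norm_real, Real.norm_eq_abs,
      abs_of_nonneg (w01 p).1]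
    simpa using (w01 p).2
  have i2 : IntegrableOn (fun p => E p * ((1 - w p : ℝ) : ℂ)) Qd := by
    refine intOn_Qd _ (by fun_prop) 1 fun p => ?_
    rw [norm_mul, nE, Complex.norm_real, Real.norm_eq_abs,
      abs_of_nonneg (by linarith [(w01 p).2])]
    simpa using (w01 p).1
  have hsum : ∫ p in Qd, E p = (∫ p in Qd, E p * ((w p : ℝ) : ℂ)) +
      ∫ p in Qd, E p * ((1 - w p : ℝ) : ℂ) := by
    rw [← integral_add i1 i2]
    congr 1
    funext p
    push_cast
    ring
  rw [hsum]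
  -- first part
  have p1 : ‖∫ p in Qd, E p * ((w p : ℝ) : ℂ)‖ ≤ (2 * π) ^ 2 *
      (R / K + 4 * R * l / K ^ 2) := by
    have e1 : ∫ p in Qd, E p * ((w p : ℝ) : ℂ) =
        ∫ y in Ioc 0 (2 * π), ∫ x in Ioc 0 (2 * π), E (x, y) * ((w (x, y) : ℝ) : ℂ) := by
      have i1' := i1
      unfold Qd at i1' ⊢
      rw [Measure.volume_eq_prod] at i1' ⊢
      unfold IntegrableOn at i1'
      rw [← Measure.prod_restrict] at i1' ⊢
      exact integral_prod_symm _ i1'
    rw [e1]
    have e2 : ∀ y ∈ Ioc (0 : ℝ) (2 * π),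
        ‖∫ x in Ioc 0 (2 * π), E (x, y) * ((w (x, y) : ℝ) : ℂ)‖ ≤
        2 * π * (R / K + 4 * R * l / K ^ 2) := by
      intro y _
      rw [← intervalIntegral.integral_of_le two_pi_pos.le]
      exact osc_gen m hA hR hl hK hlΛ hKΛ h4
    have e4 := norm_setIntegral_le_of_norm_le_const (μ := (volume : Measure ℝ))
      (s := Ioc (0 : ℝ) (2 * π)) (by rw [Real.volume_Ioc]; exact ENNReal.ofReal_lt_top) e2
    have e5 : volume.real (Ioc (0 : ℝ) (2 * π)) = 2 * π := vol_Ioc
    rw [e5] at e4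
    refine e4.trans (le_of_eq ?_)
    ring
  -- second part
  have p2 : ‖∫ p in Qd, E p * ((1 - w p : ℝ) : ℂ)‖ ≤ (2 * π) ^ 2 *
      ((m + 1) * (1 / K ^ 2 + 4 * K ^ 2 / (l * δ) ^ 2 + δ)) := by
    refine (norm_integral_le_integral_norm _).trans ?_
    have e1 : ∀ p, ‖E p * ((1 - w p : ℝ) : ℂ)‖ = 1 - w p := by
      intro p
      rw [norm_mul, nE, Complex.norm_real, Real.norm_eq_abs,
        abs_of_nonneg (by linarith [(w01 p).2])]
      ring
    simp only [e1]
    have hmi : Measurable (ind δ) := by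
      unfold ind
      exact Measurable.ite (measurableSet_le (by fun_prop) measurable_const) measurable_const
        measurable_const
    have iI : ∀ i : ℕ, IntegrableOn (fun p : ℝ × ℝ => ind δ (X l p.2 p.1 (i + 1))) Qd := by
      intro i
      refine intOn_Qd _ ?_ 1 fun p => ?_
      · exact (hmi.comp ((continuous_X (l := l) i).2.comp
          continuous_swap).measurable).aestronglyMeasurable
      · unfold ind
        split_ifs <;> norm_num
    set a : ℝ := (m + 1) * (1 / K ^ 2 + 4 * K ^ 2 / (l * δ) ^ 2) with ha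
    have iS : IntegrableOn (fun p : ℝ × ℝ => a +
        ∑ i ∈ Finset.range (m + 1), ind δ (X l p.2 p.1 (i + 1))) Qd := by
      refine Integrable.add ?_ ?_
      · exact intOn_Qd _ aestronglyMeasurable_const |a| fun p => le_rfl
      · exact integrable_finsetSum _ fun i _ => iI i
    have e2 : ∫ p in Qd, (1 - w p) ≤ ∫ p in Qd, (a +
        ∑ i ∈ Finset.range (m + 1), ind δ (X l p.2 p.1 (i + 1))) := by
      refine integral_mono ?_ iS fun p => ?_
      · refine intOn_Qd _ (by fun_prop) 1 fun p => ?_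
        rw [Real.norm_eq_abs, abs_of_nonneg (by linarith [(w01 p).2])]
        linarith [(w01 p).1]
      · exact one_sub_hpt (A := (c (m + 2) : ℝ)) (B := (0 : ℝ)) (K := K) (l := l) (y := p.2)
          (x := p.1) hl hK0 hδ hA1 (by rw [abs_zero]; linarith) m
    refine e2.trans ?_
    rw [integral_add (intOn_Qd _ aestronglyMeasurable_const |a| fun p => le_rfl)
      (integrable_finsetSum _ fun i _ => iI i), integral_finsetSum _ fun i _ => iI i,
      setIntegral_const, smul_eq_mul]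
    have e5 : volume.real Qd = (2 * π) ^ 2 := vol_Qd
    rw [e5]
    have e6 : ∑ i ∈ Finset.range (m + 1), ∫ p in Qd, ind δ (X l p.2 p.1 (i + 1)) ≤
        ∑ _i ∈ Finset.range (m + 1), (2 * π) ^ 2 * δ :=
      Finset.sum_le_sum fun i _ => int_ind l δ hδ.le i
    rw [Finset.sum_const, Finset.card_range, nsmul_eq_mul] at e6
    push_cast at e6
    rw [ha]
    linarith
  refine (norm_add_le _ _).trans ?_
  linarith

/-- Numbers for the choice `l = t ^ 7`, `K = t ^ 4`, `δ = t ^ (-2)`. -/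
theorem multi_t {c : ℕ → ℤ} {t R : ℝ} (m : ℕ) (hA : c (m + 2) ≠ 0)
    (hR : ∀ i, |(c i : ℝ)| ≤ R) (ht : 12 ≤ t) (hm : (m : ℝ) + 1 ≤ t) :
    ‖∫ p in Qd, Complex.exp (Complex.I * (Ph c (t ^ 7) p.2 p.1 (m + 3) : ℝ))‖ ≤
      (2 * π) ^ 2 * ((5 * R + 6) / t) := by
  have hR0 : 0 ≤ R := (abs_nonneg _).trans (hR 0)
  have ht0 : 0 < t := by linarith
  have h1 : 1 ≤ t ^ 6 := one_le_pow₀ (by linarith)
  have h7 : t ≤ t ^ 7 := by
    calc t = t * 1 := (mul_one t).symm
      _ ≤ t * t ^ 6 := mul_le_mul_of_nonneg_left h1 ht0.le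
      _ = t ^ 7 := by ring
  have hlt : 1 ≤ t ^ 7 := one_le_pow₀ (by linarith)
  have h4 : 4 * (t ^ 7 + 2) ≤ (t ^ 4) ^ 2 := by
    have e : (t ^ 4) ^ 2 = t * t ^ 7 := by ring
    rw [e]
    have e2 : 12 * t ^ 7 ≤ t * t ^ 7 :=
      mul_le_mul_of_nonneg_right ht (by positivity)
    linarith
  have hb := basic_gen (c := c) (l := t ^ 7) (K := t ^ 4)
    (Λ := t ^ 7 + 2) (δ := 1 / t ^ 2) (R := R) m hA hR (by positivity)
    (one_le_pow₀ (by linarith))
    le_rfl (by
      have e : (t ^ 4) ^ 2 ≤ (t ^ 7) ^ 2 := by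
        apply pow_le_pow_left₀ (by positivity)
        exact pow_le_pow_right₀ (by linarith) (by norm_num)
      refine e.trans ?_
      apply pow_le_pow_left₀ (by positivity)
      linarith) h4 (by positivity) (by
      have e : t ^ 7 * (1 / t ^ 2) = t ^ 5 := by
        field_simp
      rw [e]
      have e2 : t ≤ t ^ 5 := le_self_pow₀ (by linarith) (by norm_num)
      linarith)
  refine hb.trans ?_
  apply mul_le_mul_of_nonneg_left _ (by positivity)
  have e1 : R / t ^ 4 ≤ R / t := by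
    apply div_le_div_of_nonneg_left hR0 ht0
    exact le_self_pow₀ (by linarith) (by norm_num)
  have e2 : 4 * R * t ^ 7 / (t ^ 4) ^ 2 = 4 * R / t := by
    field_simp
  have e3 : 1 / (t ^ 4) ^ 2 + 4 * (t ^ 4) ^ 2 / (t ^ 7 * (1 / t ^ 2)) ^ 2 + 1 / t ^ 2 ≤
      6 / t ^ 2 := by
    have e : 4 * (t ^ 4) ^ 2 / (t ^ 7 * (1 / t ^ 2)) ^ 2 = 4 / t ^ 2 := by
      field_simp
    have e' : 1 / (t ^ 4) ^ 2 ≤ 1 / t ^ 2 := by
      apply one_div_le_one_div_of_le (by positivity)
      rw [← pow_mul]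
      exact pow_le_pow_right₀ (by linarith) (by norm_num)
    rw [e]
    have : 6 / t ^ 2 = 1 / t ^ 2 + 4 / t ^ 2 + 1 / t ^ 2 := by ring
    linarith
  have e4 : ((m : ℝ) + 1) * (1 / (t ^ 4) ^ 2 + 4 * (t ^ 4) ^ 2 / (t ^ 7 * (1 / t ^ 2)) ^ 2 +
      1 / t ^ 2) ≤ t * (6 / t ^ 2) :=
    mul_le_mul hm e3 (by positivity) ht0.le
  have e5 : t * (6 / t ^ 2) = 6 / t := by
    field_simp
  have e6 : (5 * R + 6) / t = R / t + 4 * R / t + 6 / t := by ring
  linarith

end Pool.Agent.SM
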