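import Pool.Agent.Lib.SM.Corr
import Pool.Agent.Lib.SM.LOne

/-!
# The standard map: orbits (helper90)
-/

set_option autoImplicit false

open Real MeasureTheory Set

namespace Pool.Agent.SM

/-- The standard map on the plane. -/
noncomputable def T (l : ℝ) (p : ℝ × ℝ) : ℝ × ℝ := (2 * p.1 - p.2 + l * sin p.1, p.1)

/-- The inverse. -/
noncomputable def S (l : ℝ) (p : ℝ × ℝ) : ℝ × ℝ := (p.2, 2 * p.2 - p.1 + l * sin p.2)

theorem S_T (l : ℝ) (p : ℝ × ℝ) : S l (T l p) = p := by
  unfold S T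
  ext
  · rfl
  · show 2 * p.1 - (2 * p.1 - p.2 + l * sin p.1) + l * sin p.1 = p.2
    ring

theorem measurable_T (l : ℝ) : Measurable (T l) := by
  unfold T
  fun_prop

theorem measurable_S (l : ℝ) : Measurable (S l) := by
  unfold S
  fun_prop

theorem measurable_Ti (l : ℝ) (j : ℕ) : Measurable ((T l)^[j]) := (measurable_T l).iterate j

theorem measurable_Si (l : ℝ) (j : ℕ) : Measurable ((S l)^[j]) := (measurable_S l).iterate j

/-- Functions on the torus. -/
structure Per (f : ℝ × ℝ → ℂ) : Prop where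
  one : ∀ x y, f (x + 2 * π, y) = f (x, y)
  two : ∀ x y, f (x, y + 2 * π) = f (x, y)

theorem Per.int {f : ℝ × ℝ → ℂ} (h : Per f) (x y : ℝ) (a b : ℤ) :
    f (x + a * (2 * π), y + b * (2 * π)) = f (x, y) := by
  have h1 : Function.Periodic (fun x => f (x, y + b * (2 * π))) (2 * π) := fun x => h.one _ _
  have h2 : Function.Periodic (fun y => f (x, y)) (2 * π) := fun y => h.two _ _
  exact (h1.int_mul a x).trans (h2.int_mul b y)

theorem Per.T {f : ℝ × ℝ → ℂ} (h : Per f) (l : ℝ) : Per fun p => f (T l p) := by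
  constructor
  · intro x y
    have e : SM.T l (x + 2 * π, y) = ((SM.T l (x, y)).1 + (2 : ℤ) * (2 * π),
        (SM.T l (x, y)).2 + (1 : ℤ) * (2 * π)) := by
      unfold SM.T
      ext
      · show 2 * (x + 2 * π) - y + l * sin (x + 2 * π) = 2 * x - y + l * sin x + _
        rw [sin_add_two_pi]
        push_cast
        ring
      · show x + 2 * π = x + _
        push_cast
        ring
    show f (SM.T l (x + 2 * π, y)) = f (SM.T l (x, y))
    rw [e, h.int]
  · intro x y
    have e : SM.T l (x, y + 2 * π) = ((SM.T l (x, y)).1 + (-1 : ℤ) * (2 * π),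
        (SM.T l (x, y)).2 + (0 : ℤ) * (2 * π)) := by
      unfold SM.T
      ext
      · show 2 * x - (y + 2 * π) + l * sin x = 2 * x - y + l * sin x + _
        push_cast
        ring
      · show x = x + _
        push_cast
        ring
    show f (SM.T l (x, y + 2 * π)) = f (SM.T l (x, y))
    rw [e, h.int]

theorem Per.S {f : ℝ × ℝ → ℂ} (h : Per f) (l : ℝ) : Per fun p => f (S l p) := by
  constructor
  · intro x y
    have e : SM.S l (x + 2 * π, y) = ((SM.S l (x, y)).1 + (0 : ℤ) * (2 * π),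
        (SM.S l (x, y)).2 + (-1 : ℤ) * (2 * π)) := by
      unfold SM.S
      ext
      · show y = y + _
        push_cast
        ring
      · show 2 * y - (x + 2 * π) + l * sin y = 2 * y - x + l * sin y + _
        push_cast
        ring
    show f (SM.S l (x + 2 * π, y)) = f (SM.S l (x, y))
    rw [e, h.int]
  · intro x y
    have e : SM.S l (x, y + 2 * π) = ((SM.S l (x, y)).1 + (1 : ℤ) * (2 * π),
        (SM.S l (x, y)).2 + (2 : ℤ) * (2 * π)) := by
      unfold SM.S
      ext
      · show y + 2 * π = y + _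
        push_cast
        ring
      · show 2 * (y + 2 * π) - x + l * sin (y + 2 * π) = 2 * y - x + l * sin y + _
        rw [sin_add_two_pi]
        push_cast
        ring
    show f (SM.S l (x, y + 2 * π)) = f (SM.S l (x, y))
    rw [e, h.int]

theorem Per.Ti {f : ℝ × ℝ → ℂ} (h : Per f) (l : ℝ) (j : ℕ) : Per fun p => f ((SM.T l)^[j] p) := by
  induction j with
  | zero => exact h
  | succ j ih =>
    have := ih.T l
    simp only [← Function.iterate_succ_apply] at this
    exact this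

theorem Per.Si {f : ℝ × ℝ → ℂ} (h : Per f) (l : ℝ) (j : ℕ) : Per fun p => f ((SM.S l)^[j] p) := by
  induction j with
  | zero => exact h
  | succ j ih =>
    have := ih.S l
    simp only [← Function.iterate_succ_apply] at this
    exact this

theorem Per.mul {f g : ℝ × ℝ → ℂ} (hf : Per f) (hg : Per g) : Per fun p => f p * g p :=
  ⟨fun x y => by rw [hf.one, hg.one], fun x y => by rw [hf.two, hg.two]⟩

/-- Invariance of the integral. -/
theorem int_T (l : ℝ) {f : ℝ × ℝ → ℂ} (hm : Measurable f) (B : ℝ) (hb : ∀ p, ‖f p‖ ≤ B)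
    (h : Per f) : ∫ p in Qd, f (T l p) = ∫ p in Qd, f p :=
  inv_T l f hm ⟨B, hb⟩ h.one h.two

theorem int_Ti (l : ℝ) {f : ℝ × ℝ → ℂ} (hm : Measurable f) (B : ℝ) (hb : ∀ p, ‖f p‖ ≤ B)
    (h : Per f) (j : ℕ) : ∫ p in Qd, f ((T l)^[j] p) = ∫ p in Qd, f p := by
  induction j with
  | zero => rfl
  | succ j ih =>
    have h1 := int_T l (f := fun p => f ((T l)^[j] p)) (hm.comp (measurable_Ti l j)) B
      (fun p => hb _) (h.Ti l j)
    rw [← ih, ← h1]
    rfl

/-- The transfer to the inverse. -/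
theorem transfer (l : ℝ) {g : ℝ × ℝ → ℂ} (hgm : Measurable g) (hgb : ∀ p, ‖g p‖ ≤ 1)
    (hg : Per g) (j : ℕ) : ∀ f : ℝ × ℝ → ℂ, Measurable f → (∀ p, ‖f p‖ ≤ 1) → Per f →
    ∫ p in Qd, g ((T l)^[j] p) * f p = ∫ p in Qd, g p * f ((S l)^[j] p) := by
  induction j with
  | zero => intro f _ _ _; rfl
  | succ j ih =>
    intro f hfm hfb hf
    have h1 := ih (fun p => f (S l p)) (hfm.comp (measurable_S l)) (fun p => hfb _) (hf.S l)
    have h2 := int_T l (f := fun p => g ((T l)^[j] p) * f (S l p))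
      ((hgm.comp (measurable_Ti l j)).mul (hfm.comp (measurable_S l))) 1
      (fun p => by
        rw [norm_mul]
        exact mul_le_one₀ (hgb _) (norm_nonneg _) (hfb _)) ((hg.Ti l j).mul (hf.S l))
    simp only [S_T, ← Function.iterate_succ_apply, ← Function.iterate_succ_apply'] at h1 h2
    rw [h2, h1]

/-- The norm is preserved as well. -/
theorem int_norm_Ti (l : ℝ) {f : ℝ × ℝ → ℂ} (hm : Measurable f) (B : ℝ) (hb : ∀ p, ‖f p‖ ≤ B)
    (h : Per f) (j : ℕ) : ∫ p in Qd, ‖f ((T l)^[j] p)‖ = ∫ p in Qd, ‖f p‖ := by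
  have h1 := int_Ti l (f := fun p => ((‖f p‖ : ℝ) : ℂ)) (Complex.measurable_ofReal.comp hm.norm)
    B (fun p => by
      rw [Complex.norm_real, norm_norm]
      exact hb p) ⟨fun x y => by rw [h.one], fun x y => by rw [h.two]⟩ j
  rw [integral_complex_ofReal, integral_complex_ofReal] at h1
  exact_mod_cast h1

/-- Twisted sums along orbits. -/
noncomputable def A (l : ℝ) (ζ : ℂ) (φ : ℝ × ℝ → ℂ) (n : ℕ) (p : ℝ × ℝ) : ℂ :=
  ∑ j ∈ Finset.range n, ζ ^ j * φ ((T l)^[j] p)

section Sums

variable {l : ℝ} {ζ : ℂ} {φ : ℝ × ℝ → ℂ}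

theorem measurable_A (hm : Measurable φ) (n : ℕ) : Measurable (A l ζ φ n) := by
  unfold A
  exact Finset.measurable_fun_sum _ fun j _ => (hm.comp (measurable_Ti l j)).const_mul _

theorem norm_A_le (hζ : ‖ζ‖ = 1) {B : ℝ} (hb : ∀ p, ‖φ p‖ ≤ B) (n : ℕ) (p : ℝ × ℝ) :
    ‖A l ζ φ n p‖ ≤ n * B := by
  unfold A
  refine (norm_sum_le _ _).trans ?_
  calc ∑ j ∈ Finset.range n, ‖ζ ^ j * φ ((T l)^[j] p)‖ ≤ ∑ _j ∈ Finset.range n, B := by
        refine Finset.sum_le_sum fun j _ => ?_
        rw [norm_mul, norm_pow, hζ, one_pow, one_mul]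
        exact hb _
    _ = n * B := by
        rw [Finset.sum_const, Finset.card_range, nsmul_eq_mul]

theorem per_A (h : Per φ) (n : ℕ) : Per (A l ζ φ n) := by
  constructor
  · intro x y
    unfold A
    exact Finset.sum_congr rfl fun j _ => by rw [(h.Ti l j).one]
  · intro x y
    unfold A
    exact Finset.sum_congr rfl fun j _ => by rw [(h.Ti l j).two]

theorem A_add (n m : ℕ) (p : ℝ × ℝ) :
    A l ζ φ (n + m) p = A l ζ φ n p + ζ ^ n * A l ζ φ m ((T l)^[n] p) := by
  unfold A
  rw [Finset.sum_range_add, Finset.mul_sum]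
  congr 1
  refine Finset.sum_congr rfl fun j _ => ?_
  rw [← Function.iterate_add_apply, add_comm j n, pow_add]
  ring

/-- Blocks. -/
theorem block (hζ : ‖ζ‖ = 1) (hm : Measurable φ) (hb : ∀ p, ‖φ p‖ ≤ 1) (h : Per φ)
    (n r q : ℕ) : ∫ p in Qd, ‖A l ζ φ (q * n + r) p‖ ≤
      q * (∫ p in Qd, ‖A l ζ φ n p‖) + r * (2 * π) ^ 2 := by
  induction q with
  | zero =>
    rw [Nat.zero_mul, Nat.zero_add, Nat.cast_zero, zero_mul, zero_add]
    have h1 : ∫ p in Qd, ‖A l ζ φ r p‖ ≤ ∫ _p in Qd, (r : ℝ) := by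
      refine integral_mono (intOn_Qd _ (measurable_A hm r).aestronglyMeasurable r fun p => ?_).norm
        (intOn_Qd _ aestronglyMeasurable_const |(r : ℝ)| fun p => le_rfl) fun p => ?_
      · simpa using norm_A_le (l := l) hζ hb r p
      · simpa using norm_A_le (l := l) hζ hb r p
    refine h1.trans (le_of_eq ?_)
    have e5 : volume.real Qd = (2 * π) ^ 2 := vol_Qd
    rw [setIntegral_const, smul_eq_mul, e5]
    ring
  | succ q ih =>
    have e : (q + 1) * n + r = n + (q * n + r) := by ring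
    have hi : ∀ k, IntegrableOn (fun p => ‖A l ζ φ k p‖) Qd := fun k =>
      (intOn_Qd _ (measurable_A hm k).aestronglyMeasurable k fun p => by
        simpa using norm_A_le (l := l) hζ hb k p).norm
    have hi2 : IntegrableOn (fun p => ‖A l ζ φ (q * n + r) ((T l)^[n] p)‖) Qd :=
      (intOn_Qd _ ((measurable_A hm (q * n + r)).comp (measurable_Ti l n)).aestronglyMeasurable
        ((q * n + r : ℕ) : ℝ) fun p => by
        simpa using norm_A_le (l := l) hζ hb (q * n + r) ((T l)^[n] p)).norm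
    have h1 : ∫ p in Qd, ‖A l ζ φ ((q + 1) * n + r) p‖ ≤
        ∫ p in Qd, (‖A l ζ φ n p‖ + ‖A l ζ φ (q * n + r) ((T l)^[n] p)‖) := by
      refine integral_mono (hi _) ((hi n).add hi2) fun p => ?_
      simp only
      rw [e, A_add]
      refine (norm_add_le _ _).trans ?_
      rw [norm_mul, norm_pow, hζ, one_pow, one_mul]
    rw [integral_add (hi n) hi2, int_norm_Ti l (measurable_A hm _) ((q * n + r : ℕ) * 1)
      (fun p => norm_A_le hζ hb _ p) (per_A h _) n] at h1
    push_cast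
    linarith

end Sums

end Pool.Agent.SM
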