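import Pool.Agent.Lib.SM.IBP

/-!
# The standard map: the oscillatory integral (helper90)
-/

set_option autoImplicit false

open Real

namespace Pool.Agent.SM

section Cont

variable {l K A B : ℝ}

theorem continuous_Om (i : ℕ) : Continuous fun p : ℝ × ℝ => Om l p.1 p.2 i := by
  unfold Om
  exact ((continuous_Q i).2.mul (continuous_P i).1).sub ((continuous_P i).2.mul (continuous_Q i).1)

theorem continuous_dv (hK : 0 < K) (i : ℕ) : Continuous fun p : ℝ × ℝ => dv K l p.1 p.2 i := by
  unfold dv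
  refine ((continuous_Om i).mul ((continuous_const.mul ((continuous_P i).1.pow 2)).sub
    ((continuous_P i).2.pow 2))).div ?_ fun p => (pow_pos (N_pos hK i) 2).ne'
  unfold N
  exact (((continuous_P i).2.pow 2).add (continuous_const.mul ((continuous_P i).1.pow 2))).pow 2

theorem continuous_dV (hK : 0 < K) (m : ℕ) : Continuous fun p : ℝ × ℝ => dV K l p.1 p.2 m := by
  induction m with
  | zero => exact continuous_const
  | succ m ih =>
    exact (ih.mul (continuous_v hK (m + 1))).add
      ((continuous_V hK m).mul (continuous_dv hK (m + 1)))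

theorem continuous_Nt (m : ℕ) : Continuous fun p : ℝ × ℝ => Nt A B K l p.1 p.2 m := by
  unfold Nt
  exact ((continuous_pt m).pow 2).add (continuous_const.mul ((continuous_P m).2.pow 2))

theorem continuous_dh (hK : 0 < K) (hA : A ≠ 0) (m : ℕ) :
    Continuous fun p : ℝ × ℝ => dh A B K l p.1 p.2 m := by
  unfold dh
  refine ((continuous_dV hK m).mul ?_).add ((continuous_V hK m).mul ?_)
  · unfold vt
    exact ((continuous_pt m).mul (continuous_P m).2).div (continuous_Nt m)
      fun p => (Nt_pos hK hA m).ne'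
  · unfold dvt
    exact ((continuous_const.mul (continuous_Om (m + 1))).mul
      ((continuous_const.mul ((continuous_P m).2.pow 2)).sub ((continuous_pt m).pow 2))).div
      ((continuous_Nt m).pow 2) fun p => (pow_pos (Nt_pos hK hA m) 2).ne'

end Cont

/-- The phase. -/
noncomputable def ph (A B c : ℤ) (l y x : ℝ) (m : ℕ) : ℝ :=
  A * X l y x (m + 2) + B * X l y x (m + 1) - c * x

theorem hasDerivAt_ph (A B c : ℤ) (l y x : ℝ) (m : ℕ) :
    HasDerivAt (fun x => ph A B c l y x m) (pt A B l y x m - c) x := by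
  have h0 := (hasDerivAt_X (l := l) (y := y) (x := x) m).2
  have h1 := (hasDerivAt_X (l := l) (y := y) (x := x) (m + 1)).2
  refine (((h1.const_mul (A : ℝ)).add (h0.const_mul (B : ℝ))).sub
    ((hasDerivAt_id x).const_mul (c : ℝ))).congr_deriv ?_
  unfold pt
  ring

theorem ph_add (A B c : ℤ) (l y x : ℝ) (m : ℕ) : ∃ n : ℤ,
    ph A B c l y (x + 2 * π) m = ph A B c l y x m + n * (2 * π) := by
  refine ⟨A * (m + 2) + B * (m + 1) - c, ?_⟩
  unfold ph
  rw [(X_add (m + 1)).1, (X_add (m + 2)).1]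
  push_cast
  ring

theorem continuous_ph (A B c : ℤ) (l : ℝ) (m : ℕ) :
    Continuous fun p : ℝ × ℝ => ph A B c l p.1 p.2 m := by
  unfold ph
  exact ((continuous_const.mul (continuous_X (m + 1)).2).add
    (continuous_const.mul (continuous_X (m + 1)).1)).sub (continuous_const.mul continuous_snd)

/-- Integration by parts over a period, abstract form. -/
theorem ibp_abs (φ w dw q : ℝ → ℝ) (c C1 C2 : ℝ) (cφ : Continuous φ) (cw : Continuous w)
    (cdw : Continuous dw) (cq : Continuous q) (dφ : ∀ x, HasDerivAt φ (q x - c) x)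
    (dw' : ∀ x, HasDerivAt w (dw x) x) (hper : w (2 * π) = w 0)
    (hφ : ∃ n : ℤ, φ (2 * π) = φ 0 + n * (2 * π)) (h1 : ∀ x, |w x| ≤ C1) (h2 : ∀ x, |dw x| ≤ C2) :
    ‖∫ x in (0 : ℝ)..(2 * π), Complex.exp (Complex.I * (φ x : ℝ)) * ((w x * q x : ℝ) : ℂ)‖ ≤
      2 * π * (|c| * C1 + C2) := by
  set E : ℝ → ℂ := fun x => Complex.exp (Complex.I * (φ x : ℝ)) with hE
  have cE : Continuous E := by
    rw [hE]
    fun_prop
  have nE : ∀ x, ‖E x‖ = 1 := by
    intro x
    rw [hE]
    simp only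
    rw [mul_comm]
    exact Complex.norm_exp_ofReal_mul_I _
  have dE : ∀ x, HasDerivAt E (E x * (Complex.I * ((q x - c : ℝ) : ℂ))) x := by
    intro x
    have h1 := ((dφ x).ofReal_comp).const_mul Complex.I
    exact h1.cexp
  have dG : ∀ x, HasDerivAt (fun x => E x * ((w x : ℝ) : ℂ))
      (E x * (Complex.I * ((q x - c : ℝ) : ℂ)) * ((w x : ℝ) : ℂ) +
        E x * ((dw x : ℝ) : ℂ)) x := by
    intro x
    exact (dE x).mul (dw' x).ofReal_comp
  have hzero : ∫ x in (0 : ℝ)..(2 * π),
      (E x * (Complex.I * ((q x - c : ℝ) : ℂ)) * ((w x : ℝ) : ℂ) +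
        E x * ((dw x : ℝ) : ℂ)) = 0 := by
    rw [intervalIntegral.integral_eq_sub_of_hasDerivAt (fun x _ => dG x)
      (Continuous.intervalIntegrable (by fun_prop) _ _)]
    have e2 : E (2 * π) = E 0 := by
      obtain ⟨n, hn⟩ := hφ
      rw [hE]
      simp only
      rw [hn]
      push_cast
      rw [mul_add, Complex.exp_add]
      have : Complex.exp (Complex.I * (n * (2 * π))) = 1 := by
        rw [show Complex.I * (n * (2 * π)) = n * (2 * π * Complex.I) by ring]
        exact Complex.exp_int_mul_two_pi_mul_I n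
      rw [this, mul_one]
    rw [hper, e2, sub_self]
  have hsplit : ∫ x in (0 : ℝ)..(2 * π), E x * ((w x * q x : ℝ) : ℂ) =
      ∫ x in (0 : ℝ)..(2 * π), (E x * ((c : ℂ) * ((w x : ℝ) : ℂ)) +
        Complex.I * (E x * ((dw x : ℝ) : ℂ))) := by
    have e : ∀ x, E x * ((w x * q x : ℝ) : ℂ) =
        (E x * ((c : ℂ) * ((w x : ℝ) : ℂ)) +
        Complex.I * (E x * ((dw x : ℝ) : ℂ))) - Complex.I *
        (E x * (Complex.I * ((q x - c : ℝ) : ℂ)) * ((w x : ℝ) : ℂ) +
        E x * ((dw x : ℝ) : ℂ)) := by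
      intro x
      push_cast
      have hI := Complex.I_mul_I
      linear_combination (E x * ((q x : ℝ) - (c : ℂ)) * (w x : ℝ)) * hI
    rw [intervalIntegral.integral_congr fun x _ => e x, intervalIntegral.integral_sub
      (Continuous.intervalIntegrable (by fun_prop) _ _)
      (Continuous.intervalIntegrable (by fun_prop) _ _),
      intervalIntegral.integral_const_mul, hzero, mul_zero, sub_zero]
  rw [hsplit]
  have hbound : ∀ x ∈ Set.uIoc (0 : ℝ) (2 * π), ‖E x * ((c : ℂ) * ((w x : ℝ) : ℂ)) +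
        Complex.I * (E x * ((dw x : ℝ) : ℂ))‖ ≤ |c| * C1 + C2 := by
    intro x _
    refine (norm_add_le _ _).trans ?_
    rw [norm_mul, norm_mul, norm_mul, norm_mul, nE, Complex.norm_I, one_mul, one_mul, one_mul,
      Complex.norm_real, Complex.norm_real, Complex.norm_real, Real.norm_eq_abs,
      Real.norm_eq_abs, Real.norm_eq_abs]
    have b3 : |c| * |w x| ≤ |c| * C1 := mul_le_mul_of_nonneg_left (h1 x) (abs_nonneg _)
    have b4 := h2 x
    linarith
  refine (intervalIntegral.norm_integral_le_of_norm_le_const hbound).trans (le_of_eq ?_)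
  rw [sub_zero, abs_of_pos two_pi_pos]
  ring

/-- The oscillatory integral with the weight. -/
theorem osc {A B c : ℤ} {l K Λ y : ℝ} (hA : A ≠ 0) (hl : 0 < l) (hK : 1 ≤ K)
    (hlΛ : l + 2 + |(B : ℝ)| ≤ Λ) (hKΛ : K ^ 2 ≤ Λ ^ 2) (h4 : 4 * Λ ≤ K ^ 2) (m : ℕ) :
    ‖∫ x in (0 : ℝ)..(2 * π), Complex.exp (Complex.I * (ph A B c l y x m : ℝ)) *
      ((h A B K l y x m * pt A B l y x m : ℝ) : ℂ)‖ ≤
      2 * π * (|(c : ℝ)| * (1 / (2 * K)) + 4 * |(A : ℝ)| * l / K ^ 2) := by
  have hK0 : 0 < K := zero_lt_one.trans_le hK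
  have hA1 : (1 : ℝ) ≤ |(A : ℝ)| := by
    rw [← Int.cast_abs]
    exact_mod_cast Int.one_le_abs hA
  have hA0 : (A : ℝ) ≠ 0 := Int.cast_ne_zero.2 hA
  have hsl : Continuous fun x : ℝ => ((y, x) : ℝ × ℝ) := by fun_prop
  have e1 : h A B K l y (2 * π) m = h A B K l y 0 m := by
    have := h_add (A := A) (B := B) (K := K) (l := l) (y := y) (x := 0) m
    rwa [zero_add] at this
  have e2 : ∃ n : ℤ, ph A B c l y (2 * π) m = ph A B c l y 0 m + n * (2 * π) := by
    have := ph_add A B c l y 0 m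
    rwa [zero_add] at this
  have r1 : Continuous fun x => ph A B c l y x m := by
    have := (continuous_ph A B c l m).comp hsl
    exact this
  have r2 : Continuous fun x => h A B K l y x m := by
    have := (continuous_h (A := (A : ℝ)) (B := (B : ℝ)) (K := K) (l := l) hK0 hA0 m).comp hsl
    exact this
  have r3 : Continuous fun x => dh A B K l y x m := by
    have := (continuous_dh (A := (A : ℝ)) (B := (B : ℝ)) (K := K) (l := l) hK0 hA0 m).comp hsl
    exact this
  have r4 : Continuous fun x => pt A B l y x m := by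
    have := (continuous_pt (A := (A : ℝ)) (B := (B : ℝ)) (l := l) m).comp hsl
    exact this
  exact ibp_abs (fun x => ph A B c l y x m) (fun x => h A B K l y x m)
    (fun x => dh A B K l y x m) (fun x => pt A B l y x m) c (1 / (2 * K))
    (4 * |(A : ℝ)| * l / K ^ 2) r1 r2 r3 r4
    (fun x => hasDerivAt_ph A B c l y x m)
    (fun x => hasDerivAt_h (A := (A : ℝ)) (B := (B : ℝ)) (K := K) (l := l) (y := y) (x := x) hK0 hA0 m)
    e1 e2
    (fun x => abs_h_le (A := (A : ℝ)) (B := (B : ℝ)) (K := K) (l := l) (y := y) (x := x) hK hA0 m)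
    (fun x => abs_dh_le (A := (A : ℝ)) (B := (B : ℝ)) (K := K) (l := l) (y := y) (x := x)
      hl hK hA1 hlΛ hKΛ h4 m)

end Pool.Agent.SM
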