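import Mathlib

/-!
# The maximal ergodic inequality (row MAX of the standard map project)
-/

set_option autoImplicit false

open MeasureTheory Set

namespace Pool.Agent.SM

namespace MaxAux

variable {α : Type*}

/-- The running maximum `max_{0 ≤ k ≤ N} (g x + g (T x) + … + g (T ^ (k - 1) x))`. -/
noncomputable def runMax (g : α → ℝ) (T : α → α) : ℕ → α → ℝ
  | 0 => fun _ => 0
  | N + 1 => fun x => max 0 (g x + runMax g T N (T x))

variable {g : α → ℝ} {T : α → α}

lemma runMax_nonneg (N : ℕ) (x : α) : 0 ≤ runMax g T N x := by
  cases N with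
  | zero => exact le_rfl
  | succ N => exact le_max_left _ _

lemma runMax_le {C : ℝ} (hC : 0 ≤ C) (hg : ∀ x, g x ≤ C) (N : ℕ) (x : α) :
    runMax g T N x ≤ N * C := by
  induction N generalizing x with
  | zero => simp [runMax]
  | succ N ih =>
    refine max_le (by positivity) ?_
    have h1 := hg x
    have h2 := ih (T x)
    push_cast
    linarith

lemma runMax_mono (N : ℕ) (x : α) : runMax g T N x ≤ runMax g T (N + 1) x := by
  induction N generalizing x with
  | zero => exact runMax_nonneg 1 x
  | succ N ih =>
    refine max_le_max le_rfl ?_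
    have := ih (T x)
    linarith

lemma runMax_monotone (x : α) : Monotone fun N => runMax g T N x :=
  monotone_nat_of_le_succ fun N => runMax_mono N x

lemma sum_le_runMax (n : ℕ) (x : α) : ∑ j ∈ Finset.range n, g (T^[j] x) ≤ runMax g T n x := by
  induction n generalizing x with
  | zero => simp [runMax]
  | succ n ih =>
    rw [Finset.sum_range_succ']
    refine le_trans ?_ (le_max_right _ _)
    have := ih (T x)
    simp only [Function.iterate_succ, Function.comp_apply, Function.iterate_zero, id_eq]
    linarith

lemma runMax_le_add {N : ℕ} {x : α} (h : 0 < runMax g T N x) :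
    runMax g T N x ≤ g x + runMax g T N (T x) := by
  have h1 : runMax g T N x ≤ max 0 (g x + runMax g T N (T x)) := runMax_mono N x
  rcases le_max_iff.1 h1 with h2 | h2
  · exact absurd h2 (not_le.2 h)
  · exact h2

variable [MeasurableSpace α]

lemma measurable_runMax (hg : Measurable g) (hT : Measurable T) (N : ℕ) :
    Measurable (runMax g T N) := by
  induction N with
  | zero => exact measurable_const
  | succ N ih => exact measurable_const.max (hg.add (ih.comp hT))

end MaxAux

open MaxAux

/-- Row MAX: the maximal ergodic inequality. -/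
theorem maximal {α : Type*} [MeasurableSpace α] (μ : Measure α) [IsFiniteMeasure μ] (T : α → α)
    (hT : MeasurePreserving T μ μ) (f : α → ℝ) (hf : Measurable f) (h0 : ∀ x, 0 ≤ f x) (B : ℝ)
    (hb : ∀ x, f x ≤ B) (a : ℝ) (ha : 0 < a) :
    μ.real {x | ∃ n : ℕ, 1 ≤ n ∧ a * n < ∑ j ∈ Finset.range n, f (T^[j] x)} ≤
      (∫ x, f x ∂μ) / a := by
  obtain ⟨g, hg⟩ : ∃ g : α → ℝ, g = fun x => f x - a := ⟨_, rfl⟩
  have hgm : Measurable g := by
    rw [hg]
    exact hf.sub_const a
  have hgC : ∀ x, g x ≤ |B| := by
    intro x
    rw [hg]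
    have := hb x
    have := le_abs_self B
    simp only
    linarith
  have hfint : Integrable f μ := by
    refine Integrable.of_bound hf.aestronglyMeasurable B (Filter.Eventually.of_forall fun x => ?_)
    rw [Real.norm_eq_abs, abs_of_nonneg (h0 x)]
    exact hb x
  have hMm : ∀ N, Measurable (runMax g T N) := measurable_runMax hgm hT.measurable
  have hMint : ∀ N, Integrable (runMax g T N) μ := by
    intro N
    refine Integrable.of_bound (hMm N).aestronglyMeasurable (N * |B|)
      (Filter.Eventually.of_forall fun x => ?_)
    rw [Real.norm_eq_abs, abs_of_nonneg (runMax_nonneg N x)]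
    exact runMax_le (abs_nonneg B) hgC N x
  have hint0 : 0 ≤ ∫ x, f x ∂μ := integral_nonneg h0
  have hE : ∀ N, μ.real {x | 0 < runMax g T N x} ≤ (∫ x, f x ∂μ) / a := by
    intro N
    have hEm : MeasurableSet {x | 0 < runMax g T N x} := measurableSet_lt measurable_const (hMm N)
    have hgi : Integrable g μ := by
      rw [hg]
      exact hfint.sub (integrable_const a)
    have hMT : Integrable (fun x => runMax g T N (T x)) μ :=
      hT.integrable_comp_of_integrable (hMint N)
    have h1 : ∫ x, (runMax g T N x - runMax g T N (T x)) ∂μ ≤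
        ∫ x, {x | 0 < runMax g T N x}.indicator g x ∂μ := by
      refine integral_mono ?_ (hgi.indicator hEm) ?_
      · exact (hMint N).sub hMT
      · intro x
        simp only
        by_cases hx : 0 < runMax g T N x
        · rw [indicator_of_mem (by exact hx)]
          have := runMax_le_add hx
          linarith
        · rw [indicator_of_notMem (by exact hx)]
          have h2 := runMax_nonneg (g := g) (T := T) N (T x)
          rw [not_lt] at hx
          linarith
    have h2 : ∫ x, runMax g T N (T x) ∂μ = ∫ x, runMax g T N x ∂μ := by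
      have := hT.map_eq
      calc ∫ x, runMax g T N (T x) ∂μ = ∫ y, runMax g T N y ∂(Measure.map T μ) := by
            rw [integral_map hT.aemeasurable (hMm N).aestronglyMeasurable]
        _ = ∫ x, runMax g T N x ∂μ := by rw [this]
    rw [integral_sub (hMint N) hMT, h2, sub_self,
      integral_indicator hEm] at h1
    have h3 : ∫ x in {x | 0 < runMax g T N x}, g x ∂μ =
        (∫ x in {x | 0 < runMax g T N x}, f x ∂μ) - a * μ.real {x | 0 < runMax g T N x} := by
      rw [hg, integral_sub hfint.integrableOn (integrable_const a).integrableOn]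
      rw [setIntegral_const, smul_eq_mul, mul_comm]
    rw [h3] at h1
    have h4 : ∫ x in {x | 0 < runMax g T N x}, f x ∂μ ≤ ∫ x, f x ∂μ :=
      setIntegral_le_integral hfint (Filter.Eventually.of_forall h0)
    rw [le_div_iff₀ ha]
    linarith
  have hsub : {x | ∃ n : ℕ, 1 ≤ n ∧ a * n < ∑ j ∈ Finset.range n, f (T^[j] x)} ⊆
      ⋃ N, {x | 0 < runMax g T N x} := by
    rintro x ⟨n, -, hn⟩
    refine mem_iUnion.2 ⟨n, ?_⟩
    refine lt_of_lt_of_le ?_ (sum_le_runMax n x)
    rw [hg]
    simp only [Finset.sum_sub_distrib, Finset.sum_const, Finset.card_range, nsmul_eq_mul]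
    linarith
  have hmono : Monotone fun N => {x | 0 < runMax g T N x} := by
    intro N M hNM x hx
    exact lt_of_lt_of_le hx (runMax_monotone x hNM)
  have h5 : μ (⋃ N, {x | 0 < runMax g T N x}) ≤ ENNReal.ofReal ((∫ x, f x ∂μ) / a) := by
    rw [hmono.measure_iUnion]
    refine iSup_le fun N => ?_
    rw [← ENNReal.ofReal_toReal (measure_ne_top μ {x | 0 < runMax g T N x})]
    exact ENNReal.ofReal_le_ofReal (hE N)
  rw [measureReal_def]
  refine ENNReal.toReal_le_of_le_ofReal (by positivity) ?_
  exact le_trans (measure_mono hsub) h5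

end Pool.Agent.SM
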