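import Pool.Agent.Lib.SM.Box
import Pool.Agent.Lib.SM.Arc

/-!
# The standard map on the torus: boxes of several times (helper90)
-/

set_option autoImplicit false

open Real MeasureTheory Set

namespace Pool.Agent.SM

theorem hh_coe {u : ℝ} (hu : u ≤ 2 * π) (x : ℝ) : hh u (x : AddCircle (2 * π)) = psi u x := by
  rw [hh_eq hu]
  rfl

/-- The indicator of a box of several times. -/
noncomputable def bxd {d : ℕ} (l : ℝ) (u : Fin d → ℝ) (p : Torus) : ℝ :=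
  ∏ i : Fin d, hh (u i) (((std l)^[i] p).2)

theorem measurable_bxd {d : ℕ} (l : ℝ) {u : Fin d → ℝ} (hu : ∀ i, u i ≤ 2 * π) :
    Measurable (bxd l u) := by
  unfold bxd
  exact Finset.measurable_fun_prod _ fun i _ => (measurable_hh (hu i)).comp
    (measurable_snd.comp ((measurable_std l).iterate i))

theorem bxd_nonneg {d : ℕ} (l : ℝ) (u : Fin d → ℝ) (p : Torus) : 0 ≤ bxd l u p :=
  Finset.prod_nonneg fun _ _ => hh_nonneg _ _

theorem bxd_le {d : ℕ} (l : ℝ) (u : Fin d → ℝ) (p : Torus) : bxd l u p ≤ 1 :=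
  Finset.prod_le_one (fun _ _ => hh_nonneg _ _) fun _ _ => hh_le _ _

theorem bxd_mono {d : ℕ} (l : ℝ) {u v : Fin d → ℝ} (h : ∀ i, u i ≤ v i) (hv : ∀ i, v i ≤ 2 * π)
    (p : Torus) : bxd l u p ≤ bxd l v p :=
  Finset.prod_le_prod (fun _ _ => hh_nonneg _ _) fun i _ => hh_mono (h i) (hv i) _

theorem bxd_mkT {d : ℕ} (l : ℝ) {u : Fin d → ℝ} (hu : ∀ i, u i ≤ 2 * π) (q : ℝ × ℝ) :
    bxd l u (mkT q) = ∏ i : Fin d, psi (u i) (X l q.2 q.1 i) := by
  unfold bxd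
  refine Finset.prod_congr rfl fun i _ => ?_
  rw [std_iter, T_iter]
  exact hh_coe (hu i) _

/-- One block on the torus. -/
theorem torus_block (d : ℕ) {t : ℝ} (ht : 12 ≤ t) (M : ℕ) (hM : 1 ≤ M) (N : ℕ) (hN : 1 ≤ N)
    (hNt : (N : ℝ) + d ≤ t) {ζ : ℂ} (hζ : ‖ζ‖ = 1) (u : Fin d → ℝ)
    (hu : ∀ i, 0 ≤ u i ∧ u i ≤ 2 * π) :
    ∫ p, ‖(1 / (N : ℂ)) * ∑ j ∈ Finset.range N, ζ ^ j *
      ((bxd (t ^ 7) u ((std (t ^ 7))^[j] p) : ℂ) - ((∏ i, (u i / (2 * π)) : ℝ) : ℂ))‖ ∂lebT ≤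
      12 * d / √M + (2 * M + 1) ^ d * √(3 / N + (10 * M + 6) / t) := by
  have hπ := Real.two_pi_pos
  have h := box_l1 d ht M hM N hN hNt hζ u hu
  have hu2 : ∀ i, u i ≤ 2 * π := fun i => (hu i).2
  set l := t ^ 7 with hl
  set F : Torus → ℝ := fun p => ‖(1 / (N : ℂ)) * ∑ j ∈ Finset.range N, ζ ^ j *
      ((bxd l u ((std l)^[j] p) : ℂ) - ((∏ i, (u i / (2 * π)) : ℝ) : ℂ))‖ with hF
  have hFm : Measurable F := by
    rw [hF]
    refine ((Finset.measurable_fun_sum _ fun j _ => ?_).const_mul _).norm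
    exact ((Complex.measurable_ofReal.comp ((measurable_bxd l hu2).comp
      ((measurable_std l).iterate j))).sub_const _).const_mul _
  have h1 := int_torus hFm.stronglyMeasurable
  have h2 : ∀ p : ℝ × ℝ, F (mkT p) = ‖(1 / (N : ℂ)) * A l ζ (fun p =>
      ((∏ i : Fin d, psi (u i) (X l p.2 p.1 i) : ℝ) : ℂ) -
      ((∏ i, (u i / (2 * π)) : ℝ) : ℂ)) N p‖ := by
    intro p
    rw [hF]
    simp only
    unfold A
    congr 2
    refine Finset.sum_congr rfl fun j _ => ?_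
    rw [std_iter, bxd_mkT l hu2]
  simp only [h2] at h1
  rw [h1, smul_eq_mul] at h
  exact le_of_mul_le_mul_left h (by positivity)

/-- The indicator of a product of arcs. -/
theorem arcd {d : ℕ} (s s' : Fin d → ℝ) (hs : ∀ i, s i ≤ s' i)
    (hs' : ∀ i, s' i ≤ s i + 2 * π) : ∃ (w : (Fin d → Fin 3) → ℝ)
    (u : (Fin d → Fin 3) → Fin d → ℝ), (∀ κ, |w κ| ≤ 1) ∧ (∀ κ i, 0 ≤ u κ i ∧ u κ i ≤ 1) ∧
    (∀ x : Fin d → AddCircle (2 * π), ∏ i, (arc (s i) (s' i)).indicator (fun _ => (1 : ℝ)) (x i) =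
      ∑ κ, w κ * ∏ i, hh (2 * π * u κ i) (x i)) ∧
    ∏ i, ((s' i - s i) / (2 * π)) = ∑ κ, w κ * ∏ i, u κ i := by
  have hπ := Real.two_pi_pos
  have h := fun i => arc_dec (s i) (s' i) (hs i) (hs' i)
  choose w u hw hu h1 h2 using h
  refine ⟨fun κ => ∏ i, w i (κ i), fun κ i => u i (κ i) / (2 * π), ?_, ?_, ?_, ?_⟩
  · intro κ
    rw [Finset.abs_prod]
    exact Finset.prod_le_one (fun i _ => abs_nonneg _) fun i _ => hw i _
  · intro κ i
    exact ⟨div_nonneg (hu i _).1 hπ.le, (div_le_one hπ).2 (hu i _).2⟩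
  · intro x
    simp only [h1]
    rw [Finset.prod_univ_sum, Fintype.piFinset_univ]
    refine Finset.sum_congr rfl fun κ _ => ?_
    rw [Finset.prod_mul_distrib]
    congr 1
    refine Finset.prod_congr rfl fun i _ => ?_
    rw [mul_div_cancel₀ _ hπ.ne']
  · have e : ∀ i, (s' i - s i) / (2 * π) = ∑ j, w i j * (u i j / (2 * π)) := by
      intro i
      rw [h2, Finset.sum_div]
      exact Finset.sum_congr rfl fun j _ => by ring
    simp only [e]
    rw [Finset.prod_univ_sum, Fintype.piFinset_univ]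
    refine Finset.sum_congr rfl fun κ _ => ?_
    rw [Finset.prod_mul_distrib]

end Pool.Agent.SM
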