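import Pool.Agent.Lib.SM.Orb

/-!
# The standard map on the torus (helper90)
-/

set_option autoImplicit false

open Real MeasureTheory Set

namespace Pool.Agent.SM

instance fact_two_pi : Fact (0 < 2 * π) := ⟨two_pi_pos⟩

/-- The torus. -/
abbrev Torus : Type := AddCircle (2 * π) × AddCircle (2 * π)

/-- The normalized Lebesgue measure. -/
noncomputable def lebT : Measure Torus :=
  (AddCircle.haarAddCircle : Measure (AddCircle (2 * π))).prod AddCircle.haarAddCircle

instance : IsProbabilityMeasure lebT := by
  unfold lebT
  infer_instance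

/-- The standard map. -/
noncomputable def std (l : ℝ) (p : Torus) : Torus :=
  (2 • p.1 - p.2 + ((l * Real.Angle.sin p.1 : ℝ) : AddCircle (2 * π)), p.1)

/-- The projection. -/
noncomputable def mkT (p : ℝ × ℝ) : Torus := ((p.1 : AddCircle (2 * π)), (p.2 : AddCircle (2 * π)))

theorem measurable_mkT : Measurable mkT := by
  unfold mkT
  exact (AddCircle.measurable_mk'.comp measurable_fst).prodMk
    (AddCircle.measurable_mk'.comp measurable_snd)

theorem std_mkT (l : ℝ) (p : ℝ × ℝ) : std l (mkT p) = mkT (T l p) := by
  unfold std mkT T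
  ext
  · simp only
    rw [show Real.Angle.sin ((p.1 : ℝ) : AddCircle (2 * π)) = Real.sin p.1 from
      Real.Angle.sin_coe p.1]
    rw [AddCircle.coe_add, AddCircle.coe_sub, two_nsmul, two_mul p.1, AddCircle.coe_add]
  · rfl

theorem std_iter (l : ℝ) (j : ℕ) (p : ℝ × ℝ) : (std l)^[j] (mkT p) = mkT ((T l)^[j] p) := by
  induction j generalizing p with
  | zero => rfl
  | succ j ih => rw [Function.iterate_succ_apply, Function.iterate_succ_apply, std_mkT, ih]

/-- The push-forward. -/
theorem map_mkT : Measure.map mkT (volume.restrict Qd) = (ENNReal.ofReal (2 * π)) ^ 2 • lebT := by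
  have h := AddCircle.measurePreserving_mk (2 * π) 0
  have h2 := h.prod h
  have e1 : (volume.restrict (Ioc (0 : ℝ) (0 + 2 * π))).prod
      (volume.restrict (Ioc (0 : ℝ) (0 + 2 * π))) = (volume : Measure (ℝ × ℝ)).restrict Qd := by
    rw [Measure.prod_restrict, zero_add]
    rfl
  rw [e1] at h2
  have e2 := h2.map_eq
  have e3 : (Prod.map (fun x : ℝ => (x : AddCircle (2 * π)))
      (fun x : ℝ => (x : AddCircle (2 * π)))) = mkT := rfl
  rw [e3] at e2
  rw [e2, AddCircle.volume_eq_smul_haarAddCircle, Measure.prod_smul_left]
  rw [Measure.prod_smul_right, smul_smul, sq]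
  rfl

theorem int_torus {E : Type*} [NormedAddCommGroup E] [NormedSpace ℝ E] {F : Torus → E}
    (hF : StronglyMeasurable F) : ∫ p in Qd, F (mkT p) = (2 * π) ^ 2 • ∫ p, F p ∂lebT := by
  rw [← integral_map (φ := mkT) measurable_mkT.aemeasurable hF.aestronglyMeasurable, map_mkT,
    integral_smul_measure]
  congr 1
  rw [ENNReal.toReal_pow, ENNReal.toReal_ofReal (by positivity)]

theorem measurable_std (l : ℝ) : Measurable (std l) := by
  have h : Continuous (std l) := by
    unfold std
    have h1 : Continuous fun p : Torus => Real.Angle.sin p.1 :=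
      Real.Angle.continuous_sin.comp continuous_fst
    have h2 : Continuous fun p : Torus => ((l * Real.Angle.sin p.1 : ℝ) : AddCircle (2 * π)) :=
      (AddCircle.continuous_mk' (2 * π)).comp (continuous_const.mul h1)
    exact (((continuous_fst.nsmul 2).sub continuous_snd).add h2).prodMk continuous_fst
  exact h.measurable

/-- The standard map preserves the measure. -/
theorem mp_std (l : ℝ) : MeasurePreserving (std l) lebT lebT := by
  set g : AddCircle (2 * π) → AddCircle (2 * π) := fun x =>
    2 • x + ((l * Real.Angle.sin x : ℝ) : AddCircle (2 * π)) with hg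
  have hgc : Continuous g := by
    have h1 : Continuous fun p : AddCircle (2 * π) => Real.Angle.sin p :=
      Real.Angle.continuous_sin
    have h2 : Continuous fun p : AddCircle (2 * π) =>
        ((l * Real.Angle.sin p : ℝ) : AddCircle (2 * π)) :=
      (AddCircle.continuous_mk' (2 * π)).comp (continuous_const.mul h1)
    exact (continuous_id.nsmul 2).add h2
  have h1 : MeasurePreserving (fun p : Torus => (p.1, g p.1 - p.2)) lebT lebT := by
    unfold lebT
    refine (MeasurePreserving.id _).skew_product (g := fun x y => g x - y) ?_ ?_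
    · exact ((hgc.comp continuous_fst).sub continuous_snd).measurable
    · refine Filter.Eventually.of_forall fun x => ?_
      exact (Measure.measurePreserving_sub_left _ (g x)).map_eq
  have h2 : MeasurePreserving (Prod.swap : Torus → Torus) lebT lebT := by
    unfold lebT
    exact Measure.measurePreserving_swap
  have h3 := h2.comp h1
  convert h3 using 1
  funext p
  unfold std
  ext
  · show 2 • p.1 - p.2 + _ = g p.1 - p.2
    rw [hg]
    simp only
    abel
  · rfl

end Pool.Agent.SM
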